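import Pool.Agent.P.MP_7d0087_nt.Poly

/-! The degree five Belyi map and the binomial decomposition. -/

namespace Pool.Agent.P.MP_7d0087_nt

open Polynomial Finset

section defs
variable (R : Type*) [CommRing R]

noncomputable def P1 : R[X] := 4 * X - 1
noncomputable def P2 : R[X] := 9 * X + 4
noncomputable def P3 : R[X] := X + 1
noncomputable def Uq : R[X] := 108 * X ^ 2 - 9 * X + 8
noncomputable def Dd : R[X] := 3125 * X ^ 2

lemma belyi : P3 R * Uq R ^ 2 = P1 R ^ 2 * P2 R ^ 3 + Dd R := by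
  unfold P1 P2 P3 Uq Dd; ring

lemma dP1 : derivative (P1 R) = 4 := by unfold P1; simp
lemma dP2 : derivative (P2 R) = 9 := by unfold P2; simp
lemma dP3 : derivative (P3 R) = 1 := by unfold P3; simp
lemma dUq : derivative (Uq R) = 216 * X - 9 := by
  unfold Uq; simp; norm_num; ring
lemma dDd : X * derivative (Dd R) = 2 * Dd R := by
  unfold Dd; simp; norm_num; ring

lemma natDegree_P1 : (P1 R).natDegree ≤ 1 := by unfold P1; compute_degree
lemma natDegree_P2 : (P2 R).natDegree ≤ 1 := by unfold P2; compute_degree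
lemma natDegree_P3 : (P3 R).natDegree ≤ 1 := by unfold P3; compute_degree
lemma natDegree_Uq : (Uq R).natDegree ≤ 2 := by unfold Uq; compute_degree
lemma natDegree_Dd : (Dd R).natDegree ≤ 2 := by unfold Dd; compute_degree
lemma natDegree_Q : (P1 R * P2 R).natDegree ≤ 2 :=
  natDegree_mul_le.trans (add_le_add (natDegree_P1 R) (natDegree_P2 R))

lemma Q_eq : P1 R * P2 R = 36 * X ^ 2 + 7 * X - 4 := by unfold P1 P2; ring

lemma P1_c0 : coeff (P1 R) 0 = -1 := by unfold P1; simp
lemma P1_c1 : coeff (P1 R) 1 = 4 := by unfold P1; simp [coeff_one]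
lemma P2_c0 : coeff (P2 R) 0 = 4 := by unfold P2; simp
lemma P2_c1 : coeff (P2 R) 1 = 9 := by unfold P2; simp [coeff_ofNat_succ]
lemma P3_c0 : coeff (P3 R) 0 = 1 := by unfold P3; simp
lemma P3_c1 : coeff (P3 R) 1 = 1 := by unfold P3; simp [coeff_one]
lemma Uq_c0 : coeff (Uq R) 0 = 8 := by unfold Uq; simp
lemma Uq_c1 : coeff (Uq R) 1 = -9 := by unfold Uq; simp [coeff_ofNat_succ, coeff_X_pow]
lemma Uq_c2 : coeff (Uq R) 2 = 108 := by unfold Uq; simp [coeff_ofNat_succ, coeff_X_pow, coeff_X]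
lemma Q_c0 : coeff (P1 R * P2 R) 0 = -4 := by rw [Q_eq]; simp
lemma Q_c1 : coeff (P1 R * P2 R) 1 = 7 := by rw [Q_eq]; simp [coeff_ofNat_succ, coeff_X_pow]
lemma Q_c2 : coeff (P1 R * P2 R) 2 = 36 := by
  rw [Q_eq]; simp [coeff_ofNat_succ, coeff_X_pow, coeff_X]

lemma Dd_pow (c : ℕ) : Dd R ^ c = C (3125 ^ c) * X ^ (2 * c) := by
  unfold Dd; rw [mul_pow, ← pow_mul, C_pow]; rfl

variable {R}
variable {S : Type*} [CommRing S] (φ : R →+* S)
lemma map_P1 : (P1 R).map φ = P1 S := by unfold P1; simp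
lemma map_P2 : (P2 R).map φ = P2 S := by unfold P2; simp
lemma map_P3 : (P3 R).map φ = P3 S := by unfold P3; simp
lemma map_Uq : (Uq R).map φ = Uq S := by unfold Uq; simp
lemma map_Dd : (Dd R).map φ = Dd S := by unfold Dd; simp

end defs

section mono
variable {R : Type*} [CommRing R]

lemma X_deriv_Dd_pow (c : ℕ) : X * derivative (Dd R ^ c) = 2 * (c : R[X]) * Dd R ^ c := by
  induction c with
  | zero => simp
  | succ c ih =>
    rw [pow_succ, derivative_mul]
    have := dDd R
    push_cast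
    linear_combination (Dd R) * ih + (Dd R ^ c) * this

lemma th_mono (m a b c : ℕ) (t : R) (ha : ((a : R) + 1) = 2 * t) (hb : ((b : R) + 1) = 3 * t)
    (hc : 2 * (c : R) - m = -2 * t) :
    th m (P1 R ^ (a + 1) * P2 R ^ (b + 1) * Dd R ^ c) =
      C t * (P1 R ^ a * P2 R ^ b * Dd R ^ c * Uq R) := by
  have ha' : ((a : R[X]) + 1) = 2 * C t := by
    have := congrArg C ha
    simpa [C_eq_natCast, map_ofNat] using this
  have hb' : ((b : R[X]) + 1) = 3 * C t := by
    have := congrArg C hb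
    simpa [C_eq_natCast, map_ofNat] using this
  have hc' : 2 * (c : R[X]) - m = -2 * C t := by
    have := congrArg C hc
    simpa [C_eq_natCast, map_ofNat] using this
  have hD := X_deriv_Dd_pow (R := R) c
  unfold th
  rw [derivative_mul, derivative_mul, derivative_pow_succ, derivative_pow_succ, dP1, dP2]
  simp only [map_add, C_eq_natCast, map_one]
  have hU : Uq R = 8 * X * P2 R + 27 * X * P1 R - 2 * P1 R * P2 R := by
    unfold P1 P2 Uq; ring
  rw [hU, ha', hb', pow_succ, pow_succ]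
  linear_combination (P1 R ^ a * P1 R * P2 R ^ b * P2 R) * hD +
    (P1 R ^ a * P1 R * P2 R ^ b * P2 R * Dd R ^ c) * hc'

/-- the `i`-th term of the binomial decomposition -/
noncomputable def term (R : Type*) [CommRing R] (n a b i : ℕ) : R[X] :=
  P1 R ^ (2 * i + a) * P2 R ^ (3 * i + b) * Dd R ^ (n - i)

lemma binom_decomp (n a b : ℕ) :
    Uq R ^ (2 * n + 1) * (P3 R ^ n * P1 R ^ a * P2 R ^ b) =
      ∑ i ∈ range (n + 1), C (n.choose i : R) * (term R n a b i * Uq R) := by
  have h : Uq R ^ (2 * n + 1) * (P3 R ^ n * P1 R ^ a * P2 R ^ b) =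
      (P3 R * Uq R ^ 2) ^ n * (P1 R ^ a * P2 R ^ b * Uq R) := by ring
  rw [h, belyi, add_pow, sum_mul]
  refine sum_congr rfl fun i _ => ?_
  unfold term
  rw [C_eq_natCast]; ring

lemma map_term {S : Type*} [CommRing S] (φ : R →+* S) (n a b i : ℕ) :
    (term R n a b i).map φ = term S n a b i := by
  unfold term
  simp only [Polynomial.map_mul, Polynomial.map_pow, map_P1, map_P2, map_Dd]

lemma natDegree_term (n a b i : ℕ) :
    (term R n a b i).natDegree ≤ (2 * i + a) + (3 * i + b) + 2 * (n - i) := by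
  unfold term
  refine natDegree_mul_le.trans (add_le_add (natDegree_mul_le.trans (add_le_add ?_ ?_)) ?_)
  · exact natDegree_pow_le.trans (by simpa using Nat.mul_le_mul_left _ (natDegree_P1 R))
  · exact natDegree_pow_le.trans (by simpa using Nat.mul_le_mul_left _ (natDegree_P2 R))
  · exact natDegree_pow_le.trans (by
      rw [mul_comm 2]; exact Nat.mul_le_mul_left _ (natDegree_Dd R))

lemma coeff_term_mul_low (n a b i k : ℕ) (g : R[X]) (hk : k < 2 * (n - i)) :
    coeff (term R n a b i * g) k = 0 := by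
  unfold term
  rw [Dd_pow]
  have : P1 R ^ (2 * i + a) * P2 R ^ (3 * i + b) * (C (3125 ^ (n - i)) * X ^ (2 * (n - i))) * g =
      (P1 R ^ (2 * i + a) * P2 R ^ (3 * i + b) * C (3125 ^ (n - i)) * g) * X ^ (2 * (n - i)) := by
    ring
  rw [this, coeff_mul_X_pow', if_neg (by omega)]

end mono

end Pool.Agent.P.MP_7d0087_nt
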