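import Pool.Agent.P.MP_7d0087_nt.Delta

/-! The main computation modulo `p^2`. -/

namespace Pool.Agent.P.MP_7d0087_nt

open Polynomial Finset

variable {p : ℕ} [hp : Fact p.Prime]

lemma trace_lemma' {m e d : ℕ} (hm : m < p) (H f : (ZMod p)[X]) (s : ZMod p)
    (hH : H.natDegree ≤ e) (hH0 : H ≠ 0) (hf : H ∣ f - C s * X ^ m) (hfd : f.natDegree ≤ d)
    (hmd : m ≤ d) (hd : d + e < m + p) :
    ∃ y : ZMod p, coeff (X * derivative H * H ^ (p - 1) * f) m = y * coeff H 0 ∧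
      coeff (X * derivative H * H ^ (p - 1) * f) (m + e * p) =
        s * (e * coeff H e) + y * coeff H e := by
  obtain ⟨f', hf'⟩ := hf
  refine trace_lemma hm H f f' s hH (by linear_combination hf') ?_
  have h1 : (X * derivative H).natDegree ≤ e := by
    rw [natDegree_le_iff_coeff_eq_zero]
    intro i hi
    rw [coeff_X_mul_derivative, coeff_eq_zero_of_natDegree_lt (by omega), mul_zero]
  have h2 : f'.natDegree ≤ d := by
    by_cases h0 : f' = 0
    · simp [h0]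
    · have h3 : (H * f').natDegree ≤ d := by
        rw [← hf']
        exact (natDegree_sub_le _ _).trans (max_le hfd
          ((natDegree_C_mul_le _ _).trans ((natDegree_X_pow_le _).trans hmd)))
      rw [natDegree_mul hH0 h0] at h3
      omega
  have := natDegree_mul_le (p := X * derivative H) (q := f')
  omega

lemma natDegree_XH {e : ℕ} (H : (ZMod p)[X]) (hH : H.natDegree ≤ e) :
    (X * derivative H * H ^ (p - 1)).natDegree ≤ e * p := by
  have h1 : (X * derivative H).natDegree ≤ e := by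
    rw [natDegree_le_iff_coeff_eq_zero]
    intro i hi
    rw [coeff_X_mul_derivative, coeff_eq_zero_of_natDegree_lt (by omega), mul_zero]
  have h2 : (H ^ (p - 1)).natDegree ≤ (p - 1) * e :=
    natDegree_pow_le.trans (Nat.mul_le_mul_left _ hH)
  have h3 : e * p = e + (p - 1) * e := by
    have := hp.out.pos
    obtain ⟨k, rfl⟩ : ∃ k, p = k + 1 := ⟨p - 1, by omega⟩
    simp; ring
  rw [h3]
  exact natDegree_mul_le.trans (add_le_add h1 h2)

lemma coeff_XH_top {e : ℕ} (H : (ZMod p)[X]) (hH : H.natDegree ≤ e) :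
    coeff (X * derivative H * H ^ (p - 1)) (e * p) = e * coeff H e := by
  have h1 : (X * derivative H).natDegree ≤ e := by
    rw [natDegree_le_iff_coeff_eq_zero]
    intro i hi
    rw [coeff_X_mul_derivative, coeff_eq_zero_of_natDegree_lt (by omega), mul_zero]
  have h2 : (H ^ (p - 1)).natDegree ≤ (p - 1) * e :=
    natDegree_pow_le.trans (Nat.mul_le_mul_left _ hH)
  have h3 : e * p = e + (p - 1) * e := by
    have := hp.out.pos
    obtain ⟨k, rfl⟩ : ∃ k, p = k + 1 := ⟨p - 1, by omega⟩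
    simp; ring
  rw [h3, coeff_mul_add_eq_of_natDegree_le h1 h2, coeff_X_mul_derivative,
    coeff_pow_of_natDegree_le hH]
  by_cases h0 : coeff H e = 0
  · simp [h0]
  · rw [ZMod.pow_card_sub_one_eq_one h0, mul_one]

lemma coeff_XH_zero (H : (ZMod p)[X]) : coeff (X * derivative H * H ^ (p - 1)) 0 = 0 := by
  simp [mul_assoc]

/-- integration by parts against a p-derivation -/
lemma coeff_delta_th {f g : ℤ[X]} (h : f ^ p = expand ℤ p f + (p : ℤ[X]) * g) {m : ℕ} (hm : m < p)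
    (Y : (ZMod p)[X]) (hY : Y.natDegree < m + p) (k : ℕ) :
    coeff (rd p g * th m Y) (m + k * p) =
      - coeff (X * derivative (rd p f) * rd p f ^ (p - 1) * Y) (m + k * p) +
        coeff Y m * (k * coeff (rd p f) k) := by
  rw [coeff_mul_th, rd_delta_deriv h, sub_mul, coeff_sub, coeff_pow_mul _ _ hm hY,
    coeff_X_mul_derivative]
  ring

lemma coeff_delta_W {r : ℕ} (hr : p = 6 * r + 1) {f g : ℤ[X]}
    (h : f ^ p = expand ℤ p f + (p : ℤ[X]) * g) (k : ℕ) :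
    coeff (rd p g * Wp (ZMod p) (3 * r) (2 * r)) (2 * r + k * p) =
      coeff (Wp (ZMod p) (3 * r) (2 * r)) (2 * r) * coeff (rd p g) (k * p) -
        coeff (X * derivative (rd p f) * rd p f ^ (p - 1) * Ih p r) (2 * r + k * p) := by
  have h1 : Wp (ZMod p) (3 * r) (2 * r) = th (2 * r) (Ih p r) +
      C (coeff (Wp (ZMod p) (3 * r) (2 * r)) (2 * r)) * X ^ (2 * r) := by
    rw [th_Ih hr]; ring
  have h2 := natDegree_Ih (p := p) r
  conv_lhs => rw [h1]
  rw [mul_add, coeff_add, coeff_delta_th h (by omega) _ (by omega), coeff_Ih_mid, mul_left_comm (rd p g),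
    coeff_C_mul, add_comm (2 * r) (k * p), coeff_mul_X_pow]
  ring

lemma coeff_delta_int {f g : ℤ[X]} (h : f ^ p = expand ℤ p f + (p : ℤ[X]) * g) {m : ℕ} (hm : m < p)
    (Y : ℤ[X]) (hY : Y.natDegree < m + p) (k : ℕ) :
    ((coeff (f ^ p * Y) (m + k * p) : ℤ) : ZA p) =
      ((coeff Y m : ℤ) : ZA p) * ((coeff f k : ℤ) : ZA p) + pm p (coeff (rd p g * rd p Y) (m + k * p)) := by
  rw [h, add_mul, coeff_add, mul_comm (expand ℤ p f), coeff_mul_expand hm _ _ hY, mul_assoc,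
    ← C_eq_natCast, coeff_C_mul, ← Polynomial.map_mul, coeff_map, eq_intCast, pm_int]
  push_cast; ring

lemma combine {W Y Y1 Y2 : ZA p} {a b c d e f g h e0 f0 : ZMod p} (hY : Y = Y1 * Y2)
    (B0 : W * 8 + pm p a = 0 + Y1 * (Y2 * ((1 + pm p e0) * 8)) + (0 + pm p b))
    (B2 : W * 108 + pm p c = 0 + Y1 * (Y2 * ((1 + pm p f0) * 108)) + (0 + pm p d))
    (g0 : 8 * Y * pm p e0 = pm p e) (g2 : 108 * Y * pm p f0 = pm p f)
    (hh : g = h + 9 * a + c - 9 * b - d - 9 * e - f) : 180 * W + pm p g = 180 * Y + pm p h := by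
  have k0 : ∀ y, pm p (9 * y) = 9 * pm p y := fun y => by rw [mul_pm, map_ofNat]
  rw [hh]
  simp only [pm_add, pm_sub, k0]
  subst hY
  linear_combination 9 * B0 + B2 + 9 * g0 + g2

theorem core {r : ℕ} (hr : p = 6 * r + 1) (h5 : 5 < p) {d1 d3 : ℤ[X]}
    (h1 : P1 ℤ ^ p = expand ℤ p (P1 ℤ) + (p : ℤ[X]) * d1)
    (h3 : P3 ℤ ^ p = expand ℤ p (P3 ℤ) + (p : ℤ[X]) * d3) {q2 q5 : ZMod p}
    (hq2 : (2 : ZA p) ^ (p - 1) = 1 + pm p q2) (hq5 : (5 : ZA p) ^ (p - 1) = 1 + pm p q5) :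
    ((coeff (Wp ℤ (3 * r) (2 * r)) (2 * r) : ℤ) : ZA p) +
      pm p (- coeff (rd p d3 * Wp (ZMod p) (3 * r) (2 * r)) (2 * r) / 2 +
        2 * q2 * coeff (Wp (ZMod p) (3 * r) (2 * r)) (2 * r) / 3 -
        coeff (rd p d1 * Wp (ZMod p) (3 * r) (2 * r)) (2 * r + p) / 12) =
    ((3 * r).choose (2 * r) : ZA p) * 3125 ^ r +
      pm p (3125 ^ r * (sPos p r / 3 - sNeg p r / 6) +
        ((3 * r).choose (2 * r) : ZMod p) * 3125 ^ r * (2 * q2 / 3 - 5 * q5 / 6)) := by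
  have n2 := two_ne_zero' h5
  have n3 := three_ne_zero' h5
  have n5 := five_ne_zero' h5
  have hr0 : 0 < r := by omega
  obtain ⟨d2, h2⟩ := exists_delta p (P2 ℤ)
  obtain ⟨dU, hU⟩ := exists_delta p (Uq ℤ)
  obtain ⟨dQ, hQ⟩ := exists_delta p (P1 ℤ * P2 ℤ)
  obtain ⟨q3', hq3'⟩ := exists_fermat (p := p) 3 (by exact_mod_cast n3)
  have hq3 := fermat_A hq3'
  generalize (q3' : ZMod p) = q3 at hq3
  push_cast at hq3
  -- the fundamental identity
  have hE := star hr h5 (Del p d1 d2 q5) (Del_deriv h1 h2 q5) (Del_natDegree h1 h2 q5)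
    (Del_dvd h5 h1 h2 hq5)
  have hW := (th_Eh hr h5 _ (Del_deriv h1 h2 q5)).1
  have hlow := Dh_low hr h5 _ _ _ hE
  have hhigh := Dh_high hr h5 _ (Del_natDegree h1 h2 q5) _ _ hE
  have r0 := rel_zero hr h5 _ _ _ hE
  have rt := rel_top hr h5 _ _ _ hE
  have hw : (4 : ZMod p) * (2 ^ 2)⁻¹ = 1 := by field_simp; norm_num
  generalize ((2 : ZMod p) ^ 2)⁻¹ = w at hw
  have rq := rel_quarter h5 _ _ _ hE w hw
  have dq := Del_quarter (d2 := d2) h1 hq2 q5 w hw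
  rw [Del_zero h5 h1 h2 hq2] at r0
  rw [Del_top h1 h2 hq2 hq3] at rt
  have dI := natDegree_Ih (p := p) r
  have dD := natDegree_Dh (p := p) r
  have hDd := dvd_Dh (p := p) r
  rw [Dd_pow, ← mul_assoc, ← C_mul] at hDd
  have hP3 : P3 (ZMod p) = X - C (-1) := by unfold P3; simp
  have hP1 : P1 (ZMod p) = C 4 * (X - C w) := by
    unfold P1; rw [mul_sub, ← C_mul, hw]; simp [map_ofNat]
  have n4 : (4 : ZMod p) ≠ 0 := by intro h; rw [h, zero_mul] at hw; exact zero_ne_one hw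
  have P3ne : P3 (ZMod p) ≠ 0 := by rw [hP3]; exact X_sub_C_ne_zero _
  have P1ne : P1 (ZMod p) ≠ 0 := by
    rw [hP1]; exact mul_ne_zero (C_ne_zero.mpr n4) (X_sub_C_ne_zero _)
  have Une : Uq (ZMod p) ≠ 0 := right_ne_zero_of_mul (squarefree_M h5).ne_zero
  have Qne : P1 (ZMod p) * P2 (ZMod p) ≠ 0 := by
    intro h
    have := Q_c0 (ZMod p)
    rw [h, coeff_zero] at this
    exact n4 (neg_eq_zero.mp this.symm)
  -- traces along `X + 1`
  obtain ⟨ya, a0, a1⟩ := trace_lemma' (m := 2 * r) (by omega) (P3 (ZMod p)) (Ih p r)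
    (eval (-1) (Ih p r)) (natDegree_P3 _) P3ne
    (by rw [hP3, dvd_iff_isRoot]; simp [pow_mul]) dI (by omega) (by omega)
  obtain ⟨yb, b0, b1⟩ := trace_lemma' (m := 2 * r) (by omega) (P3 (ZMod p)) (Dh p r)
    _ (natDegree_P3 _) P3ne ((dvd_mul_right _ _).trans hDd) dD (by omega) (by omega)
  rw [coeff_mul_low _ _ _ _ _ (coeff_XH_zero _) hlow] at b0
  rw [coeff_mul_high _ _ _ _ _ _ (natDegree_XH _ (natDegree_P3 _)) hhigh,
    coeff_XH_top _ (natDegree_P3 _), coeff_Ih_mid] at b1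
  rw [P3_c0] at a0 b0
  rw [P3_c1] at a1 b1
  -- traces along `4X - 1`
  have hw2 : 4 ^ (2 * r) * w ^ (2 * r) = 1 := by rw [← mul_pow, hw, one_pow]
  obtain ⟨yc, c0, c1⟩ := trace_lemma' (m := 2 * r) (by omega) (P1 (ZMod p)) (Ih p r)
    (4 ^ (2 * r) * eval w (Ih p r)) (natDegree_P1 _) P1ne
    (by
      rw [hP1, C_mul_dvd n4, dvd_iff_isRoot]
      simp only [IsRoot.def, eval_sub, eval_mul, eval_C, eval_pow, eval_X]
      linear_combination (- eval w (Ih p r)) * hw2) dI (by omega) (by omega)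
  obtain ⟨yd, d0, d1'⟩ := trace_lemma' (m := 2 * r) (by omega) (P1 (ZMod p)) (Dh p r)
    0 (natDegree_P1 _) P1ne (by
      rw [C_0, zero_mul, sub_zero]; exact (dvd_mul_right _ _).trans (Q_dvd_Dh r)) dD
      (by omega) (by omega)
  rw [coeff_mul_low _ _ _ _ _ (coeff_XH_zero _) hlow] at d0
  rw [coeff_mul_high _ _ _ _ _ _ (natDegree_XH _ (natDegree_P1 _)) hhigh,
    coeff_XH_top _ (natDegree_P1 _), coeff_Ih_mid] at d1'
  rw [P1_c0] at c0 d0
  rw [P1_c1] at c1 d1'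
  -- traces along the quadratics
  obtain ⟨yu, u0, u1⟩ := trace_lemma' (m := 2 * r) (by omega) (Uq (ZMod p)) (Dh p r)
    _ (natDegree_Uq _) Une ((dvd_mul_left _ _).trans hDd) dD (by omega) (by omega)
  rw [coeff_mul_low _ _ _ _ _ (coeff_XH_zero _) hlow] at u0
  rw [coeff_mul_high _ _ _ _ _ _ (natDegree_XH _ (natDegree_Uq _)) hhigh,
    coeff_XH_top _ (natDegree_Uq _), coeff_Ih_mid] at u1
  rw [Uq_c0] at u0
  rw [Uq_c2] at u1
  obtain ⟨yq, v0, v1⟩ := trace_lemma' (m := 2 * r) (by omega) (P1 (ZMod p) * P2 (ZMod p)) (Dh p r)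
    0 (natDegree_Q _) Qne (by rw [C_0, zero_mul, sub_zero]; exact Q_dvd_Dh r) dD
      (by omega) (by omega)
  rw [Q_c0] at v0
  rw [Q_c2] at v1
  -- coefficients of the p-derivations against `W` and `Vpos`
  have x3 := coeff_delta_W hr h3 0
  have x1 := coeff_delta_W hr h1 1
  have xU0 := coeff_delta_W hr hU 0
  have xU2 := coeff_delta_W hr hU 2
  have xQ0 := coeff_delta_th hQ (m := 2 * r) (by omega) (Dh p r) (by omega) 0
  have xQ2 := coeff_delta_th hQ (m := 2 * r) (by omega) (Dh p r) (by omega) 2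
  rw [th_Dh hr] at xQ0 xQ2
  have e3 := rd_delta_zero h3 (P3_c0 ℤ) (y := 0) (by rw [pm_zero]; simp)
  have e1 := rd_delta_top (natDegree_P1 ℤ) h1 (P1_c1 ℤ) (y := ((2 : ℕ) : ZMod p) * q2) (by
    rw [← fermat_pow hq2 2]; norm_num)
  have eU0 := rd_delta_zero hU (Uq_c0 ℤ) (y := ((3 : ℕ) : ZMod p) * q2) (by
    rw [← fermat_pow hq2 3]; norm_num)
  have eU2 := rd_delta_top (natDegree_Uq ℤ) hU (Uq_c2 ℤ)
    (y := ((2 : ℕ) : ZMod p) * q2 + ((3 : ℕ) : ZMod p) * q3) (by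
    rw [← fermat_mul (fermat_pow hq2 2) (fermat_pow hq3 3)]; norm_num)
  rw [e1] at x1
  rw [eU2] at xU2
  simp only [rd, Polynomial.map_mul, map_P1, map_P2, map_P3, map_Uq, zero_mul, add_zero, one_mul,
    Q_c2] at x3 x1 xU0 xU2 xQ0 xQ2 e3 eU0 a1 b1 c1 d1' ⊢
  rw [e3] at x3
  rw [eU0] at xU0
  -- the exact identity over the integers
  have hdec := decomp ℤ r
  rw [← hr, show 6 * r = p - 1 by omega] at hdec
  have dW := natDegree_Wp ℤ (3 * r) (2 * r)
  have dV := natDegree_Vpos ℤ r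
  have dN := natDegree_Vneg ℤ r
  have hmid : ∀ k : ℕ, coeff ((P1 ℤ * P2 ℤ) ^ (p - 1) * Dd ℤ ^ r * Uq ℤ) (2 * r + k) =
      3125 ^ r * coeff ((P1 ℤ * P2 ℤ) ^ (p - 1) * Uq ℤ) k := by
    intro k
    have : (P1 ℤ * P2 ℤ) ^ (p - 1) * Dd ℤ ^ r * Uq ℤ =
        C (3125 ^ r) * (X ^ (2 * r) * ((P1 ℤ * P2 ℤ) ^ (p - 1) * Uq ℤ)) := by rw [Dd_pow]; ring
    rw [this, coeff_C_mul, add_comm, coeff_X_pow_mul]
  have hm0 : coeff ((P1 ℤ * P2 ℤ) ^ (p - 1) * Uq ℤ) (0 * p) = (-4) ^ (p - 1) * 8 := by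
    rw [zero_mul, mul_coeff_zero, Uq_c0, coeff_zero_eq_eval_zero, eval_pow,
      ← coeff_zero_eq_eval_zero, Q_c0]
  have hm2 : coeff ((P1 ℤ * P2 ℤ) ^ (p - 1) * Uq ℤ) (2 * p) = 36 ^ (p - 1) * 108 := by
    rw [show 2 * p = (p - 1) * 2 + 2 by omega, coeff_mul_add_eq_of_natDegree_le
      (natDegree_pow_le.trans (Nat.mul_le_mul_left _ (natDegree_Q _))) (natDegree_Uq _),
      coeff_pow_of_natDegree_le (natDegree_Q _), Q_c2, Uq_c2]
  have B0 := congrArg (fun q => ((coeff q (2 * r + 0 * p) : ℤ) : ZA p)) hdec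
  have B2 := congrArg (fun q => ((coeff q (2 * r + 2 * p) : ℤ) : ZA p)) hdec
  simp only [coeff_add, coeff_C_mul, Int.cast_add, Int.cast_mul] at B0 B2
  rw [coeff_delta_int hU (by omega) _ (by omega), coeff_delta_int hQ (by omega) _ (by omega),
    coeff_Vpos_int, hmid] at B0 B2
  rw [coeff_Vneg_low _ _ _ (by omega), hm0, Uq_c0] at B0
  rw [coeff_eq_zero_of_natDegree_lt (p := Vneg ℤ r) (by omega), hm2, Uq_c2] at B2
  have f4 : (-4 : ZA p) ^ (p - 1) = 1 + pm p (((2 : ℕ) : ZMod p) * q2) := by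
    rw [← fermat_neg h5 (fermat_pow hq2 2)]; norm_num
  have f36 : (36 : ZA p) ^ (p - 1) = 1 + pm p (((2 : ℕ) : ZMod p) * q2 + ((2 : ℕ) : ZMod p) * q3) := by
    rw [← fermat_mul (fermat_pow hq2 2) (fermat_pow hq3 2)]; norm_num
  push_cast at B0 B2 f4 f36 x1 xU0 xU2 xQ2 a1 b1 c1 d1' u1 v1 x3
  simp only [rd, map_Wp, map_Vpos, zero_mul, add_zero] at B0 B2
  rw [f4, xU0, xQ0] at B0
  rw [f36, xU2, xQ2] at B2
  rw [x3, x1]
  set Y : ZA p := ((3 * r).choose (2 * r) : ZA p) * 3125 ^ r with hY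
  have hYr : red p Y = ((3 * r).choose (2 * r) : ZMod p) * 3125 ^ r := by
    rw [hY, map_mul, map_pow, map_natCast, map_ofNat]
  have g0 := mul_pm (8 * Y) (2 * q2)
  have g2 := mul_pm (108 * Y) (2 * q2 + 2 * q3)
  rw [map_mul, map_ofNat, hYr] at g0 g2
  have hu : IsUnit (180 : ZA p) := by
    apply isUnit_of_red_ne_zero
    rw [map_ofNat, show (180 : ZMod p) = 2 ^ 2 * 3 ^ 2 * 5 by norm_num]; positivity
  apply hu.mul_left_cancel
  rw [mul_add, mul_add, mul_pm, mul_pm, map_ofNat]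
  refine combine hY B0 B2 g0 g2 ?_
  rw [hW]
  generalize ((3 * r).choose (2 * r) : ZMod p) * 3125 ^ r = Yb at *
  have hι : 4 ^ (2 * r) * eval w (Ih p r) = eval (-1) (Ih p r) + 2 * q2 * Yb := by
    have : (5 : ZMod p) ^ 2 ≠ 0 := by positivity
    apply mul_left_cancel₀ this
    linear_combination Yb * dq - rq
  rw [hι] at c1
  have n6 : (6 : ZMod p) ≠ 0 := by
    rw [show (6 : ZMod p) = 2 * 3 by norm_num]; positivity
  have n12 : (12 : ZMod p) ≠ 0 := by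
    rw [show (12 : ZMod p) = 2 ^ 2 * 3 by norm_num]; positivity
  have hg : ∀ x y : ZMod p, 180 * (-(Yb * (1 * 0) - x) / 2 + 2 * q2 * Yb / 3 -
      (Yb * (4 * (2 * q2)) - y) / 12) = 90 * x + 15 * y := by
    intro x y; field_simp; ring
  have hh : 180 * (3125 ^ r * (sPos p r / 3 - sNeg p r / 6) + Yb * (2 * q2 / 3 - 5 * q5 / 6)) =
      3125 ^ r * (60 * sPos p r - 30 * sNeg p r) + Yb * (120 * q2 - 150 * q5) := by
    field_simp; ring
  rw [hg, hh]
  apply mul_left_cancel₀ n6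
  push_cast
  linear_combination 108 * (3 * a0 - 3 * a1 - b0 + b1) +
    18 * (d1' + 2 * c1 + 8 * c0 + 4 * d0) + 18 * r0 - 3 * rt - 27 * u0 + 2 * u1 - 54 * v0 - 6 * v1

end Pool.Agent.P.MP_7d0087_nt
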