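import Pool.Agent.P.MP_7d0087_nt.Belyi

/-! Splitting the binomial decomposition; the case `p = 6r+5`. -/

namespace Pool.Agent.P.MP_7d0087_nt

open Polynomial Finset

section generic
variable (R : Type*) [CommRing R]

noncomputable def Wp (n m : ℕ) : R[X] := P3 R ^ n * P1 R ^ m

noncomputable def Vneg (r : ℕ) : R[X] :=
  ∑ i ∈ range (2 * r), C ((3 * r).choose i : R) * (term R (3 * r) (2 * r) 0 i * Uq R)

noncomputable def Vpos (r : ℕ) : R[X] :=
  ∑ j ∈ range r, C ((3 * r).choose (2 * r + 1 + j) : R) * (term R (r - 1) 1 2 j * Uq R)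

lemma natDegree_Wp (n m : ℕ) : (Wp R n m).natDegree ≤ n + m := by
  unfold Wp
  refine natDegree_mul_le.trans (add_le_add ?_ ?_)
  · exact natDegree_pow_le.trans (by simpa using Nat.mul_le_mul_left _ (natDegree_P3 R))
  · exact natDegree_pow_le.trans (by simpa using Nat.mul_le_mul_left _ (natDegree_P1 R))

lemma decomp (r : ℕ) :
    Uq R ^ (6 * r + 1) * Wp R (3 * r) (2 * r) =
      Vneg R r + C ((3 * r).choose (2 * r) : R) * ((P1 R * P2 R) ^ (6 * r) * Dd R ^ r * Uq R) +
        (P1 R * P2 R) ^ (6 * r + 1) * Vpos R r := by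
  have h := binom_decomp (R := R) (3 * r) (2 * r) 0
  rw [pow_zero, mul_one, show 2 * (3 * r) + 1 = 6 * r + 1 by ring,
    show 3 * r + 1 = (2 * r + 1) + r by ring, sum_range_add, sum_range_succ] at h
  unfold Wp Vneg Vpos
  rw [h, mul_sum]
  congr 1
  · congr 1
    unfold term
    rw [show 3 * r - 2 * r = r by omega]; ring
  · refine sum_congr rfl fun j hj => ?_
    rw [mem_range] at hj
    unfold term
    rw [show 3 * r - (2 * r + 1 + j) = r - 1 - j by omega]; ring

lemma th_term_pos (r j : ℕ) (hj : j < r) :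
    th (2 * r) (term R (r - 1) 2 3 j) = C ((j : R) + 1) * (term R (r - 1) 1 2 j * Uq R) := by
  unfold term
  have := th_mono (R := R) (2 * r) (2 * j + 1) (3 * j + 2) (r - 1 - j) ((j : R) + 1)
    (by push_cast; ring) (by push_cast; ring) (by
      obtain ⟨k, rfl⟩ : ∃ k, r = j + 1 + k := ⟨r - (j + 1), by omega⟩
      rw [show j + 1 + k - 1 - j = k by omega]; push_cast; ring)
  exact this

lemma natDegree_Vpos (r : ℕ) : (Vpos R r).natDegree ≤ 5 * r := by
  unfold Vpos
  refine natDegree_sum_le_of_forall_le _ _ fun j hj => ?_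
  rw [mem_range] at hj
  refine (natDegree_C_mul_le _ _).trans (natDegree_mul_le.trans ?_)
  have h1 := natDegree_term (R := R) (r - 1) 1 2 j
  have h2 := natDegree_Uq R
  omega

lemma natDegree_Vneg (r : ℕ) : (Vneg R r).natDegree ≤ 14 * r := by
  unfold Vneg
  refine natDegree_sum_le_of_forall_le _ _ fun j hj => ?_
  rw [mem_range] at hj
  refine (natDegree_C_mul_le _ _).trans (natDegree_mul_le.trans ?_)
  have h1 := natDegree_term (R := R) (3 * r) (2 * r) 0 j
  have h2 := natDegree_Uq R
  omega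

lemma coeff_Vneg_low (r k : ℕ) (hk : k ≤ 2 * r) : coeff (Vneg R r) k = 0 := by
  unfold Vneg
  rw [finsetSum_coeff]
  refine sum_eq_zero fun j hj => ?_
  rw [mem_range] at hj
  rw [coeff_C_mul, coeff_term_mul_low _ _ _ _ _ _ (by omega), mul_zero]

variable {R}
variable {S : Type*} [CommRing S] (φ : R →+* S)

lemma map_Wp (n m : ℕ) : (Wp R n m).map φ = Wp S n m := by
  unfold Wp
  simp only [Polynomial.map_mul, Polynomial.map_pow, map_P1, map_P3]

lemma map_Vpos (r : ℕ) : (Vpos R r).map φ = Vpos S r := by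
  unfold Vpos
  simp only [Polynomial.map_sum, Polynomial.map_mul, map_term, map_Uq, map_natCast,
    Polynomial.map_natCast]

end generic

lemma coeff_Vpos_int (r : ℕ) : coeff (Vpos ℤ r) (2 * r) = 0 := by
  unfold Vpos
  rw [finsetSum_coeff]
  refine sum_eq_zero fun j hj => ?_
  rw [mem_range] at hj
  have h := congrArg (fun q => coeff q (2 * r)) (th_term_pos ℤ r j hj)
  simp only [coeff_th, sub_self, zero_mul, coeff_C_mul] at h
  rw [coeff_C_mul]
  have h2 : ((j : ℤ) + 1) ≠ 0 := by omega
  rw [(mul_eq_zero.mp h.symm).resolve_left h2, mul_zero]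

section charp
variable {p : ℕ} [hp : Fact p.Prime]

lemma th_term_charp {n m i : ℕ} (hn : 2 * n + 1 = p) (hm : ((3 * m + 1 : ℕ) : ZMod p) = 0)
    (hi : i ≤ n) :
    th m (term (ZMod p) n (m + 1) 1 i) =
      C ((i : ZMod p) - m) * (term (ZMod p) n m 0 i * Uq (ZMod p)) := by
  unfold term
  have hn' : ((2 * n + 1 : ℕ) : ZMod p) = 0 := by rw [hn]; simp
  push_cast at hm hn'
  have := th_mono (R := ZMod p) m (2 * i + m) (3 * i + 0) (n - i) ((i : ZMod p) - m)
    (by push_cast; linear_combination hm) (by push_cast; linear_combination hm)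
    (by rw [Nat.cast_sub hi]; linear_combination hn' - hm)
  exact this

lemma two_ne_zero' (h5 : 5 < p) : (2 : ZMod p) ≠ 0 := by
  intro h
  have : ((2 : ℕ) : ZMod p) = 0 := by exact_mod_cast h
  rw [ZMod.natCast_eq_zero_iff] at this
  have := Nat.le_of_dvd (by norm_num) this
  omega

lemma three_ne_zero' (h5 : 5 < p) : (3 : ZMod p) ≠ 0 := by
  intro h
  have : ((3 : ℕ) : ZMod p) = 0 := by exact_mod_cast h
  rw [ZMod.natCast_eq_zero_iff] at this
  have := Nat.le_of_dvd (by norm_num) this
  omega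

lemma five_ne_zero' (h5 : 5 < p) : (5 : ZMod p) ≠ 0 := by
  intro h
  have : ((5 : ℕ) : ZMod p) = 0 := by exact_mod_cast h
  rw [ZMod.natCast_eq_zero_iff] at this
  have := Nat.le_of_dvd (by norm_num) this
  omega

/-- the supersingular case -/
lemma coeff_Wp_eq_zero (r : ℕ) (hr : p = 6 * r + 5) (h5 : 5 < p) :
    coeff (Wp (ZMod p) (3 * r + 2) (4 * r + 3)) (4 * r + 3) = 0 := by
  set n := 3 * r + 2 with hn
  set m := 4 * r + 3 with hm
  have hnp : 2 * n + 1 = p := by omega
  have hmp : ((3 * m + 1 : ℕ) : ZMod p) = 0 := by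
    rw [show 3 * m + 1 = 2 * p by omega]; simp
  have h := binom_decomp (R := ZMod p) n m 0
  rw [pow_zero, mul_one, hnp] at h
  have h2 : ∑ i ∈ range (n + 1), C (n.choose i : ZMod p) * (term (ZMod p) n m 0 i * Uq (ZMod p)) =
      th m (∑ i ∈ range (n + 1), C ((n.choose i : ZMod p) / ((i : ZMod p) - m)) *
        term (ZMod p) n (m + 1) 1 i) := by
    rw [th_sum]
    refine sum_congr rfl fun i hi => ?_
    rw [mem_range] at hi
    have hne : (i : ZMod p) - m ≠ 0 := cast_sub_ne_zero (by omega) (by omega) (by omega)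
    rw [th_C_mul, th_term_charp hnp hmp (by omega), ← mul_assoc (C _) (C _), ← C_mul,
      div_mul_cancel₀ _ hne]
  rw [h2, ← ZMod.expand_card, mul_comm] at h
  have h3 := congrArg (fun q => coeff q (m + 0 * p)) h
  simp only [coeff_th_mp] at h3
  have hdeg := natDegree_Wp (ZMod p) n m
  unfold Wp at hdeg ⊢
  rw [coeff_mul_expand (by omega) _ _ (by omega), Uq_c0] at h3
  have h8 : (8 : ZMod p) ≠ 0 := by
    have := two_ne_zero' h5
    rw [show (8 : ZMod p) = 2 ^ 3 by norm_num]; exact pow_ne_zero _ this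
  exact (mul_eq_zero.mp h3).resolve_right h8

/-- kernel of `th m` in low degree -/
lemma eq_of_th_eq_zero {m : ℕ} (hm : m < p) (E : (ZMod p)[X]) (hE : th m E = 0)
    (hd : E.natDegree < m + 3 * p) :
    E = X ^ m * (C (coeff E m) + C (coeff E (m + p)) * X + C (coeff E (m + 2 * p)) * X ^ 2) ^ p := by
  rw [← ZMod.expand_card]
  simp only [map_add, map_mul, expand_C, expand_X, map_pow]
  have hp0 := hp.out.pos
  ext i
  have h1 : X ^ m * (C (coeff E m) + C (coeff E (m + p)) * X ^ p +
      C (coeff E (m + 2 * p)) * (X ^ p) ^ 2) =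
      C (coeff E m) * X ^ m + C (coeff E (m + p)) * X ^ (m + p) +
        C (coeff E (m + 2 * p)) * X ^ (m + 2 * p) := by ring
  rw [h1]
  simp only [coeff_add, coeff_C_mul, coeff_X_pow]
  by_cases h0 : i = m
  · subst h0; rw [if_pos rfl, if_neg (by omega), if_neg (by omega)]; ring
  by_cases h1 : i = m + p
  · subst h1; rw [if_neg (by omega), if_pos rfl, if_neg (by omega)]; ring
  by_cases h2 : i = m + 2 * p
  · subst h2; rw [if_neg (by omega), if_neg (by omega), if_pos rfl]; ring
  rw [if_neg h0, if_neg h1, if_neg h2]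
  simp only [mul_zero, add_zero]
  by_cases h3 : i < m + 3 * p
  · have hc := congrArg (fun q => coeff q i) hE
    simp only [coeff_th, coeff_zero] at hc
    refine (mul_eq_zero.mp hc).resolve_left ?_
    rw [sub_eq_zero, ZMod.natCast_eq_natCast_iff', Nat.mod_eq_of_lt hm]
    intro h4
    have h5 := Nat.mod_add_div i p
    rw [h4] at h5
    have h6 : i / p < 3 := by
      by_contra h7
      have : p * 3 ≤ p * (i / p) := Nat.mul_le_mul_left _ (by omega)
      omega
    generalize i / p = k at h5 h6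
    interval_cases k <;> omega
  · exact coeff_eq_zero_of_natDegree_lt (by omega)

end charp

end Pool.Agent.P.MP_7d0087_nt
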