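import Mathlib

/-! Arithmetic in `ZMod (p^2)`. -/

namespace Pool.Agent.P.MP_7d0087_nt

open Finset

/-- integers modulo `p^2` -/
def ZA (p : ℕ) : Type := ZMod (p ^ 2)

instance (p : ℕ) : CommRing (ZA p) := inferInstanceAs (CommRing (ZMod (p ^ 2)))

lemma ZA_intCast_surjective (p : ℕ) : Function.Surjective (Int.cast : ℤ → ZA p) :=
  ZMod.intCast_surjective (n := p ^ 2)

lemma ZA_intCast_eq_zero (p : ℕ) (z : ℤ) : (z : ZA p) = 0 ↔ (p : ℤ) ^ 2 ∣ z := by
  have := ZMod.intCast_zmod_eq_zero_iff_dvd z (p ^ 2)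
  push_cast at this
  exact this

variable (p : ℕ) [hp : Fact p.Prime]

/-- reduction modulo `p` -/
def red : ZA p →+* ZMod p := ZMod.castHom (dvd_pow_self p two_ne_zero) (ZMod p)

/-- multiplication by `p`, from `ZMod p` to `ZMod (p^2)` -/
def pm (y : ZMod p) : ZA p := (p : ZA p) * (y.val : ZA p)

variable {p}

omit hp in
lemma p_mul_p : (p : ZA p) * p = 0 := by
  have := (ZA_intCast_eq_zero p ((p : ℤ) ^ 2)).mpr dvd_rfl
  push_cast at this
  linear_combination this

lemma exists_of_red_eq_zero {x : ZA p} (h : red p x = 0) : ∃ z : ZA p, x = p * z := by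
  obtain ⟨k, rfl⟩ := ZA_intCast_surjective p x
  rw [map_intCast, ZMod.intCast_zmod_eq_zero_iff_dvd] at h
  obtain ⟨z, rfl⟩ := h
  exact ⟨z, by push_cast; ring⟩

lemma p_mul_eq_of_red_eq {x y : ZA p} (h : red p x = red p y) :
    (p : ZA p) * x = p * y := by
  obtain ⟨z, hz⟩ := exists_of_red_eq_zero (x := x - y) (by rw [map_sub, h, sub_self])
  have := p_mul_p (p := p)
  linear_combination (p : ZA p) * hz + z * this

lemma red_eq_of_p_mul_eq {x y : ZA p} (h : (p : ZA p) * x = p * y) :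
    red p x = red p y := by
  obtain ⟨a, rfl⟩ := ZA_intCast_surjective p x
  obtain ⟨b, rfl⟩ := ZA_intCast_surjective p y
  have h1 : (((p : ℤ) * (a - b) : ℤ) : ZA p) = 0 := by push_cast; linear_combination h
  rw [ZA_intCast_eq_zero] at h1
  rw [sq, mul_dvd_mul_iff_left (by exact_mod_cast hp.out.ne_zero)] at h1
  rw [map_intCast, map_intCast, ← sub_eq_zero, ← Int.cast_sub, ZMod.intCast_zmod_eq_zero_iff_dvd]
  exact h1

lemma red_val (y : ZMod p) : red p (y.val : ZA p) = y := by
  rw [map_natCast, ZMod.natCast_zmod_val]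

lemma pm_red (x : ZA p) : pm p (red p x) = p * x :=
  p_mul_eq_of_red_eq (red_val _)

lemma pm_int (z : ℤ) : pm p (z : ZMod p) = p * (z : ZA p) := by
  rw [← pm_red, map_intCast]

lemma pm_add (x y : ZMod p) : pm p (x + y) = pm p x + pm p y := by
  unfold pm
  rw [← mul_add]
  apply p_mul_eq_of_red_eq
  rw [map_add, red_val, red_val, red_val]

lemma mul_pm (x : ZA p) (y : ZMod p) : x * pm p y = pm p (red p x * y) := by
  unfold pm
  rw [mul_left_comm]
  apply p_mul_eq_of_red_eq
  rw [map_mul, red_val, red_val]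

lemma pm_zero : pm p 0 = 0 := by simp [pm]

lemma pm_neg (x : ZMod p) : pm p (-x) = - pm p x := by
  have := pm_add (p := p) x (-x)
  rw [add_neg_cancel, pm_zero] at this
  linear_combination -this

lemma pm_sub (x y : ZMod p) : pm p (x - y) = pm p x - pm p y := by
  rw [sub_eq_add_neg, pm_add, pm_neg, sub_eq_add_neg]

lemma pm_inj {x y : ZMod p} (h : pm p x = pm p y) : x = y := by
  have := red_eq_of_p_mul_eq h
  rwa [red_val, red_val] at this

lemma red_pm (x : ZMod p) : red p (pm p x) = 0 := by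
  unfold pm; rw [map_mul, map_natCast, ZMod.natCast_self, zero_mul]

lemma pm_mul_pm (x y : ZMod p) : pm p x * pm p y = 0 := by
  rw [mul_pm, red_pm, zero_mul, pm_zero]

lemma pm_sum {ι : Type*} (s : Finset ι) (f : ι → ZMod p) :
    pm p (∑ i ∈ s, f i) = ∑ i ∈ s, pm p (f i) := by
  classical
  induction s using Finset.induction_on with
  | empty => simp [pm_zero]
  | insert a s ha ih => rw [sum_insert ha, sum_insert ha, pm_add, ih]

lemma isUnit_of_red_ne_zero {x : ZA p} (h : red p x ≠ 0) : IsUnit x := by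
  obtain ⟨z, hz⟩ := exists_of_red_eq_zero (x := x * ((red p x)⁻¹.val : ZA p) - 1)
    (by rw [map_sub, map_mul, red_val, mul_inv_cancel₀ h, map_one, sub_self])
  have h2 := p_mul_p (p := p)
  refine IsUnit.of_mul_eq_one (((red p x)⁻¹.val : ZA p) * (1 - p * z)) ?_
  linear_combination (1 - p * z) * hz - z * z * h2

lemma one_add_pm_pow (y : ZMod p) (k : ℕ) : (1 + pm p y) ^ k = 1 + pm p (k * y) := by
  induction k with
  | zero => simp [pm_zero]
  | succ k ih =>
    rw [pow_succ, ih]
    push_cast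
    rw [add_mul (k : ZMod p), one_mul, pm_add]
    linear_combination pm_mul_pm ((k : ZMod p) * y) y

lemma pow_p_eq_of_red_eq {x y : ZA p} (h : red p x = red p y) : x ^ p = y ^ p := by
  obtain ⟨z, hz⟩ := exists_of_red_eq_zero (x := x - y) (by rw [map_sub, h, sub_self])
  have h1 : x = y + p * z := by linear_combination hz
  have h2 : ((p : ZA p) * z) ^ 2 = 0 := by
    linear_combination z ^ 2 * p_mul_p (p := p)
  have h3 := Polynomial.aeval_add_of_sq_eq_zero (R := ℤ) (Polynomial.X ^ p) y _ h2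
  simp only [map_pow, Polynomial.aeval_X, Polynomial.derivative_X_pow, map_mul] at h3
  rw [h1, h3]
  simp only [map_natCast]
  linear_combination y ^ (p - 1) * z * p_mul_p (p := p)

/-- Fermat quotients -/
lemma exists_fermat (a : ℤ) (ha : (a : ZMod p) ≠ 0) : ∃ q : ℤ, a ^ (p - 1) = 1 + p * q := by
  have h : ((a ^ (p - 1) - 1 : ℤ) : ZMod p) = 0 := by
    push_cast; rw [ZMod.pow_card_sub_one_eq_one ha, sub_self]
  rw [ZMod.intCast_zmod_eq_zero_iff_dvd] at h
  obtain ⟨q, hq⟩ := h
  exact ⟨q, by linear_combination hq⟩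

lemma fermat_A {a q : ℤ} (h : a ^ (p - 1) = 1 + p * q) :
    (a : ZA p) ^ (p - 1) = 1 + pm p (q : ZMod p) := by
  rw [pm_int]
  exact_mod_cast congrArg (Int.cast : ℤ → ZA p) h

end Pool.Agent.P.MP_7d0087_nt
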