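import Pool.Agent.P.MP_7d0087_nt.Star2
import Pool.Agent.P.MP_7d0087_nt.Lift

/-! The p-derivation of the Belyi map. -/

namespace Pool.Agent.P.MP_7d0087_nt

open Polynomial Finset

variable {p : ℕ} [hp : Fact p.Prime]

/-- reduction of integer polynomials -/
noncomputable abbrev rd (p : ℕ) (f : ℤ[X]) : (ZMod p)[X] := f.map (Int.castRingHom (ZMod p))

lemma rd_delta_deriv {f g : ℤ[X]} (h : f ^ p = expand ℤ p f + (p : ℤ[X]) * g) :
    X * derivative (rd p g) =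
      X * derivative (rd p f) * rd p f ^ (p - 1) - (X * derivative (rd p f)) ^ p := by
  have h1 := congrArg (rd p) (delta_deriv hp.out.ne_zero h)
  simp only [rd, Polynomial.map_mul, Polynomial.map_sub, Polynomial.map_pow, map_X,
    Polynomial.map_expand, ← derivative_map, ZMod.expand_card] at h1
  exact h1

lemma rd_delta_natDegree {e : ℕ} {f g : ℤ[X]} (hf : f.natDegree ≤ e)
    (h : f ^ p = expand ℤ p f + (p : ℤ[X]) * g) : (rd p g).natDegree ≤ e * p :=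
  natDegree_map_le.trans (delta_natDegree hp.out.ne_zero hf h)

lemma fermat_val {a z : ℤ} {y : ZMod p} (h : (p : ℤ) * z = a ^ p - a)
    (ha : (a : ZA p) ^ (p - 1) = 1 + pm p y) : (z : ZMod p) = a * y := by
  apply pm_inj
  have h1 := congrArg (Int.cast : ℤ → ZA p) h
  push_cast at h1
  have h2 : (a : ZA p) ^ p = a * (a : ZA p) ^ (p - 1) := by
    rw [← pow_succ', Nat.sub_add_cancel hp.out.pos]
  rw [pm_int, h1, h2, ha, ← map_intCast (red p) a, ← mul_pm]; ring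

lemma rd_delta_zero {f g : ℤ[X]} (h : f ^ p = expand ℤ p f + (p : ℤ[X]) * g) {a : ℤ}
    (ha0 : coeff f 0 = a) {y : ZMod p} (ha : (a : ZA p) ^ (p - 1) = 1 + pm p y) :
    coeff (rd p g) 0 = a * y := by
  rw [coeff_map, eq_intCast]
  refine fermat_val ?_ ha
  rw [← ha0]; exact delta_coeff_zero hp.out.ne_zero h

lemma rd_delta_top {e : ℕ} {f g : ℤ[X]} (hf : f.natDegree ≤ e)
    (h : f ^ p = expand ℤ p f + (p : ℤ[X]) * g) {a : ℤ}
    (ha0 : coeff f e = a) {y : ZMod p} (ha : (a : ZA p) ^ (p - 1) = 1 + pm p y) :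
    coeff (rd p g) (e * p) = a * y := by
  rw [coeff_map, eq_intCast]
  refine fermat_val ?_ ha
  rw [← ha0]; exact delta_coeff_top hp.out.ne_zero hf h

lemma fermat_mul {a b : ZA p} {x y : ZMod p} (ha : a ^ (p - 1) = 1 + pm p x)
    (hb : b ^ (p - 1) = 1 + pm p y) : (a * b) ^ (p - 1) = 1 + pm p (x + y) := by
  rw [mul_pow, ha, hb, pm_add]
  linear_combination pm_mul_pm x y

lemma fermat_pow {a : ZA p} {x : ZMod p} (ha : a ^ (p - 1) = 1 + pm p x) (k : ℕ) :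
    (a ^ k) ^ (p - 1) = 1 + pm p (k * x) := by
  rw [← pow_mul, mul_comm, pow_mul, ha, one_add_pm_pow]

lemma fermat_neg {a : ZA p} {x : ZMod p} (h5 : 5 < p) (ha : a ^ (p - 1) = 1 + pm p x) :
    (-a) ^ (p - 1) = 1 + pm p x := by
  rw [← ha]
  apply Even.neg_pow
  exact hp.out.even_sub_one (by omega)

/-- value of the p-derivation of `4X-1` at `1/4` -/
lemma delta_P1_quarter {d1 : ℤ[X]}
    (h1 : P1 ℤ ^ p = expand ℤ p (P1 ℤ) + (p : ℤ[X]) * d1) {q2 : ZMod p}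
    (hq : (2 : ZA p) ^ (p - 1) = 1 + pm p q2) (w : ZMod p) (hw : 4 * w = 1) :
    eval w (rd p d1) = 2 * q2 := by
  have hu : IsUnit (4 : ZA p) := by
    apply isUnit_of_red_ne_zero
    rw [map_ofNat]
    intro h; rw [h, zero_mul] at hw; exact zero_ne_one hw
  obtain ⟨v, hv⟩ := hu.exists_right_inv
  have hvw : red p v = w := by
    have := congrArg (red p) hv
    rw [map_mul, map_ofNat, map_one] at this
    linear_combination (-red p v) * hw + w * this
  have h2 := congrArg (aeval v) h1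
  rw [map_add, map_mul, map_pow, expand_aeval, map_natCast] at h2
  have h3 : ∀ t : ZA p, aeval t (P1 ℤ) = 4 * t - 1 := by
    intro t; unfold P1; simp [map_ofNat]
  rw [h3, h3, hv, sub_self, zero_pow hp.out.ne_zero] at h2
  have h4 : red p (aeval v d1) = eval w (rd p d1) := by
    rw [← hvw, aeval_def, eval_map, hom_eval₂]
    congr 1
    exact RingHom.ext_int _ _
  apply pm_inj
  rw [← h4, pm_red]
  have h5' := fermat_pow hq 2
  have h6 : (4 : ZA p) * (4 : ZA p) ^ (p - 1) * v ^ p = 1 := by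
    rw [← pow_succ', Nat.sub_add_cancel hp.out.pos, ← mul_pow, hv, one_pow]
  rw [show (2 : ZA p) ^ 2 = 4 by norm_num] at h5'
  rw [h5'] at h6
  have h7 : 4 * v ^ p * pm p ((2 : ℕ) * q2) = pm p (2 * q2) := by
    rw [mul_pm, map_mul, map_pow, map_ofNat, hvw, ZMod.pow_card, hw]
    simp
  linear_combination -h2 - h6 + h7

/-- the numerator of the logarithmic p-derivation of the Belyi map -/
noncomputable def Del (p : ℕ) (d1 d2 : ℤ[X]) (q5 : ZMod p) : (ZMod p)[X] :=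
  2 * rd p d1 * P2 (ZMod p) ^ p + 3 * rd p d2 * P1 (ZMod p) ^ p -
    C (5 * q5) * (P1 (ZMod p) * P2 (ZMod p)) ^ p

section
variable (h5 : 5 < p) {d1 d2 : ℤ[X]}
  (h1 : P1 ℤ ^ p = expand ℤ p (P1 ℤ) + (p : ℤ[X]) * d1)
  (h2 : P2 ℤ ^ p = expand ℤ p (P2 ℤ) + (p : ℤ[X]) * d2)
include h1 h2

lemma Del_deriv (q5 : ZMod p) : X * derivative (Del p d1 d2 q5) =
    (P1 (ZMod p) * P2 (ZMod p)) ^ (p - 1) * Uq (ZMod p) - Uq (ZMod p) ^ p := by
  have e1 := rd_delta_deriv h1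
  have e2 := rd_delta_deriv h2
  simp only [rd, map_P1, map_P2, dP1, dP2] at e1 e2
  have hU : Uq (ZMod p) = 2 * (X * 4) * P2 (ZMod p) + 3 * (X * 9) * P1 (ZMod p) -
      2 * (P1 (ZMod p) * P2 (ZMod p)) := by
    unfold P1 P2 Uq; ring
  have hUp : Uq (ZMod p) ^ p = 2 * (X * 4) ^ p * P2 (ZMod p) ^ p + 3 * (X * 9) ^ p * P1 (ZMod p) ^ p -
      2 * (P1 (ZMod p) * P2 (ZMod p)) ^ p := by
    simp only [← ZMod.expand_card]
    rw [hU]
    simp only [map_sub, map_add, map_mul, map_ofNat]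
  have hd : ∀ H : (ZMod p)[X], derivative (H ^ p) = 0 := by
    intro H; rw [derivative_pow]; simp
  have hp1 : ∀ H : (ZMod p)[X], H ^ p = H ^ (p - 1) * H := by
    intro H; rw [← pow_succ, Nat.sub_add_cancel hp.out.pos]
  unfold Del
  simp only [derivative_sub, derivative_add, derivative_mul, hd, derivative_C, derivative_ofNat, rd]
  rw [hUp, mul_pow, mul_pow (P1 _) (P2 _) (p - 1), hU, hp1 (P1 _), hp1 (P2 _)]
  rw [hp1 (P1 _)] at *
  linear_combination (2 * P2 (ZMod p) ^ (p - 1) * P2 (ZMod p)) * e1 +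
    (3 * P1 (ZMod p) ^ (p - 1) * P1 (ZMod p)) * e2

lemma Del_natDegree (q5 : ZMod p) : (Del p d1 d2 q5).natDegree ≤ 2 * p := by
  have e1 := rd_delta_natDegree (natDegree_P1 ℤ) h1
  have e2 := rd_delta_natDegree (natDegree_P2 ℤ) h2
  have e3 : (P1 (ZMod p) ^ p).natDegree ≤ p * 1 :=
    natDegree_pow_le.trans (Nat.mul_le_mul_left _ (natDegree_P1 _))
  have e4 : (P2 (ZMod p) ^ p).natDegree ≤ p * 1 :=
    natDegree_pow_le.trans (Nat.mul_le_mul_left _ (natDegree_P2 _))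
  have e5 : ((P1 (ZMod p) * P2 (ZMod p)) ^ p).natDegree ≤ p * 2 :=
    natDegree_pow_le.trans (Nat.mul_le_mul_left _ (natDegree_Q _))
  unfold Del
  refine (natDegree_sub_le _ _).trans (max_le ((natDegree_add_le _ _).trans (max_le ?_ ?_)) ?_)
  · rw [mul_assoc, ← C_ofNat]
    refine (natDegree_C_mul_le _ _).trans (natDegree_mul_le.trans (by omega))
  · rw [mul_assoc, ← C_ofNat]
    refine (natDegree_C_mul_le _ _).trans (natDegree_mul_le.trans (by omega))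
  · exact (natDegree_C_mul_le _ _).trans (by omega)

include h5

lemma Del_zero {q2 : ZMod p} (hq : (2 : ZA p) ^ (p - 1) = 1 + pm p q2) (q5 : ZMod p) :
    coeff (Del p d1 d2 q5) 0 = -24 * q2 + 20 * q5 := by
  have e1 := rd_delta_zero h1 (P1_c0 ℤ) (y := 0) (by
    rw [pm_zero]; push_cast
    rw [add_zero]; exact (hp.out.even_sub_one (by omega)).neg_one_pow)
  have e2 := rd_delta_zero h2 (P2_c0 ℤ) (y := (2 : ℕ) * q2) (by
    rw [← fermat_pow hq 2]; norm_num)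
  unfold Del
  simp only [coeff_sub, coeff_add, mul_coeff_zero, e1, e2, coeff_C_zero, coeff_ofNat_zero,
    ← ZMod.expand_card, coeff_expand hp.out.pos, dvd_zero, if_true, Nat.zero_div, P1_c0, P2_c0]
  push_cast; ring

omit h5 in
lemma Del_top {q2 q3 : ZMod p} (hq : (2 : ZA p) ^ (p - 1) = 1 + pm p q2)
    (hq3 : (3 : ZA p) ^ (p - 1) = 1 + pm p q3) (q5 : ZMod p) :
    coeff (Del p d1 d2 q5) (2 * p) = 144 * q2 + 216 * q3 - 180 * q5 := by
  have e1 := rd_delta_top (natDegree_P1 ℤ) h1 (P1_c1 ℤ) (y := (2 : ℕ) * q2) (by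
    rw [← fermat_pow hq 2]; norm_num)
  have e2 := rd_delta_top (natDegree_P2 ℤ) h2 (P2_c1 ℤ) (y := (2 : ℕ) * q3) (by
    rw [← fermat_pow hq3 2]; norm_num)
  have f1 := rd_delta_natDegree (natDegree_P1 ℤ) h1
  have f2 := rd_delta_natDegree (natDegree_P2 ℤ) h2
  have e3 : (P1 (ZMod p) ^ p).natDegree ≤ 1 * p :=
    natDegree_pow_le.trans (by rw [mul_comm]; exact Nat.mul_le_mul_right _ (natDegree_P1 _))
  have e4 : (P2 (ZMod p) ^ p).natDegree ≤ 1 * p :=
    natDegree_pow_le.trans (by rw [mul_comm]; exact Nat.mul_le_mul_right _ (natDegree_P2 _))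
  unfold Del
  rw [coeff_sub, coeff_add, mul_assoc, mul_assoc, ← C_ofNat 2, ← C_ofNat 3, coeff_C_mul,
    coeff_C_mul, coeff_C_mul, ← ZMod.expand_card (P1 _ * P2 _), coeff_expand_mul hp.out.pos, Q_c2,
    show 2 * p = 1 * p + 1 * p by ring, coeff_mul_add_eq_of_natDegree_le f1 e4,
    coeff_mul_add_eq_of_natDegree_le f2 e3, e1, e2, ← ZMod.expand_card, ← ZMod.expand_card,
    coeff_expand_mul hp.out.pos, coeff_expand_mul hp.out.pos, P1_c1, P2_c1]
  push_cast; ring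

omit h2 h5 in
lemma Del_quarter {q2 : ZMod p} (hq : (2 : ZA p) ^ (p - 1) = 1 + pm p q2) (q5 : ZMod p)
    (w : ZMod p) (hw : 4 * w = 1) : eval w (Del p d1 d2 q5) * 2 = 50 * q2 := by
  have e1 := delta_P1_quarter h1 hq w hw
  have hP1 : eval w (P1 (ZMod p)) = 0 := by unfold P1; simp [hw]
  have hP2 : eval w (P2 (ZMod p)) = 9 * w + 4 := by unfold P2; simp
  unfold Del
  simp only [eval_sub, eval_add, eval_mul, eval_pow, eval_C, hP1, hP2, e1, ZMod.pow_card, eval_ofNat]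
  linear_combination (18 * q2) * hw

lemma Del_dvd {q5 : ZMod p} (hq : (5 : ZA p) ^ (p - 1) = 1 + pm p q5) :
    P3 (ZMod p) * Uq (ZMod p) ∣ Del p d1 d2 q5 := by
  obtain ⟨dU, hU⟩ := exists_delta p (Uq ℤ)
  have hodd : Odd p := hp.out.odd_of_ne_two (by omega)
  obtain ⟨q, hq'⟩ : ∃ q : ℤ, (3125 : ℤ) ^ p - 3125 = p * q := by
    have h : (((3125 : ℤ) ^ p - 3125 : ℤ) : ZMod p) = 0 := by
      push_cast; rw [ZMod.pow_card, sub_self]
    rw [ZMod.intCast_zmod_eq_zero_iff_dvd] at h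
    exact h
  have hq'' : (q : ZMod p) = 3125 * (5 * q5) := by
    have := fermat_val (a := 3125) (y := ((5 : ℕ) : ZMod p) * q5) hq'.symm (by
      rw [← fermat_pow hq 5]; norm_num)
    rw [this]; push_cast; ring
  set a := expand ℤ p (P1 ℤ) with ha
  set b := expand ℤ p (P2 ℤ) with hb
  have hexp : expand ℤ p (P3 ℤ) * expand ℤ p (Uq ℤ) ^ 2 = a ^ 2 * b ^ 3 + 3125 * X ^ (2 * p) := by
    have := congrArg (expand ℤ p) (belyi ℤ)
    simp only [map_mul, map_pow, map_add] at this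
    rw [this]
    unfold Dd
    simp only [map_mul, map_pow, expand_X, map_ofNat]
    ring
  obtain ⟨e3, he3⟩ : P3 ℤ ∣ expand ℤ p (P3 ℤ) := by
    unfold P3
    simp only [map_add, expand_X, map_one]
    have := hodd.add_dvd_pow_add_pow (X : ℤ[X]) 1
    rwa [one_pow] at this
  obtain ⟨e4, he4⟩ : P3 ℤ * Uq ℤ ^ 2 ∣ (P1 ℤ ^ 2 * P2 ℤ ^ 3) ^ p + Dd ℤ ^ p := by
    rw [belyi]; exact hodd.add_dvd_pow_add_pow _ _
  have hD : Dd ℤ ^ p = (3125 + (p : ℤ[X]) * C q) * X ^ (2 * p) := by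
    rw [Dd_pow]
    congr 1
    rw [show (3125 : ℤ) ^ p = 3125 + p * q by linear_combination hq']
    simp
  obtain ⟨k, hk⟩ : ∃ k, p = k + 1 := ⟨p - 1, by omega⟩
  have hUp : Uq ℤ ^ p = Uq ℤ ^ k * Uq ℤ := by rw [hk, pow_succ]
  have hN : (P1 ℤ ^ 2 * P2 ℤ ^ 3) ^ p = (a + p * d1) ^ 2 * (b + p * d2) ^ 3 := by
    rw [← h1, ← h2]; ring
  have heU : expand ℤ p (Uq ℤ) = Uq ℤ ^ k * Uq ℤ - p * dU := by rw [← hUp, hU]; ring
  set Z := 2 * d1 * a * b ^ 3 + 3 * d2 * a ^ 2 * b ^ 2 + C q * X ^ (2 * p) +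
    (p : ℤ[X]) * (d1 ^ 2 * (b + (p : ℤ[X]) * d2) ^ 3 + 2 * a * d1 *
      (3 * b ^ 2 * d2 + 3 * b * (p : ℤ[X]) * d2 ^ 2 + (p : ℤ[X]) ^ 2 * d2 ^ 3)
      + a ^ 2 * (3 * b * d2 ^ 2 + (p : ℤ[X]) * d2 ^ 3) + P3 ℤ * e3 * dU ^ 2) with hZ
  set Y := Uq ℤ * e4 - e3 * (Uq ℤ ^ k * (Uq ℤ ^ k * Uq ℤ - 2 * (p : ℤ[X]) * dU)) with hY
  have hZY : (p : ℤ[X]) * Z = P3 ℤ * Uq ℤ * Y := by
    rw [hN, hD] at he4
    rw [he3, heU] at hexp
    rw [hZ, hY]
    linear_combination he4 + hexp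
  have hY0 : rd p Y = 0 := by
    have := congrArg (rd p) hZY
    simp only [rd, Polynomial.map_mul, Polynomial.map_natCast, map_P3, map_Uq] at this
    rw [← C_eq_natCast, ZMod.natCast_self, C_0, zero_mul] at this
    exact (mul_eq_zero.mp this.symm).resolve_left (squarefree_M h5).ne_zero
  obtain ⟨Y', hY'⟩ : C (p : ℤ) ∣ Y := by
    rw [C_dvd_iff_dvd_coeff]
    intro i
    have := congrArg (fun q => coeff q i) hY0
    simp only [coeff_map, coeff_zero, eq_intCast] at this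
    exact (ZMod.intCast_zmod_eq_zero_iff_dvd _ _).mp this
  have hZ2 : Z = P3 ℤ * Uq ℤ * Y' := by
    apply mul_left_cancel₀ (natCast_poly_ne_zero hp.out.ne_zero)
    rw [hZY, hY', C_eq_natCast]; ring
  have hZ3 := congrArg (rd p) hZ2
  rw [hZ, ha, hb] at hZ3
  have hp0 : (p : (ZMod p)[X]) = 0 := by rw [← C_eq_natCast, ZMod.natCast_self, C_0]
  have hCq : (C q).map (Int.castRingHom (ZMod p)) = C (3125 * (5 * q5)) := by
    rw [map_C, eq_intCast, hq'']
  simp only [rd, Polynomial.map_mul, Polynomial.map_add, Polynomial.map_pow,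
    Polynomial.map_natCast, map_P3, map_Uq, hp0, zero_mul, add_zero, Polynomial.map_expand,
    ZMod.expand_card, map_P1, map_P2, hCq, map_X, Polynomial.map_ofNat] at hZ3
  obtain ⟨e5, he5⟩ : P3 (ZMod p) * Uq (ZMod p) ^ 2 ∣
      (P1 (ZMod p) ^ 2 * P2 (ZMod p) ^ 3) ^ p + Dd (ZMod p) ^ p := by
    rw [belyi]; exact hodd.add_dvd_pow_add_pow _ _
  rw [Dd_pow, ZMod.pow_card] at he5
  have hdiv : P3 (ZMod p) * Uq (ZMod p) ∣
      (P1 (ZMod p) * P2 (ZMod p) ^ 2) ^ p * Del p d1 d2 q5 := by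
    refine ⟨rd p Y' - C (5 * q5) * Uq (ZMod p) * e5, ?_⟩
    unfold Del
    simp only [rd, map_mul] at hZ3 he5 ⊢
    linear_combination hZ3 - (C 5 * C q5) * he5
  have h5' := five_ne_zero' h5
  have h2' := two_ne_zero' h5
  have c1 : IsCoprime (P3 (ZMod p) * Uq (ZMod p)) (P1 (ZMod p)) := by
    refine IsCoprime.mul_left ?_ ?_
    · refine isCoprime_of_const (c := 5) (u := 4) (v := -1) h5' ?_
      unfold P1 P3; simp [map_ofNat]; ring
    · refine isCoprime_of_const (c := 5 ^ 2) (u := 2) (v := -(54 * X + 9)) (by positivity) ?_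
      unfold P1 Uq; simp [map_ofNat]; ring
  have c2 : IsCoprime (P3 (ZMod p) * Uq (ZMod p)) (P2 (ZMod p)) := by
    refine IsCoprime.mul_left ?_ ?_
    · refine isCoprime_of_const (c := 5) (u := 9) (v := -1) h5' ?_
      unfold P2 P3; simp [map_ofNat]; ring
    · refine isCoprime_of_const (c := 2 ^ 2 * 5 ^ 2) (u := 3) (v := -(36 * X - 19))
        (by positivity) ?_
      unfold P2 Uq; simp [map_ofNat]; ring
  exact ((c1.mul_right c2.pow_right).pow_right).dvd_of_dvd_mul_left hdiv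

end

end Pool.Agent.P.MP_7d0087_nt
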