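import Pool.Agent.P.MP_7d0087_nt.Sum

/-! Transfer from rationals to residues, and the final statements. -/

namespace Pool.Agent.P.MP_7d0087_nt

open Finset

variable {p : ℕ} [hp : Fact p.Prime]

/-- the rational `q` is `p`-integral and reduces to `a` -/
def Rel (q : ℚ) (a : ZA p) : Prop :=
  ∃ n d : ℤ, ¬ (p : ℤ) ∣ d ∧ q * d = n ∧ a * d = n

lemma primeZ : Prime (p : ℤ) := Nat.prime_iff_prime_int.mp hp.out

lemma Rel.int (z : ℤ) : Rel (p := p) (z : ℚ) (z : ZA p) :=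
  ⟨z, 1, primeZ.not_dvd_one, by simp, by simp⟩

lemma Rel.nat (z : ℕ) : Rel (p := p) (z : ℚ) (z : ZA p) := by
  simpa using Rel.int (p := p) z

lemma Rel.add {q₁ q₂ : ℚ} {a₁ a₂ : ZA p} (h₁ : Rel q₁ a₁) (h₂ : Rel q₂ a₂) :
    Rel (q₁ + q₂) (a₁ + a₂) := by
  obtain ⟨n₁, d₁, h, e, f⟩ := h₁
  obtain ⟨n₂, d₂, h', e', f'⟩ := h₂
  refine ⟨n₁ * d₂ + n₂ * d₁, d₁ * d₂, fun hd => (primeZ.dvd_or_dvd hd).elim h h', ?_, ?_⟩
  · push_cast; linear_combination (d₂ : ℚ) * e + (d₁ : ℚ) * e'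
  · push_cast; linear_combination (d₂ : ZA p) * f + (d₁ : ZA p) * f'

lemma Rel.mul {q₁ q₂ : ℚ} {a₁ a₂ : ZA p} (h₁ : Rel q₁ a₁) (h₂ : Rel q₂ a₂) :
    Rel (q₁ * q₂) (a₁ * a₂) := by
  obtain ⟨n₁, d₁, h, e, f⟩ := h₁
  obtain ⟨n₂, d₂, h', e', f'⟩ := h₂
  refine ⟨n₁ * n₂, d₁ * d₂, fun hd => (primeZ.dvd_or_dvd hd).elim h h', ?_, ?_⟩
  · push_cast; rw [← e, ← e']; ring
  · push_cast; rw [← f, ← f']; ring

lemma Rel.neg {q : ℚ} {a : ZA p} (h : Rel q a) : Rel (-q) (-a) := by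
  simpa using (Rel.int (p := p) (-1)).mul h

lemma Rel.sub {q₁ q₂ : ℚ} {a₁ a₂ : ZA p} (h₁ : Rel q₁ a₁) (h₂ : Rel q₂ a₂) :
    Rel (q₁ - q₂) (a₁ - a₂) := by
  simpa [sub_eq_add_neg] using h₁.add h₂.neg

lemma Rel.div {q : ℚ} {a b : ZA p} (h : Rel q a) {d : ℤ} (hd : ¬ (p : ℤ) ∣ d) (hb : b * d = a) :
    Rel (q / d) b := by
  obtain ⟨n₁, d₁, h, e, f⟩ := h
  have hd0 : (d : ℚ) ≠ 0 := by
    intro h0; apply hd; rw [Int.cast_eq_zero.mp h0]; exact dvd_zero _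
  refine ⟨n₁, d * d₁, fun hd' => (primeZ.dvd_or_dvd hd').elim hd h, ?_, ?_⟩
  · push_cast; rw [← e]; field_simp
  · push_cast; rw [← f, ← hb]; ring

lemma Rel.sum {ι : Type*} (s : Finset ι) {f : ι → ℚ} {g : ι → ZA p} (h : ∀ i ∈ s, Rel (f i) (g i)) :
    Rel (∑ i ∈ s, f i) (∑ i ∈ s, g i) := by
  classical
  induction s using Finset.induction_on with
  | empty => simpa using Rel.int (p := p) 0
  | insert a s ha ih =>
    rw [sum_insert ha, sum_insert ha]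
    exact (h a (mem_insert_self _ _)).add (ih fun i hi => h i (mem_insert_of_mem hi))

lemma Rel.prod {ι : Type*} (s : Finset ι) {f : ι → ℚ} {g : ι → ZA p}
    (h : ∀ i ∈ s, Rel (f i) (g i)) : Rel (∏ i ∈ s, f i) (∏ i ∈ s, g i) := by
  classical
  induction s using Finset.induction_on with
  | empty => simpa using Rel.int (p := p) 1
  | insert a s ha ih =>
    rw [prod_insert ha, prod_insert ha]
    exact (h a (mem_insert_self _ _)).mul (ih fun i hi => h i (mem_insert_of_mem hi))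

lemma num_mul_eq {q : ℚ} {n d : ℤ} (e : q * d = n) : q.num * d = n * q.den := by
  have h : (q.num : ℚ) * d = n * q.den := by
    rw [← e, ← Rat.mul_den_eq_num q]; ring
  exact_mod_cast h

lemma Rel.sq_dvd_iff {q : ℚ} {a : ZA p} (h : Rel q a) : (p : ℤ) ^ 2 ∣ q.num ↔ a = 0 := by
  obtain ⟨n, d, hd, e, f⟩ := h
  have h1 := num_mul_eq e
  constructor
  · intro h2
    have h3 : ¬ (p : ℤ) ∣ (q.den : ℤ) := by
      intro h4
      have h5 : (p : ℤ) ∣ q.num := (dvd_pow_self _ two_ne_zero).trans h2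
      have h6 : IsCoprime q.num (q.den : ℤ) := Int.isCoprime_iff_gcd_eq_one.mpr q.reduced
      exact primeZ.not_isUnit (h6.isUnit_of_dvd' h5 h4)
    have h4 := congrArg (Int.cast : ℤ → ZA p) h1
    rw [Int.cast_mul, Int.cast_mul, (ZA_intCast_eq_zero p _).mpr h2, zero_mul, ← f, mul_assoc] at h4
    exact ((isUnit_int hd).mul (isUnit_int h3)).mul_left_eq_zero.mp h4.symm
  · intro h2
    rw [h2, zero_mul, eq_comm, ZA_intCast_eq_zero] at f
    have h3 : (p : ℤ) ^ 2 ∣ q.num * d := by rw [h1]; exact f.mul_right _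
    exact primeZ.pow_dvd_of_dvd_mul_right 2 hd h3

lemma Rel.dvd_of_red {q : ℚ} {a : ZA p} (h : Rel q a) (h2 : red p a = 0) : (p : ℤ) ∣ q.num := by
  obtain ⟨n, d, hd, e, f⟩ := h
  have h1 := num_mul_eq e
  have h3 := congrArg (red p) f
  rw [map_mul, h2, zero_mul, map_intCast, eq_comm, ZMod.intCast_zmod_eq_zero_iff_dvd] at h3
  have h4 : (p : ℤ) ∣ q.num * d := by rw [h1]; exact h3.mul_right _
  exact (primeZ.dvd_or_dvd h4).resolve_right hd

lemma Rel.binom {q : ℚ} {a : ZA p} (h : Rel q a) {k : ℕ} (hk : k < p) :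
    Rel ((∏ j ∈ range k, (q - j)) / (k.factorial : ℚ)) (bA a k) := by
  have h1 := Rel.prod (range k) (f := fun j : ℕ => q - (j : ℚ)) (g := fun j : ℕ => a - (j : ZA p))
    fun j _ => h.sub (Rel.nat j)
  have := h1.div (b := bA a k) (not_dvd_factorial hk) (by push_cast; exact bA_mul a hk)
  simpa using this

omit hp in
lemma not_dvd_small (h5 : 5 < p) {d : ℕ} (h0 : 0 < d) (hd : d ≤ 5) : ¬ (p : ℤ) ∣ (d : ℤ) := by
  rw [Int.natCast_dvd_natCast]; intro h; have := Nat.le_of_dvd h0 h; omega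

/-- the rational sum -/
def SQ (p : ℕ) : ℚ := ∑ k ∈ range p, (∏ j ∈ range k, ((-1 / 2 : ℚ) - j)) / (k.factorial : ℚ) *
  ((∏ j ∈ range k, ((-1 / 3 : ℚ) - j)) / (k.factorial : ℚ)) / (-4) ^ k

lemma rel_S (h5 : 5 < p) {v t : ZA p} (hv : 4 * v = 1) (ht : 3 * t = 1) :
    Rel (SQ p) (SA v t) := by
  unfold SQ SA
  refine Rel.sum _ fun k hk => ?_
  rw [mem_range] at hk
  have r1 : Rel (p := p) (-1 / 2) (-(2 * v)) := by
    have := (Rel.int (p := p) (-1)).div (b := -(2 * v)) (not_dvd_small h5 (d := 2) (by norm_num)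
      (by norm_num)) (by push_cast; linear_combination -hv)
    simpa using this
  have r2 : Rel (p := p) (-1 / 3) (-t) := by
    have := (Rel.int (p := p) (-1)).div (b := -t) (not_dvd_small h5 (d := 3) (by norm_num)
      (by norm_num)) (by push_cast; linear_combination -ht)
    simpa using this
  have h4 : ¬ (p : ℤ) ∣ (-4) ^ k := fun h =>
    not_dvd_small h5 (d := 4) (by norm_num) (by norm_num) (by simpa using primeZ.dvd_of_dvd_pow h)
  have := ((r1.binom hk).mul (r2.binom hk)).div (b := bA (-(2 * v)) k * bA (-t) k * (-v) ^ k) h4 (by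
    push_cast
    rw [mul_assoc, ← mul_pow, show -v * -4 = 1 by linear_combination hv, one_pow, mul_one])
  simpa using this

lemma exists_inv (h5 : 5 < p) : ∃ v t : ZA p, 4 * v = 1 ∧ 3 * t = 1 := by
  obtain ⟨v, hv⟩ := (isUnit_int (not_dvd_small h5 (d := 4) (by norm_num) (by norm_num))).exists_right_inv
  obtain ⟨t, ht⟩ := (isUnit_int (not_dvd_small h5 (d := 3) (by norm_num) (by norm_num))).exists_right_inv
  exact ⟨v, t, by simpa using hv, by simpa using ht⟩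

lemma unit_root {u : ZA p} (hu : red p u ≠ 0) {s : ℤ} (h : u ^ 2 - s * u + p = 0) :
    ¬ (p : ℤ) ∣ s ∧ Rel ((s : ℚ) - p / s) u := by
  have h1 : red p u = s := by
    have := congrArg (red p) h
    rw [map_add, map_sub, map_mul, map_pow, map_natCast, map_intCast, ZMod.natCast_self, add_zero,
      map_zero] at this
    apply mul_left_cancel₀ hu
    linear_combination this
  have hs : ¬ (p : ℤ) ∣ s := by
    rw [← ZMod.intCast_zmod_eq_zero_iff_dvd, ← h1]; exact hu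
  refine ⟨hs, ?_⟩
  have h2 : (p : ZA p) * u = p * s := p_mul_eq_of_red_eq (by rw [h1, map_intCast])
  have h3 : ((s : ZA p) - u) * s = (p : ℕ) := by
    apply (isUnit_of_red_ne_zero hu).mul_left_cancel
    linear_combination (-(s : ZA p)) * h - h2
  have := (Rel.int (p := p) s).sub ((Rel.nat p).div hs h3)
  simpa using this

theorem main_one (h5 : 5 < p) (A B : ℤ) (h3 : p % 3 = 1) (hAB : (p : ℤ) = A ^ 2 + 3 * B ^ 2)
    (hA : A ≡ 1 [ZMOD 3]) (h : 5 ∣ A * B) :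
    (p : ℤ) ^ 2 ∣ (SQ p - jacobiSym p 5 * (2 * A - p / (2 * A))).num := by
  obtain ⟨v, t, hv, ht⟩ := exists_inv h5
  have hodd := hp.out.eq_two_or_odd.resolve_left (by omega)
  obtain ⟨r, hr⟩ : ∃ r, p = 6 * r + 1 := ⟨p / 6, by omega⟩
  have h1 := (unit_eq hr h5 A B hAB hA _ rfl).1 h
  have h2 := (unit_root (red_jac_ne_zero hr h5) (s := 2 * A) (by push_cast; exact h1)).2
  have h4 := (rel_S h5 hv ht).sub ((Rel.int (jacobiSym p 5)).mul h2)
  push_cast at h4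
  rw [h4.sq_dvd_iff, SA_eq hr h5 hv ht, tau_five hr h5, sub_self]

theorem main_two (h5 : 5 < p) (A B : ℤ) (h3 : p % 3 = 1) (hAB : (p : ℤ) = A ^ 2 + 3 * B ^ 2)
    (hA : A ≡ 1 [ZMOD 3]) (h : A ≡ -B [ZMOD 5] ∨ A ≡ -2 * B [ZMOD 5]) :
    (p : ℤ) ^ 2 ∣ (SQ p - -(jacobiSym p 5 * (A + 3 * B - p / (A + 3 * B)))).num ∧
    ¬ (p : ℤ) ^ 2 ∣ (SQ p - jacobiSym p 5 * (A + 3 * B - p / (A + 3 * B))).num := by
  obtain ⟨v, t, hv, ht⟩ := exists_inv h5
  have hodd := hp.out.eq_two_or_odd.resolve_left (by omega)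
  obtain ⟨r, hr⟩ : ∃ r, p = 6 * r + 1 := ⟨p / 6, by omega⟩
  have h1 := (unit_eq hr h5 A B hAB hA _ rfl).2 h
  have hne := red_jac_ne_zero hr h5
  have hS := SA_eq hr h5 hv ht
  generalize tau p 10 ^ (2 * r) *
      - ∑ x : ZMod p, tau p x ^ (4 * r) * tau p (1 - x) ^ (3 * r) = u at h1 hne hS
  have h2 := (unit_root (u := -u) (by rw [map_neg]; exact neg_ne_zero.mpr hne) (s := A + 3 * B)
    (by push_cast; linear_combination h1)).2
  have h4 := (rel_S h5 hv ht).sub ((Rel.int (jacobiSym p 5)).mul h2).neg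
  have h6 := (rel_S h5 hv ht).sub ((Rel.int (jacobiSym p 5)).mul h2)
  push_cast at h4 h6
  rw [h4.sq_dvd_iff, h6.sq_dvd_iff, hS, ← tau_five hr h5]
  refine ⟨by ring, fun h7 => ?_⟩
  have h8 := congrArg (red p) h7
  simp only [map_sub, map_mul, map_pow, red_tau, map_neg, map_zero] at h8
  have h9 : (2 : ZMod p) * 5 ^ (3 * r) * red p u = 0 := by linear_combination h8
  have := two_ne_zero' h5
  have := five_ne_zero' h5
  exact absurd h9 (by positivity)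

theorem main_three (h5 : 5 < p) (h3 : p % 3 = 2) : (p : ℤ) ∣ (SQ p).num := by
  obtain ⟨v, t, hv, ht⟩ := exists_inv h5
  have hodd := hp.out.eq_two_or_odd.resolve_left (by omega)
  obtain ⟨r, hr⟩ : ∃ r, p = 6 * r + 5 := ⟨p / 6, by omega⟩
  exact (rel_S h5 hv ht).dvd_of_red (red_SA_eq_zero hr h5 hv ht)

end Pool.Agent.P.MP_7d0087_nt
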