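import Pool.Agent.P.MP_7d0087_nt.Core

/-! The Jacobi sum modulo `p^2`. -/

namespace Pool.Agent.P.MP_7d0087_nt

open Polynomial Finset

variable {p : ℕ} [hp : Fact p.Prime]

/-- Teichmuller lift -/
def tau (p : ℕ) [Fact p.Prime] : ZMod p →* ZA p where
  toFun x := (x.val : ZA p) ^ p
  map_one' := by rw [ZMod.val_one]; simp
  map_mul' x y := by
    rw [← mul_pow]
    apply pow_p_eq_of_red_eq
    rw [map_mul, red_val, red_val, red_val]

lemma tau_apply (x : ZMod p) : tau p x = (x.val : ZA p) ^ p := rfl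

lemma tau_zero : tau p 0 = 0 := by rw [tau_apply]; simp [hp.out.ne_zero]

lemma red_tau (x : ZMod p) : red p (tau p x) = x := by
  rw [tau_apply, map_pow, red_val, ZMod.pow_card]

lemma tau_red (x : ZA p) : tau p (red p x) = x ^ p := by
  rw [tau_apply]; apply pow_p_eq_of_red_eq; rw [red_val]

lemma tau_pow_card (x : ZMod p) : tau p x ^ p = tau p x := by rw [← map_pow, ZMod.pow_card]

lemma sum_tau_pow (j : ℕ) (hj : 0 < j) :
    ∑ x : ZMod p, tau p x ^ j = if (p - 1) ∣ j then (p : ZA p) - 1 else 0 := by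
  split_ifs with h
  · obtain ⟨k, rfl⟩ := h
    have : ∀ x : ZMod p, tau p x ^ ((p - 1) * k) = 1 - if x = 0 then 1 else 0 := by
      intro x
      split_ifs with hx
      · rw [hx, tau_zero, zero_pow hj.ne', sub_self]
      · rw [pow_mul, ← map_pow, ZMod.pow_card_sub_one_eq_one hx, map_one, one_pow, sub_zero]
    simp [this, sum_sub_distrib, ZMod.card]
  · obtain ⟨g, hg⟩ := IsCyclic.exists_ofOrder_eq_natCard (α := (ZMod p)ˣ)
    rw [Nat.card_eq_fintype_card, ZMod.card_units] at hg
    have h1 : (g : ZMod p) ^ j ≠ 1 := by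
      intro h2
      apply h
      rw [← hg, orderOf_dvd_iff_pow_eq_one]
      ext; simpa using h2
    have hu : IsUnit (tau p g ^ j - 1) := by
      apply isUnit_of_red_ne_zero
      rw [map_sub, map_pow, red_tau, map_one, sub_ne_zero]; exact h1
    apply hu.mul_left_cancel
    rw [mul_zero, sub_mul, one_mul, mul_sum, sub_eq_zero]
    simp only [← mul_pow, ← map_mul]
    exact Equiv.sum_comp (Equiv.mulLeft₀ (g : ZMod p) g.ne_zero) (fun x => tau p x ^ j)

lemma sum_tau_eval {r : ℕ} (hr : p = 6 * r + 1) (hr0 : 0 < r) (f : (ZA p)[X])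
    (hf : f.natDegree < 14 * r) :
    ∑ x : ZMod p, tau p x ^ (4 * r) * eval (tau p x) f =
      ((p : ZA p) - 1) * (coeff f (2 * r) + coeff f (8 * r)) := by
  simp only [eval_eq_sum_range' hf, mul_sum]
  rw [sum_comm]
  have : ∀ i ∈ range (14 * r), ∑ x : ZMod p, tau p x ^ (4 * r) * (coeff f i * tau p x ^ i) =
      (if i = 2 * r then ((p : ZA p) - 1) * coeff f i else 0) +
        (if i = 8 * r then ((p : ZA p) - 1) * coeff f i else 0) := by
    intro i hi
    rw [mem_range] at hi
    have h1 : ∑ x : ZMod p, tau p x ^ (4 * r) * (coeff f i * tau p x ^ i) =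
        coeff f i * ∑ x : ZMod p, tau p x ^ (4 * r + i) := by
      rw [mul_sum]; refine sum_congr rfl fun x _ => by ring
    rw [h1, sum_tau_pow _ (by omega), show p - 1 = 6 * r by omega]
    by_cases h2 : i = 2 * r
    · rw [if_pos ⟨1, by omega⟩, if_pos h2, if_neg (by omega)]; ring
    by_cases h3 : i = 8 * r
    · rw [if_pos ⟨2, by omega⟩, if_neg h2, if_pos h3]; ring
    rw [if_neg h2, if_neg h3, if_neg]
    · ring
    · rintro ⟨k, hk⟩
      have h4 : k < 3 := by
        by_contra h5
        have : 6 * r * 3 ≤ 6 * r * k := Nat.mul_le_mul_left _ (by omega)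
        omega
      interval_cases k <;> omega
  rw [sum_congr rfl this, sum_add_distrib, sum_ite_eq', sum_ite_eq', if_pos (by simp; omega),
    if_pos (by simp; omega)]
  ring

lemma coeff_one_sub_X_pow {R : Type*} [CommRing R] (n i : ℕ) :
    coeff ((1 - X : R[X]) ^ n) i = (-1) ^ i * n.choose i := by
  have h : (1 - X : R[X]) ^ n = ((X + 1) ^ n).comp (C (-1) * X) := by
    simp [sub_eq_neg_add]
  rw [h, comp_C_mul_X_coeff, coeff_X_add_one_pow]; ring

lemma one_sub_X_pow_pred : (1 - X : (ZMod p)[X]) ^ (p - 1) = ∑ i ∈ range p, X ^ i := by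
  have h0 : (1 - X : (ZMod p)[X]) ≠ 0 := by
    intro h; have := congrArg (fun q => coeff q 0) h; simp at this
  apply mul_left_cancel₀ h0
  rw [mul_neg_geom_sum, ← pow_succ', Nat.sub_add_cancel hp.out.pos, sub_pow_char, one_pow]

lemma coeff_geom_mul {m : ℕ} (hm : m < p) (Y : (ZMod p)[X]) :
    coeff (X * derivative (1 - X : (ZMod p)[X]) * (1 - X) ^ (p - 1) * Y) m =
      - ∑ i ∈ range m, coeff Y i := by
  have h : X * derivative (1 - X : (ZMod p)[X]) * (1 - X) ^ (p - 1) * Y =
      - (X * (Y * (1 - X) ^ (p - 1))) := by simp; ring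
  rw [h, coeff_neg]
  congr 1
  cases m with
  | zero => simp
  | succ m =>
    rw [coeff_X_mul, coeff_mul, Finset.Nat.sum_antidiagonal_eq_sum_range_succ
      (fun i j => coeff Y i * coeff ((1 - X : (ZMod p)[X]) ^ (p - 1)) j)]
    refine sum_congr rfl fun i _ => ?_
    rw [one_sub_X_pow_pred, finsetSum_coeff]
    simp only [coeff_X_pow]
    rw [sum_ite_eq, if_pos (by rw [mem_range]; omega), mul_one]

lemma gamma_eq {r : ℕ} (hr : p = 6 * r + 1) (h5 : 5 < p) {d : ℤ[X]}
    (hd : (1 - X) ^ p = expand ℤ p (1 - X) + (p : ℤ[X]) * d) :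
    coeff (rd p d * (1 - X) ^ (3 * r - 1)) (2 * r) + coeff (rd p d * (1 - X) ^ (3 * r - 1)) (8 * r) =
      sNeg p r / 3 - 2 * sPos p r / 3 - 2 * ((3 * r).choose (2 * r) : ZMod p) := by
  have hr0 : 0 < r := by omega
  have n3 := three_ne_zero' h5
  have hrr : (6 * r + 1 : ZMod p) = 0 := by
    have : ((6 * r + 1 : ℕ) : ZMod p) = 0 := by rw [← hr]; simp
    exact_mod_cast this
  set F0 : (ZMod p)[X] := (1 - X) ^ (3 * r) with hF0
  set f : (ZMod p)[X] := (1 - X) ^ (3 * r - 1) with hf
  have hH : (1 - X : (ZMod p)[X]).natDegree ≤ 1 := by compute_degree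
  have hHz : (1 - X : ℤ[X]).natDegree ≤ 1 := by compute_degree
  have dF : F0.natDegree ≤ 3 * r :=
    natDegree_pow_le.trans (by simpa using Nat.mul_le_mul_left _ hH)
  have hFf : F0 = (1 - X) * f := by
    rw [hF0, hf, ← pow_succ', Nat.sub_add_cancel (by omega)]
  have hC : (6 * (r : (ZMod p)[X]) + 1) = 0 := by
    have := congrArg C hrr
    simpa [C_eq_natCast, map_ofNat] using this
  have hXf : X * f = 2 * th (2 * r) F0 + C (4 * (r : ZMod p)) * F0 := by
    unfold th
    rw [hF0, derivative_pow, ← hf, ← hF0]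
    simp only [map_mul, C_eq_natCast, map_ofNat, derivative_sub, derivative_one, derivative_X]
    push_cast
    linear_combination (X * f) * hC
  have hf2 : f = 2 * th (2 * r) F0 + C (4 * (r : ZMod p) + 1) * F0 := by
    rw [map_add, map_one]; linear_combination hXf - hFf
  have hv : coeff F0 (2 * r) = ((3 * r).choose (2 * r) : ZMod p) := by
    rw [hF0, coeff_one_sub_X_pow, pow_mul]; simp
  set I0 := integ (2 * r) F0 with hI0
  have dI : I0.natDegree ≤ 3 * r := (natDegree_integ _ _).trans dF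
  have hth : F0 = th (2 * r) I0 + C (coeff F0 (2 * r)) * X ^ (2 * r) := by
    rw [hI0, th_integ (by omega) _ (by omega)]; ring
  have hmid : coeff I0 (2 * r) = 0 := by rw [hI0, coeff_integ]; simp
  have hrd : rd p (1 - X) = 1 - X := by simp [rd]
  have e0 := rd_delta_zero hd (a := 1) (by simp) (y := 0) (by rw [pm_zero]; simp)
  have e1 := rd_delta_top hHz hd (a := -1) (by simp [coeff_one]) (y := 0) (by
    rw [pm_zero]; push_cast
    rw [add_zero]; exact (hp.out.even_sub_one (by omega)).neg_one_pow)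
  rw [mul_zero] at e0 e1
  have A : ∀ k, coeff (rd p d * F0) (2 * r + k * p) = coeff F0 (2 * r) * coeff (rd p d) (k * p) -
      coeff (X * derivative (1 - X) * (1 - X) ^ (p - 1) * I0) (2 * r + k * p) := by
    intro k
    conv_lhs => rw [hth]
    rw [mul_add, coeff_add, coeff_delta_th hd (by omega) _ (by omega), hmid, mul_left_comm (rd p d),
      coeff_C_mul, add_comm (2 * r) (k * p), coeff_mul_X_pow, hrd]
    ring
  have B := fun k => coeff_delta_th hd (m := 2 * r) (by omega) F0 (by omega) k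
  have H0 : (1 - X : (ZMod p)[X]) ≠ 0 := by
    intro h; have := congrArg (fun q => coeff q 0) h; simp at this
  have hHX : (1 - X : (ZMod p)[X]) = C (-1) * (X - C 1) := by simp
  obtain ⟨y, t0, t1⟩ := trace_lemma' (m := 2 * r) (by omega) (1 - X) F0 0 hH H0
    (by rw [C_0, zero_mul, sub_zero, hFf]; exact dvd_mul_right _ _) dF (by omega) (by omega)
  obtain ⟨z, s0, s1⟩ := trace_lemma' (m := 2 * r) (by omega) (1 - X) I0 (eval 1 I0) hH H0
    (by rw [hHX, C_mul_dvd (by simp), dvd_iff_isRoot]; simp) dI (by omega) (by omega)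
  have hneg : ∑ i ∈ range (2 * r), coeff I0 i = sNeg p r := by
    unfold sNeg
    refine sum_congr rfl fun i hi => ?_
    rw [mem_range] at hi
    rw [hI0, coeff_integ, hF0, coeff_one_sub_X_pow]
    have : (-1 : ZMod p) ^ (2 * r - i) = (-1) ^ i := by
      have h1 : (-1 : ZMod p) ^ (2 * r - i) * (-1) ^ i = 1 := by
        rw [← pow_add, Nat.sub_add_cancel hi.le, pow_mul]; simp
      have h2 : (-1 : ZMod p) ^ i * (-1) ^ i = 1 := by rw [← mul_pow]; simp
      linear_combination (-1) ^ i * h1 - (-1) ^ (2 * r - i) * h2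
    rw [this]; ring
  have hev : eval 1 I0 = sNeg p r + sPos p r := by
    rw [eval_eq_sum_range' (n := (2 * r + 1) + r) (by omega), sum_range_add, sum_range_succ, hmid]
    simp only [one_pow, mul_one, add_zero, hneg]
    congr 1
    unfold sPos
    refine sum_congr rfl fun j _ => ?_
    rw [hI0, coeff_integ, hF0, coeff_one_sub_X_pow, add_assoc, pow_add, pow_mul, add_comm 1 j,
      ← add_assoc, add_right_comm]
    push_cast
    rw [show (2 * r + 1 + j - 2 * r : ZMod p) = j + 1 by ring]
    simp; ring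
  have g0 := coeff_geom_mul (m := 2 * r) (by omega) I0
  rw [hneg] at g0
  have A0 := A 0
  have A1 := A 1
  have B0 := B 0
  have B1 := B 1
  have c0 : coeff (1 - X : (ZMod p)[X]) 0 = 1 := by simp
  have c1 : coeff (1 - X : (ZMod p)[X]) 1 = -1 := by simp [coeff_one]
  rw [hrd] at B0 B1
  rw [e1] at A1
  simp only [zero_mul, add_zero, e0, c0, c1, hev, hv, Nat.cast_zero, Nat.cast_one, mul_zero]
    at A0 A1 B0 B1 t0 t1 s0 s1
  have k1 : coeff (rd p d * f) (2 * r) = 2 * coeff (rd p d * th (2 * r) F0) (2 * r) +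
      (4 * r + 1) * coeff (rd p d * F0) (2 * r) := by
    conv_lhs => rw [hf2]
    rw [mul_add, coeff_add, mul_left_comm, mul_left_comm (rd p d), coeff_C_mul, ← C_ofNat,
      coeff_C_mul]
  have k2 : coeff (rd p d * f) (8 * r) = 2 * coeff (rd p d * th (2 * r) F0) (2 * r + 1 * p) +
      (4 * r) * coeff (rd p d * F0) (2 * r + 1 * p) := by
    rw [← coeff_X_mul, mul_left_comm, hXf, show 8 * r + 1 = 2 * r + 1 * p by omega,
      mul_add, coeff_add, mul_left_comm, mul_left_comm (rd p d), coeff_C_mul, ← C_ofNat,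
      coeff_C_mul]
  rw [k1, k2, A0, A1, B0, B1, s1, t1, t0, g0]
  have hz : z = - sNeg p r := by linear_combination g0 - s0
  rw [hz]
  field_simp
  linear_combination (2 * sPos p r + 2 * sNeg p r) * hrr

theorem jac_sum {r : ℕ} (hr : p = 6 * r + 1) (h5 : 5 < p) :
    ∑ x : ZMod p, tau p x ^ (4 * r) * tau p (1 - x) ^ (3 * r) =
      - (((3 * r).choose (2 * r) : ZA p) + pm p (sPos p r / 3 - sNeg p r / 6)) := by
  have hr0 : 0 < r := by omega
  obtain ⟨d, hd⟩ := exists_delta p (1 - X)
  have hHz : (1 - X : ℤ[X]).natDegree ≤ 1 := by compute_degree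
  have dd := delta_natDegree hp.out.ne_zero hHz hd
  set G : ℤ[X] := (1 - X) ^ (3 * r) + C (p * (3 * r) : ℤ) * (d * (1 - X) ^ (3 * r - 1)) with hG
  have h1 : ∀ x : ZMod p, tau p (1 - x) ^ (3 * r) =
      eval (tau p x) (G.map (Int.castRingHom (ZA p))) := by
    intro x
    have h2 : tau p (1 - x) = (1 - tau p x) ^ p := by
      rw [← tau_red, map_sub (red p), map_one (red p), red_tau]
    have h3 := congrArg (aeval (tau p x)) hd
    simp only [map_pow, map_sub, map_one, aeval_X, map_add, map_mul, map_natCast, expand_X,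
      tau_pow_card] at h3
    have h4 : ((p : ZA p) * aeval (tau p x) d) ^ 2 = 0 := by
      linear_combination (aeval (tau p x) d) ^ 2 * p_mul_p (p := p)
    have h5 := Polynomial.aeval_add_of_sq_eq_zero (R := ℤ) (X ^ (3 * r)) (1 - tau p x) _ h4
    simp only [map_pow, aeval_X, derivative_X_pow, map_mul, map_natCast] at h5
    rw [h2, h3, h5, eval_map, ← algebraMap_int_eq, ← aeval_def, hG]
    simp only [map_pow, map_sub, map_one, aeval_X, map_add, map_mul, map_natCast, map_ofNat]
    push_cast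
    ring
  simp only [h1]
  have dG : G.natDegree ≤ 9 * r := by
    have e1 : ((1 - X : ℤ[X]) ^ (3 * r)).natDegree ≤ 3 * r :=
      natDegree_pow_le.trans (by simpa using Nat.mul_le_mul_left _ hHz)
    have e2 : ((1 - X : ℤ[X]) ^ (3 * r - 1)).natDegree ≤ 3 * r - 1 :=
      natDegree_pow_le.trans (by simpa using Nat.mul_le_mul_left _ hHz)
    refine (natDegree_add_le _ _).trans (max_le (by omega) ?_)
    exact (natDegree_C_mul_le _ _).trans (natDegree_mul_le.trans (by omega))
  rw [sum_tau_eval hr hr0 _ (natDegree_map_le.trans_lt (by omega))]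
  have hc : ∀ k, coeff (G.map (Int.castRingHom (ZA p))) k = (-1) ^ k * (3 * r).choose k +
      pm p (3 * r * coeff (rd p d * (1 - X) ^ (3 * r - 1)) k) := by
    intro k
    have : rd p d * (1 - X) ^ (3 * r - 1) = rd p (d * (1 - X) ^ (3 * r - 1)) := by simp [rd]
    rw [this, coeff_map, coeff_map, hG, coeff_add, coeff_C_mul, coeff_one_sub_X_pow, eq_intCast,
      eq_intCast]
    have h6 := pm_int (p := p) (3 * r * coeff (d * (1 - X) ^ (3 * r - 1)) k)
    push_cast at h6 ⊢
    rw [h6]; ring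
  rw [hc, hc, Nat.choose_eq_zero_of_lt (show 3 * r < 8 * r by omega), pow_mul]
  have hg := gamma_eq hr h5 hd
  have hrr : (6 * r + 1 : ZMod p) = 0 := by
    have : ((6 * r + 1 : ℕ) : ZMod p) = 0 := by rw [← hr]; simp
    exact_mod_cast this
  have n2 := two_ne_zero' h5
  have n3 := three_ne_zero' h5
  have n6 : (6 : ZMod p) ≠ 0 := by
    rw [show (6 : ZMod p) = 2 * 3 by norm_num]; positivity
  generalize coeff (rd p d * (1 - X) ^ (3 * r - 1)) (2 * r) = a at hg
  generalize coeff (rd p d * (1 - X) ^ (3 * r - 1)) (8 * r) = b at hg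
  have k1 : sPos p r / 3 - sNeg p r / 6 =
      3 * r * a + 3 * r * b - ((3 * r).choose (2 * r) : ZMod p) := by
    rw [← mul_add, hg]
    field_simp
    linear_combination (6 * sPos p r - 3 * sNeg p r + 18 * ((3 * r).choose (2 * r) : ZMod p)) * hrr
  have k2 : pm p ((3 * r).choose (2 * r) : ZMod p) = p * ((3 * r).choose (2 * r) : ZA p) := by
    rw [← pm_red, map_natCast]
  have k3 : ∀ y, (p : ZA p) * pm p y = 0 := by
    intro y; rw [mul_pm, map_natCast, ZMod.natCast_self, zero_mul, pm_zero]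
  rw [k1, pm_sub, pm_add, k2]
  push_cast
  linear_combination k3 (3 * r * a) + k3 (3 * r * b)

end Pool.Agent.P.MP_7d0087_nt
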