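import Mathlib

/-! General polynomial lemmas: shifted Euler operator, p-derivation, coefficient locality. -/

namespace Pool.Agent.P.MP_7d0087_nt

open Polynomial Finset

section general
variable {R : Type*} [CommRing R]

/-- shifted Euler operator `X d/dX - m`. -/
noncomputable def th (m : ℕ) (f : R[X]) : R[X] := X * derivative f - (m : R[X]) * f

lemma coeff_X_mul_derivative (f : R[X]) (i : ℕ) :
    coeff (X * derivative f) i = (i : R) * coeff f i := by
  cases i with
  | zero => simp
  | succ i => rw [coeff_X_mul, coeff_derivative]; push_cast; ring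

lemma coeff_th (m : ℕ) (f : R[X]) (i : ℕ) :
    coeff (th m f) i = ((i : R) - m) * coeff f i := by
  unfold th
  rw [coeff_sub, coeff_X_mul_derivative, ← C_eq_natCast, coeff_C_mul]; ring

lemma th_mul (m : ℕ) (f g : R[X]) : th m (f * g) = X * derivative f * g + f * th m g := by
  unfold th; rw [derivative_mul]; ring

lemma th_add (m : ℕ) (f g : R[X]) : th m (f + g) = th m f + th m g := by
  unfold th; rw [derivative_add]; ring

lemma th_sub (m : ℕ) (f g : R[X]) : th m (f - g) = th m f - th m g := by
  unfold th; rw [derivative_sub]; ring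

lemma th_C_mul (m : ℕ) (c : R) (f : R[X]) : th m (C c * f) = C c * th m f := by
  unfold th; rw [derivative_C_mul]; ring

lemma th_sum {ι : Type*} (m : ℕ) (s : Finset ι) (f : ι → R[X]) :
    th m (∑ i ∈ s, f i) = ∑ i ∈ s, th m (f i) := by
  unfold th; rw [derivative_sum, mul_sum, mul_sum, ← sum_sub_distrib]

lemma th_X_pow_mul (m : ℕ) (f : R[X]) : th m (X ^ m * f) = X ^ m * (X * derivative f) := by
  rw [mul_comm (X ^ m) f, th_mul]
  have : th m (X ^ m : R[X]) = 0 := by
    ext i
    rw [coeff_th, coeff_X_pow]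
    split_ifs with h
    · simp [h]
    · simp
  rw [this]; ring

lemma map_th {S : Type*} [CommRing S] (φ : R →+* S) (m : ℕ) (f : R[X]) :
    (th m f).map φ = th m (f.map φ) := by
  unfold th
  simp [Polynomial.map_sub, Polynomial.map_mul, derivative_map]

/-- coefficient of a product with an expanded polynomial. -/
lemma coeff_mul_expand {p m : ℕ} (hm : m < p) (Y H : R[X]) (hY : Y.natDegree < m + p) (k : ℕ) :
    coeff (Y * expand R p H) (m + k * p) = coeff Y m * coeff H k := by
  induction H using Polynomial.induction_on' with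
  | add a b ha hb => rw [map_add, mul_add, coeff_add, ha, hb, coeff_add]; ring
  | monomial j a =>
    rw [expand_monomial, coeff_monomial, ← C_mul_X_pow_eq_monomial, ← mul_assoc,
      coeff_mul_X_pow', coeff_mul_C]
    by_cases hjk : j = k
    · subst hjk
      simp
    · rw [if_neg hjk, mul_zero]
      split_ifs with h
      · have hlt : j < k := by
          rcases lt_or_gt_of_ne hjk with h1 | h1
          · exact h1
          · exfalso
            have : (k + 1) * p ≤ j * p := Nat.mul_le_mul_right p h1
            nlinarith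
        have : (j + 1) * p ≤ k * p := Nat.mul_le_mul_right p hlt
        rw [coeff_eq_zero_of_natDegree_lt, zero_mul]
        have h2 : m + k * p - j * p ≥ m + p := by
          have : (j + 1) * p = j * p + p := by ring
          omega
        omega
      · rfl

/-- low locality -/
lemma coeff_mul_low (g f₁ f₂ : R[X]) (c : R) (m : ℕ) (hg : coeff g 0 = 0)
    (h : ∀ i < m, coeff f₁ i = c * coeff f₂ i) :
    coeff (g * f₁) m = c * coeff (g * f₂) m := by
  rw [coeff_mul, coeff_mul, mul_sum]
  refine sum_congr rfl fun x hx => ?_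
  rw [HasAntidiagonal.mem_antidiagonal] at hx
  rcases Nat.eq_zero_or_pos x.1 with h0 | h0
  · rw [h0, hg]; ring
  · rw [h x.2 (by omega)]; ring

/-- high locality -/
lemma coeff_mul_high (g f₁ f₂ : R[X]) (c : R) (m N : ℕ) (hg : g.natDegree ≤ N)
    (h : ∀ i, m < i → coeff f₁ i = c * coeff f₂ i) :
    coeff (g * f₁) (m + N) =
      c * coeff (g * f₂) (m + N) + coeff g N * (coeff f₁ m - c * coeff f₂ m) := by
  have key : coeff (g * (f₁ - C c * f₂)) (m + N) = coeff g N * (coeff f₁ m - c * coeff f₂ m) := by
    rw [coeff_mul, sum_eq_single (N, m)]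
    · simp
    · intro x hx hne
      rw [HasAntidiagonal.mem_antidiagonal] at hx
      rcases lt_trichotomy x.1 N with h1 | h1 | h1
      · rw [coeff_sub, coeff_C_mul, h x.2 (by omega)]; ring
      · exfalso; apply hne; ext
        · exact h1
        · simp; omega
      · rw [coeff_eq_zero_of_natDegree_lt (by omega)]; ring
    · intro hn; exfalso; apply hn; rw [HasAntidiagonal.mem_antidiagonal]; omega
  rw [mul_sub, coeff_sub, mul_left_comm, coeff_C_mul] at key
  linear_combination key

end general

section deriv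

/-- existence of the p-derivation of an integer polynomial -/
lemma exists_delta (p : ℕ) [hp : Fact p.Prime] (f : ℤ[X]) :
    ∃ g : ℤ[X], f ^ p = expand ℤ p f + (p : ℤ[X]) * g := by
  have h : (f ^ p - expand ℤ p f).map (Int.castRingHom (ZMod p)) = 0 := by
    rw [Polynomial.map_sub, Polynomial.map_pow, Polynomial.map_expand, ZMod.expand_card, sub_self]
  have h2 : C (p : ℤ) ∣ f ^ p - expand ℤ p f := by
    rw [C_dvd_iff_dvd_coeff]
    intro i
    have := congrArg (fun q => coeff q i) h
    simp only [coeff_map, coeff_zero, eq_intCast] at this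
    exact (ZMod.intCast_zmod_eq_zero_iff_dvd _ _).mp this
  obtain ⟨g, hg⟩ := h2
  refine ⟨g, ?_⟩
  rw [← C_eq_natCast]
  linear_combination hg

lemma natCast_poly_ne_zero {p : ℕ} (hp : p ≠ 0) : (p : ℤ[X]) ≠ 0 := by
  rw [← C_eq_natCast]
  exact C_ne_zero.mpr (by exact_mod_cast hp)

lemma delta_deriv {p : ℕ} (hp : p ≠ 0) {f g : ℤ[X]}
    (h : f ^ p = expand ℤ p f + (p : ℤ[X]) * g) :
    X * derivative g = X * derivative f * f ^ (p - 1) - expand ℤ p (X * derivative f) := by
  apply mul_left_cancel₀ (natCast_poly_ne_zero hp)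
  have h1 := congrArg derivative h
  rw [derivative_pow, derivative_add, derivative_expand, derivative_mul, derivative_natCast,
    zero_mul, zero_add, C_eq_natCast] at h1
  rw [map_mul, expand_X]
  obtain ⟨k, rfl⟩ : ∃ k, p = k + 1 := ⟨p - 1, by omega⟩
  simp only [Nat.add_sub_cancel] at h1 ⊢
  rw [pow_succ (X : ℤ[X]) k]
  linear_combination (-X) * h1

lemma delta_natDegree {p e : ℕ} (hp : p ≠ 0) {f g : ℤ[X]} (hf : f.natDegree ≤ e)
    (h : f ^ p = expand ℤ p f + (p : ℤ[X]) * g) : g.natDegree ≤ e * p := by
  have h1 : (p : ℤ[X]) * g = f ^ p - expand ℤ p f := by linear_combination -h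
  have h2 : ((p : ℤ[X]) * g).natDegree = g.natDegree := by
    rw [← C_eq_natCast]
    exact natDegree_C_mul (by exact_mod_cast hp)
  rw [← h2, h1]
  refine (natDegree_sub_le _ _).trans (max_le ?_ ?_)
  · refine natDegree_pow_le.trans ?_
    rw [mul_comm]; exact Nat.mul_le_mul_right _ hf
  · rw [natDegree_expand]; exact Nat.mul_le_mul_right _ hf

lemma delta_coeff_zero {p : ℕ} (hp : p ≠ 0) {f g : ℤ[X]}
    (h : f ^ p = expand ℤ p f + (p : ℤ[X]) * g) :
    (p : ℤ) * coeff g 0 = coeff f 0 ^ p - coeff f 0 := by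
  have h1 := congrArg (fun q => coeff q 0) h
  simp only [coeff_add] at h1
  rw [← C_eq_natCast, coeff_C_mul, coeff_zero_eq_eval_zero (f ^ p), eval_pow,
    ← coeff_zero_eq_eval_zero, coeff_expand (Nat.pos_of_ne_zero hp)] at h1
  simp at h1
  linear_combination -h1

lemma delta_coeff_top {p e : ℕ} (hp : p ≠ 0) {f g : ℤ[X]} (hf : f.natDegree ≤ e)
    (h : f ^ p = expand ℤ p f + (p : ℤ[X]) * g) :
    (p : ℤ) * coeff g (e * p) = coeff f e ^ p - coeff f e := by
  have h1 := congrArg (fun q => coeff q (e * p)) h
  simp only [coeff_add] at h1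
  rw [← C_eq_natCast, coeff_C_mul, coeff_expand_mul (Nat.pos_of_ne_zero hp), mul_comm e p,
    coeff_pow_of_natDegree_le hf] at h1
  rw [mul_comm e p]
  linear_combination -h1

end deriv

section charp
variable {p : ℕ} [hp : Fact p.Prime]

/-- formal integration against `th m` -/
noncomputable def integ (m : ℕ) (f : (ZMod p)[X]) : (ZMod p)[X] :=
  ∑ i ∈ range (f.natDegree + 1), monomial i (coeff f i / ((i : ZMod p) - m))

lemma coeff_integ (m : ℕ) (f : (ZMod p)[X]) (i : ℕ) :
    coeff (integ m f) i = coeff f i / ((i : ZMod p) - m) := by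
  unfold integ
  rw [finsetSum_coeff]
  simp only [coeff_monomial]
  rw [sum_ite_eq' (range (f.natDegree + 1)) i (fun j => coeff f j / ((j : ZMod p) - m))]
  split_ifs with h
  · rfl
  · rw [mem_range] at h
    rw [coeff_eq_zero_of_natDegree_lt (by omega), zero_div]

lemma natDegree_integ (m : ℕ) (f : (ZMod p)[X]) : (integ m f).natDegree ≤ f.natDegree := by
  rw [natDegree_le_iff_coeff_eq_zero]
  intro i hi
  rw [coeff_integ, coeff_eq_zero_of_natDegree_lt hi, zero_div]

lemma cast_sub_ne_zero {i m : ℕ} (hi : i < p) (hm : m < p) (h : i ≠ m) :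
    (i : ZMod p) - m ≠ 0 := by
  rw [sub_ne_zero]
  intro h1
  rw [ZMod.natCast_eq_natCast_iff'] at h1
  rw [Nat.mod_eq_of_lt hi, Nat.mod_eq_of_lt hm] at h1
  exact h h1

lemma th_integ {m : ℕ} (hm : m < p) (f : (ZMod p)[X]) (hf : f.natDegree < p) :
    th m (integ m f) = f - C (coeff f m) * X ^ m := by
  ext i
  rw [coeff_th, coeff_integ, coeff_sub, coeff_C_mul, coeff_X_pow]
  by_cases h : i = m
  · subst h; simp
  · rw [if_neg h]
    by_cases hi : i < p
    · have := cast_sub_ne_zero hi hm h
      field_simp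
      ring
    · rw [coeff_eq_zero_of_natDegree_lt (by omega)]; simp

lemma coeff_th_mp (m k : ℕ) (f : (ZMod p)[X]) : coeff (th m f) (m + k * p) = 0 := by
  rw [coeff_th]; push_cast; simp

lemma th_pow_mul (m : ℕ) (H f : (ZMod p)[X]) : th m (H ^ p * f) = H ^ p * th m f := by
  rw [th_mul, derivative_pow]; simp

/-- integration by parts at indices congruent to `m` -/
lemma coeff_mul_th (m k : ℕ) (g f : (ZMod p)[X]) :
    coeff (g * th m f) (m + k * p) = - coeff (X * derivative g * f) (m + k * p) := by
  have := coeff_th_mp m k (g * f)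
  rw [th_mul, coeff_add] at this
  linear_combination this

/-- trace lemma -/
lemma trace_lemma {m e : ℕ} (hm : m < p) (H f f' : (ZMod p)[X]) (s : ZMod p)
    (hH : H.natDegree ≤ e) (hf : f = C s * X ^ m + H * f')
    (hd : (X * derivative H * f').natDegree < m + p) :
    ∃ y : ZMod p, coeff (X * derivative H * H ^ (p - 1) * f) m = y * coeff H 0 ∧
      coeff (X * derivative H * H ^ (p - 1) * f) (m + e * p) =
        s * (e * coeff H e) + y * coeff H e := by
  have hp0 : 0 < p := hp.out.pos
  have hpow : H ^ (p - 1) * H = expand (ZMod p) p H := by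
    rw [← pow_succ, Nat.sub_add_cancel hp0, ZMod.expand_card]
  have hsplit : X * derivative H * H ^ (p - 1) * f =
      C s * ((X * derivative H * H ^ (p - 1)) * X ^ m) +
        (X * derivative H * f') * expand (ZMod p) p H := by
    rw [hf, ← hpow]; ring
  refine ⟨coeff (X * derivative H * f') m, ?_, ?_⟩
  · rw [hsplit, coeff_add, coeff_C_mul, coeff_mul_X_pow']
    have := coeff_mul_expand hm _ H hd 0
    simp only [zero_mul, add_zero] at this
    rw [this]
    simp [mul_assoc]
  · rw [hsplit, coeff_add, coeff_C_mul, add_comm m (e * p), coeff_mul_X_pow, add_comm (e * p) m,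
      coeff_mul_expand hm _ H hd e]
    congr 2
    have h1 : (X * derivative H).natDegree ≤ e := by
      rw [natDegree_le_iff_coeff_eq_zero]
      intro i hi
      rw [coeff_X_mul_derivative, coeff_eq_zero_of_natDegree_lt (by omega), mul_zero]
    have h2 : (H ^ (p - 1)).natDegree ≤ (p - 1) * e :=
      natDegree_pow_le.trans (Nat.mul_le_mul_left _ hH)
    have h3 : e * p = e + (p - 1) * e := by
      obtain ⟨k, rfl⟩ : ∃ k, p = k + 1 := ⟨p - 1, by omega⟩
      simp; ring
    rw [h3, coeff_mul_add_eq_of_natDegree_le h1 h2, coeff_X_mul_derivative,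
      coeff_pow_of_natDegree_le hH]
    by_cases h0 : coeff H e = 0
    · simp [h0]
    · rw [ZMod.pow_card_sub_one_eq_one h0, mul_one]

end charp

end Pool.Agent.P.MP_7d0087_nt
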