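import Mathlib

/-! Jacobi sums of a cubic and the quadratic character: norm, congruences, cubic reciprocity. -/

namespace Pool.Agent.P.MP_7d0087_nt

open Finset MulChar

section general
variable {F : Type*} [Field F] [Fintype F] [DecidableEq F]

/-- the quadratic character with values in `R` -/
noncomputable def qc (F : Type*) [Field F] [Fintype F] [DecidableEq F] (R : Type*) [CommRing R] :
    MulChar F R := (quadraticChar F).ringHomComp (Int.castRingHom R)

lemma qc_apply (R : Type*) [CommRing R] (x : F) : qc F R x = (quadraticChar F x : R) := rfl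

lemma qc_comp {R S : Type*} [CommRing R] [CommRing S] (f : R →+* S) :
    (qc F R).ringHomComp f = qc F S := by
  ext x; simp [qc_apply]

lemma jacobi_qc {R : Type*} [CommRing R] [IsDomain R] (hF : ringChar F ≠ 2) (χ : MulChar F R)
    (hχ : χ ≠ 1) : jacobiSum χ (qc F R) = χ 4 * jacobiSum χ χ := by
  have h2 : (2 : F) ≠ 0 := Ring.two_ne_zero hF
  have e1 : χ 4 * jacobiSum χ χ = ∑ y : F, χ (1 - y ^ 2) := by
    unfold jacobiSum
    rw [mul_sum, ← Equiv.sum_comp ((Equiv.mulLeft₀ (2 : F) h2).trans (Equiv.subRight 1))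
      (fun y => χ (1 - y ^ 2))]
    refine sum_congr rfl fun x _ => ?_
    rw [← map_mul, ← map_mul]
    congr 1
    simp; ring
  have e2 : ∑ y : F, χ (1 - y ^ 2) = ∑ w : F, ((quadraticChar F w : R) + 1) * χ (1 - w) := by
    rw [← Finset.sum_fiberwise (s := univ) (g := fun y : F => y ^ 2)]
    refine sum_congr rfl fun w _ => ?_
    rw [sum_congr rfl (g := fun _ => χ (1 - w)) (fun y hy => by rw [(mem_filter.mp hy).2]),
      sum_const, nsmul_eq_mul]
    congr 1
    have := quadraticChar_card_sqrts hF w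
    rw [Set.toFinset_ofPred] at this
    have h3 := congrArg (Int.cast : ℤ → R) this
    push_cast at h3
    exact h3
  have e3 : ∑ w : F, χ (1 - w) = 0 := by
    rw [← MulChar.sum_eq_zero_of_ne_one hχ]
    exact Equiv.sum_comp (Equiv.subLeft (1 : F)) (fun x => χ x)
  rw [e1, e2]
  simp only [add_mul, one_mul, sum_add_distrib, e3, add_zero]
  rw [jacobiSum_comm]
  rfl

omit [DecidableEq F] in
lemma recip_five {K : Type*} [Field K] [CharP K 5] (h5 : (5 : F) ≠ 0)
    (hc : (Fintype.card F : K) ^ 4 = 1) (χ : MulChar F K) (hχ : χ ≠ 1) (h3 : χ ^ 3 = 1)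
    (ψ : AddChar F K) (hψ : ψ.IsPrimitive) : jacobiSum χ χ ^ 8 = χ 5 := by
  have : Fact (Nat.Prime 5) := ⟨by norm_num⟩
  have hinv : χ * χ = χ⁻¹ := by
    rw [eq_inv_iff_mul_eq_one, ← h3]; simp [pow_succ]
  have hm1 : χ⁻¹ (-1) = 1 := by
    have h1 : (χ⁻¹ (-1)) ^ 3 = 1 := by
      rw [← pow_apply' _ (by norm_num), inv_pow, h3, inv_one, one_apply isUnit_one.neg]
    have h2 : (χ⁻¹ (-1)) ^ 2 = 1 := by rw [← map_pow]; simp
    linear_combination h1 - (χ⁻¹ (-1)) * h2
  have a1 := jacobiSum_mul_nontrivial (χ := χ) (φ := χ) (by rw [hinv]; exact inv_ne_one.mpr hχ) ψ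
  have a2 := gaussSum_mul_gaussSum_eq_card hχ hψ
  have a3 := mul_gaussSum_inv_eq_gaussSum χ⁻¹ ψ
  rw [hm1, one_mul] at a3
  rw [hinv] at a1
  rw [a3] at a2
  have g3 : gaussSum χ ψ ^ 3 = Fintype.card F * jacobiSum χ χ := by
    linear_combination (- gaussSum χ ψ) * a1 + jacobiSum χ χ * a2
  have hu : IsUnit (25 : F) := by
    rw [show (25 : F) = 5 ^ 2 by norm_num]; exact (pow_ne_zero _ h5).isUnit
  have g25 : gaussSum χ ψ ^ 25 = gaussSum χ (ψ.mulShift (25 : F)) := by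
    rw [show 25 = 5 * 5 by norm_num, pow_mul, gaussSum_frob, gaussSum_frob, ← pow_mul, ← pow_mul,
      AddChar.pow_mulShift]
    congr 1
    · rw [show 5 * 5 = 3 * 8 + 1 by norm_num, pow_succ, pow_mul, h3]; simp
  have g4 := gaussSum_mulShift χ ψ hu.unit
  rw [hu.unit_spec, ← g25] at g4
  have hc0 : (Fintype.card F : K) ≠ 0 := by
    intro h; rw [h] at hc; simp at hc
  have g0 := gaussSum_ne_zero_of_nontrivial hc0 hχ hψ
  have g5 : χ 25 * gaussSum χ ψ ^ 24 = 1 := by
    apply mul_right_cancel₀ g0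
    linear_combination g4
  have g6 : χ 25 * χ 5 = 1 := by
    rw [← map_mul, show (25 * 5 : F) = 5 ^ 3 by norm_num, map_pow, ← pow_apply' _ (by norm_num), h3,
      one_apply h5.isUnit]
  have g7 : gaussSum χ ψ ^ 24 = jacobiSum χ χ ^ 8 := by
    rw [show 24 = 3 * 8 by norm_num, pow_mul, g3, mul_pow, show 8 = 4 * 2 by norm_num, pow_mul,
      hc]
    simp
  rw [g7] at g5
  linear_combination (χ 5) * g5 - (jacobiSum χ χ ^ 8) * g6

lemma recip_ten {K : Type*} [Field K] [CharP K 5] (hF : ringChar F ≠ 2) (hF5 : ringChar F ≠ 5)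
    (hc : (Fintype.card F : K) ^ 4 = 1) (χ : MulChar F K) (hχ : χ ≠ 1) (h3 : χ ^ 3 = 1) :
    jacobiSum χ (qc F K) ^ 8 = χ 10 := by
  have hK : ringChar K ≠ ringChar F := by rw [ringChar.eq K 5]; exact hF5.symm
  have h5 : (5 : F) ≠ 0 := by
    intro h
    have : ((5 : ℕ) : F) = 0 := by exact_mod_cast h
    exact hF5 (CharP.ringChar_of_prime_eq_zero (by norm_num) this)
  have h2 : (2 : F) ≠ 0 := Ring.two_ne_zero hF
  let ψ := AddChar.FiniteField.primitiveChar F K hK
  let L := CyclotomicField ψ.n K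
  have hinj := (algebraMap K L).injective
  have : CharP L 5 := charP_of_injective_algebraMap hinj 5
  have h := recip_five (K := L) h5 (by rw [← map_natCast (algebraMap K L), ← map_pow, hc, map_one])
    (χ.ringHomComp (algebraMap K L)) ((MulChar.ringHomComp_ne_one_iff hinj).mpr hχ)
    (by rw [MulChar.ringHomComp_pow, h3, MulChar.ringHomComp_one]) ψ.char ψ.prim
  rw [jacobiSum_ringHomComp, ← map_pow, MulChar.ringHomComp_apply] at h
  have h' := hinj h
  have h6 : χ 2 ^ 3 = 1 := by rw [← pow_apply' _ (by norm_num), h3, one_apply h2.isUnit]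
  rw [jacobi_qc hF χ hχ, mul_pow, h', show (4 : F) = 2 ^ 2 by norm_num,
    show (10 : F) = 2 * 5 by norm_num, map_pow, map_mul]
  linear_combination (χ 5 * χ 2 * (χ 2 ^ 12 + χ 2 ^ 9 + χ 2 ^ 6 + χ 2 ^ 3 + 1)) * h6

end general

/-- Eisenstein integers -/
abbrev Eis : Type := QuadraticAlgebra ℤ (-1) (-1)

/-- evaluation at a primitive cube root of unity -/
noncomputable def evE {R : Type*} [CommRing R] (ζ : R) (h : ζ * ζ = -1 - ζ) : Eis →+* R :=
  (QuadraticAlgebra.lift (R := ℤ) (a := -1) (b := -1) ⟨ζ, by rw [h]; simp; ring⟩).toRingHom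

lemma evE_apply {R : Type*} [CommRing R] (ζ : R) (h : ζ * ζ = -1 - ζ) (z : Eis) :
    evE ζ h z = z.re + z.im * ζ := by
  simp [evE, QuadraticAlgebra.lift]

/-- the cube root of unity -/
def wE : Eis := ⟨0, 1⟩

lemma evE_w {R : Type*} [CommRing R] (ζ : R) (h : ζ * ζ = -1 - ζ) : evE ζ h wE = ζ := by
  rw [evE_apply]; simp [wE]

lemma wE_pow_three : wE ^ 3 = 1 := by decide

instance fact5 : Fact (Nat.Prime 5) := ⟨by norm_num⟩

instance factF25 : Fact (∀ r : ZMod 5, r ^ 2 ≠ -1 + -1 * r) := ⟨by decide⟩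

/-- the field with 25 elements -/
abbrev F25 : Type := QuadraticAlgebra (ZMod 5) (-1) (-1)

instance : CharP F25 5 :=
  charP_of_injective_algebraMap (algebraMap (ZMod 5) F25).injective 5

section jac
variable {p : ℕ} [hp : Fact p.Prime] {g : (ZMod p)ˣ} (hg : ∀ x, x ∈ Subgroup.zpowers g)
  (χ : MulChar (ZMod p) Eis) (hχ : χ g = wE) (h5 : 5 < p)
include hg hχ

lemma chi_cube : χ ^ 3 = 1 := by
  rw [MulChar.eq_iff hg, pow_apply' _ (by norm_num), hχ, wE_pow_three, one_apply_coe]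

lemma chi_val {x : ZMod p} (hx : x ≠ 0) : ∃ k : ℕ, x = (g : ZMod p) ^ k ∧ χ x = wE ^ k := by
  obtain ⟨k, hk⟩ := (Submonoid.mem_powers_iff _ _).mp
    (mem_powers_iff_mem_zpowers.mpr (hg (Units.mk0 x hx)))
  have : x = (g : ZMod p) ^ k := by
    have := congrArg Units.val hk
    simpa using this.symm
  exact ⟨k, this, by rw [this, map_pow, hχ]⟩

omit hg in
lemma comp_ne_one {R : Type*} [CommRing R] (ζ : R) (h : ζ * ζ = -1 - ζ) (h1 : ζ ≠ 1) :
    χ.ringHomComp (evE ζ h) ≠ 1 := by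
  intro h2
  have := congrArg (fun c : MulChar (ZMod p) R => c g) h2
  simp only [MulChar.ringHomComp_apply, hχ, evE_w, one_apply_coe] at this
  exact h1 this

include h5

lemma jac_norm : (jacobiSum χ (qc (ZMod p) Eis)).re ^ 2 -
    (jacobiSum χ (qc (ZMod p) Eis)).re * (jacobiSum χ (qc (ZMod p) Eis)).im +
    (jacobiSum χ (qc (ZMod p) Eis)).im ^ 2 = p := by
  obtain ⟨s, hs⟩ := IsAlgClosed.exists_eq_mul_self (-3 : ℂ)
  set ζ : ℂ := (-1 + s) / 2 with hζ
  have h : ζ * ζ = -1 - ζ := by rw [hζ]; linear_combination (-1 / 4 : ℂ) * hs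
  have h' : (-1 - ζ) * (-1 - ζ) = -1 - (-1 - ζ) := by linear_combination h
  have h1 : ζ ≠ 1 := by intro h1; rw [h1] at h; norm_num at h
  have hF : ringChar (ZMod p) ≠ 2 := by rw [ZMod.ringChar_zmod_n]; omega
  have hq2 : qc (ZMod p) ℂ * qc (ZMod p) ℂ = 1 := by
    rw [← sq]; exact ((quadraticChar_isQuadratic (ZMod p)).comp _).sq_eq_one
  have hq1 : qc (ZMod p) ℂ ≠ 1 :=
    (MulChar.ringHomComp_ne_one_iff (Int.castRingHom ℂ).injective_int).mpr (quadraticChar_ne_one hF)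
  have h3 : χ.ringHomComp (evE ζ h) ^ 3 = 1 := by
    rw [MulChar.ringHomComp_pow, chi_cube hg χ hχ, MulChar.ringHomComp_one]
  have hne := comp_ne_one χ hχ ζ h h1
  have hprod : χ.ringHomComp (evE ζ h) * qc (ZMod p) ℂ ≠ 1 := by
    intro h4
    apply hq1
    have h6 : (χ.ringHomComp (evE ζ h) * qc (ZMod p) ℂ) ^ 3 = 1 := by rw [h4, one_pow]
    rw [mul_pow, h3, one_mul, pow_succ, sq, hq2, one_mul] at h6
    exact h6
  have key := jacobiSum_mul_jacobiSum_inv
    (by rw [ZMod.ringChar_zmod_n, ringChar.eq_zero]; omega) hne hq1 hprod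
  have i1 : (χ.ringHomComp (evE ζ h))⁻¹ = χ.ringHomComp (evE (-1 - ζ) h') := by
    rw [inv_eq_iff_mul_eq_one, MulChar.eq_iff hg, MulChar.mul_apply, MulChar.ringHomComp_apply,
      MulChar.ringHomComp_apply, hχ, evE_w, evE_w, one_apply_coe]
    linear_combination -h
  have i2 : (qc (ZMod p) ℂ)⁻¹ = qc (ZMod p) ℂ := inv_eq_of_mul_eq_one_right hq2
  rw [i1, i2] at key
  conv_lhs at key =>
    congr
    · rw [← qc_comp (evE ζ h), jacobiSum_ringHomComp, evE_apply]
    · rw [← qc_comp (evE (-1 - ζ) h'), jacobiSum_ringHomComp, evE_apply]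
  rw [ZMod.card] at key
  have : (((jacobiSum χ (qc (ZMod p) Eis)).re ^ 2 -
    (jacobiSum χ (qc (ZMod p) Eis)).re * (jacobiSum χ (qc (ZMod p) Eis)).im +
    (jacobiSum χ (qc (ZMod p) Eis)).im ^ 2 : ℤ) : ℂ) = ((p : ℤ) : ℂ) := by
    push_cast
    linear_combination key + ((jacobiSum χ (qc (ZMod p) Eis)).im : ℂ) ^ 2 * h
  exact_mod_cast this

lemma jac_mod_three : (3 : ℤ) ∣ (jacobiSum χ (qc (ZMod p) Eis)).re +
    (jacobiSum χ (qc (ZMod p) Eis)).im + 1 := by
  have h : (1 : ZMod 3) * 1 = -1 - 1 := by decide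
  have hF : ringChar (ZMod p) ≠ 2 := by rw [ZMod.ringChar_zmod_n]; omega
  have e1 := jacobiSum_ringHomComp χ (qc (ZMod p) Eis) (evE 1 h)
  rw [evE_apply, qc_comp] at e1
  have e2 : χ.ringHomComp (evE 1 h) = 1 := by
    rw [MulChar.eq_iff hg, MulChar.ringHomComp_apply, hχ, evE_w, one_apply_coe]
  have e3 := jacobiSum_ringHomComp (1 : MulChar (ZMod p) ℤ) (quadraticChar (ZMod p))
    (Int.castRingHom (ZMod 3))
  rw [jacobiSum_one_nontrivial (quadraticChar_ne_one hF), MulChar.ringHomComp_one] at e3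
  rw [e2] at e1
  have e4 : jacobiSum 1 (qc (ZMod p) (ZMod 3)) = -1 := by
    rw [qc, e3]; simp
  rw [e4] at e1
  have := (ZMod.intCast_zmod_eq_zero_iff_dvd ((jacobiSum χ (qc (ZMod p) Eis)).re +
    (jacobiSum χ (qc (ZMod p) Eis)).im + 1) 3).mp (by push_cast; linear_combination -e1)
  exact_mod_cast this

omit h5 hg in
lemma jac_mod_two : (2 : ℤ) ∣ (jacobiSum χ (qc (ZMod p) Eis)).im := by
  have hs : ∑ x, χ x = 0 := by
    have h1 : (wE - 1) * ∑ x, χ x = 0 := by
      rw [sub_mul, one_mul, mul_sum, sub_eq_zero, ← hχ]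
      simp only [← map_mul]
      exact Equiv.sum_comp (Equiv.mulLeft₀ (g : ZMod p) g.ne_zero) (fun x => χ x)
    have h2 := congrArg QuadraticAlgebra.re h1
    have h3 := congrArg QuadraticAlgebra.im h1
    generalize ∑ x, χ x = z at h2 h3
    simp [wE, QuadraticAlgebra.re_one, QuadraticAlgebra.im_one] at h2 h3
    ext
    · simp; omega
    · simp; omega
  have h1 : (2 : Eis) ∣ jacobiSum χ (qc (ZMod p) Eis) + 1 := by
    have : jacobiSum χ (qc (ZMod p) Eis) + 1 =
        ∑ x, (χ x * (qc (ZMod p) Eis (1 - x) - 1) + if x = 1 then 1 else 0) := by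
      rw [sum_add_distrib]
      simp only [mul_sub, mul_one, sum_sub_distrib, hs, sub_zero]
      simp [jacobiSum]
    rw [this]
    refine dvd_sum fun x _ => ?_
    split_ifs with hx
    · rw [hx]; simp
    · rw [add_zero, qc_apply]
      rcases quadraticChar_dichotomy (sub_ne_zero.mpr (Ne.symm hx)) with h | h <;> rw [h]
      · simp
      · exact ⟨-χ x, by push_cast; ring⟩
  obtain ⟨z, hz⟩ := h1
  have := congrArg QuadraticAlgebra.im hz
  rw [two_mul] at this
  simp [QuadraticAlgebra.im_one] at this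
  exact ⟨z.im, by omega⟩

lemma jac_recip : ∃ j : ℕ, j < 3 ∧ χ 10 = wE ^ j ∧
    (⟨(jacobiSum χ (qc (ZMod p) Eis)).re, (jacobiSum χ (qc (ZMod p) Eis)).im⟩ : F25) ^ 8 =
      (⟨0, 1⟩ : F25) ^ j := by
  have h : (⟨0, 1⟩ : F25) * ⟨0, 1⟩ = -1 - ⟨0, 1⟩ := by decide
  have hF : ringChar (ZMod p) ≠ 2 := by rw [ZMod.ringChar_zmod_n]; omega
  have hF5 : ringChar (ZMod p) ≠ 5 := by rw [ZMod.ringChar_zmod_n]; omega
  have hp5 : (p : ZMod 5) ≠ 0 := by
    rw [Ne, ZMod.natCast_eq_zero_iff, Nat.prime_dvd_prime_iff_eq (by norm_num) hp.out]; omega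
  have key := recip_ten (K := F25) hF hF5 (by
      rw [ZMod.card, ← map_natCast (algebraMap (ZMod 5) F25), ← map_pow,
        ZMod.pow_card_sub_one_eq_one hp5, map_one])
    (χ.ringHomComp (evE _ h)) (comp_ne_one χ hχ _ h (by decide))
    (by rw [MulChar.ringHomComp_pow, chi_cube hg χ hχ, MulChar.ringHomComp_one])
  have h10 : (10 : ZMod p) ≠ 0 := by
    intro h1
    have : ((10 : ℕ) : ZMod p) = 0 := by exact_mod_cast h1
    rw [ZMod.natCast_eq_zero_iff, show 10 = 2 * 5 by norm_num, hp.out.dvd_mul] at this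
    rcases this with h2 | h2 <;> have := Nat.le_of_dvd (by norm_num) h2 <;> omega
  obtain ⟨k, -, hk⟩ := chi_val hg χ hχ h10
  have hk2 : wE ^ k = wE ^ (k % 3) := by
    conv_lhs => rw [← Nat.div_add_mod k 3, pow_add, pow_mul, wE_pow_three, one_pow, one_mul]
  refine ⟨k % 3, Nat.mod_lt _ (by norm_num), hk.trans hk2, ?_⟩
  rw [← qc_comp (evE _ h), jacobiSum_ringHomComp, MulChar.ringHomComp_apply, hk, hk2, map_pow,
    evE_w, evE_apply] at key
  rw [← key]
  congr 1
  ext <;> simp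

end jac

end Pool.Agent.P.MP_7d0087_nt
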