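import Pool.Agent.P.MP_7d0087_nt.Decomp

/-! The fundamental identity modulo `p` for `p = 6r+1`. -/

namespace Pool.Agent.P.MP_7d0087_nt

open Polynomial Finset

variable (p : ℕ) [hp : Fact p.Prime]

noncomputable def Dh (r : ℕ) : (ZMod p)[X] :=
  ∑ j ∈ range r, C (((3 * r).choose (2 * r + 1 + j) : ZMod p) / ((j : ZMod p) + 1)) *
    term (ZMod p) (r - 1) 2 3 j

noncomputable def Ineg (r : ℕ) : (ZMod p)[X] :=
  ∑ i ∈ range (2 * r), C (((3 * r).choose i : ZMod p) / ((i : ZMod p) - (2 * r : ℕ))) *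
    term (ZMod p) (3 * r) (2 * r + 1) 1 i

noncomputable def sPos (r : ℕ) : ZMod p :=
  ∑ j ∈ range r, ((3 * r).choose (2 * r + 1 + j) : ZMod p) / ((j : ZMod p) + 1) * (-1) ^ (j + 1)

noncomputable def sNeg (r : ℕ) : ZMod p :=
  ∑ i ∈ range (2 * r), ((3 * r).choose i : ZMod p) / ((i : ZMod p) - (2 * r : ℕ)) *
    (-1) ^ (2 * r - i)

noncomputable def Ih (r : ℕ) : (ZMod p)[X] := integ (2 * r) (Wp (ZMod p) (3 * r) (2 * r))

variable {p}

lemma th_Dh {r : ℕ} (hr : p = 6 * r + 1) : th (2 * r) (Dh p r) = Vpos (ZMod p) r := by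
  unfold Dh Vpos
  rw [th_sum]
  refine sum_congr rfl fun j hj => ?_
  rw [mem_range] at hj
  have hne : (j : ZMod p) + 1 ≠ 0 := by
    have := cast_sub_ne_zero (p := p) (i := j + 1) (m := 0) (by omega) (by omega) (by omega)
    simpa using this
  rw [th_C_mul, th_term_pos _ r j hj, ← mul_assoc (C _) (C _), ← C_mul, div_mul_cancel₀ _ hne]

lemma th_Ineg {r : ℕ} (hr : p = 6 * r + 1) : th (2 * r) (Ineg p r) = Vneg (ZMod p) r := by
  unfold Ineg Vneg
  rw [th_sum]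
  refine sum_congr rfl fun i hi => ?_
  rw [mem_range] at hi
  have hne : (i : ZMod p) - (2 * r : ℕ) ≠ 0 := cast_sub_ne_zero (by omega) (by omega) (by omega)
  rw [th_C_mul, th_term_charp (by omega) (by rw [show 3 * (2 * r) + 1 = p by omega]; simp)
    (by omega), ← mul_assoc (C _) (C _), ← C_mul, div_mul_cancel₀ _ hne]

lemma natDegree_Dh (r : ℕ) : (Dh p r).natDegree ≤ 5 * r := by
  unfold Dh
  refine natDegree_sum_le_of_forall_le _ _ fun j hj => ?_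
  rw [mem_range] at hj
  refine (natDegree_C_mul_le _ _).trans ?_
  have h1 := natDegree_term (R := ZMod p) (r - 1) 2 3 j
  omega

lemma natDegree_Ineg (r : ℕ) : (Ineg p r).natDegree ≤ 14 * r := by
  unfold Ineg
  refine natDegree_sum_le_of_forall_le _ _ fun j hj => ?_
  rw [mem_range] at hj
  refine (natDegree_C_mul_le _ _).trans ?_
  have h1 := natDegree_term (R := ZMod p) (3 * r) (2 * r + 1) 1 j
  omega

lemma natDegree_Ih (r : ℕ) : (Ih p r).natDegree ≤ 5 * r := by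
  unfold Ih
  refine (natDegree_integ _ _).trans ((natDegree_Wp _ _ _).trans (by omega))

lemma coeff_Ih_mid (r : ℕ) : coeff (Ih p r) (2 * r) = 0 := by
  unfold Ih; rw [coeff_integ]; simp

lemma th_Ih {r : ℕ} (hr : p = 6 * r + 1) : th (2 * r) (Ih p r) =
    Wp (ZMod p) (3 * r) (2 * r) - C (coeff (Wp (ZMod p) (3 * r) (2 * r)) (2 * r)) * X ^ (2 * r) := by
  unfold Ih
  have := natDegree_Wp (ZMod p) (3 * r) (2 * r)
  exact th_integ (by omega) _ (by omega)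

lemma coeff_Ineg_low (r k : ℕ) (hk : k ≤ 2 * r) : coeff (Ineg p r) k = 0 := by
  unfold Ineg
  rw [finsetSum_coeff]
  refine sum_eq_zero fun j hj => ?_
  rw [mem_range] at hj
  rw [coeff_C_mul, ← mul_one (term _ _ _ _ _), coeff_term_mul_low _ _ _ _ _ _ (by omega), mul_zero]

lemma P1_dvd_Ineg (r : ℕ) : P1 (ZMod p) ∣ Ineg p r := by
  unfold Ineg
  refine dvd_sum fun j _ => Dvd.dvd.mul_left ?_ _
  unfold term
  exact ((dvd_pow_self _ (by omega)).mul_right _).mul_right _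

lemma Q_dvd_Dh (r : ℕ) : P1 (ZMod p) * P2 (ZMod p) ∣ Dh p r := by
  unfold Dh
  refine dvd_sum fun j _ => Dvd.dvd.mul_left ?_ _
  unfold term
  exact (mul_dvd_mul (dvd_pow_self _ (by omega)) (dvd_pow_self _ (by omega))).mul_right _

lemma hom_Dh {B : Type*} [CommRing B] (φ : (ZMod p)[X] →+* B)
    (h : φ (P1 (ZMod p)) ^ 2 * φ (P2 (ZMod p)) ^ 3 = - φ (Dd (ZMod p))) (r : ℕ) :
    φ (Dh p r) = φ (C (sPos p r) * Dd (ZMod p) ^ r) := by
  unfold Dh sPos
  rw [map_sum C, sum_mul, map_sum, map_sum]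
  refine sum_congr rfl fun j hj => ?_
  rw [mem_range] at hj
  obtain ⟨k, rfl⟩ : ∃ k, r = j + 1 + k := ⟨r - (j + 1), by omega⟩
  unfold term
  rw [show j + 1 + k - 1 - j = k by omega]
  simp only [map_mul, map_pow, map_neg, map_one]
  have : φ (P1 (ZMod p)) ^ (2 * j + 2) * φ (P2 (ZMod p)) ^ (3 * j + 3) =
      (φ (P1 (ZMod p)) ^ 2 * φ (P2 (ZMod p)) ^ 3) ^ (j + 1) := by ring
  rw [this, h, neg_pow]; ring

lemma hom_Ineg {B : Type*} [CommRing B] (φ : (ZMod p)[X] →+* B)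
    (h : φ (P1 (ZMod p)) ^ 2 * φ (P2 (ZMod p)) ^ 3 = - φ (Dd (ZMod p))) (r : ℕ) :
    φ (Ineg p r) =
      φ (C (sNeg p r) * ((P1 (ZMod p) * P2 (ZMod p)) ^ (6 * r + 1) * Dd (ZMod p) ^ r)) := by
  unfold Ineg sNeg
  rw [map_sum C, sum_mul, map_sum, map_sum]
  refine sum_congr rfl fun i hi => ?_
  rw [mem_range] at hi
  obtain ⟨k, hk⟩ : ∃ k, 2 * r = i + k := ⟨2 * r - i, by omega⟩
  unfold term
  rw [show 3 * r - i = r + k by omega, show 2 * r - i = k by omega,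
    show 2 * i + (2 * r + 1) = 3 * i + k + 1 by omega, show 6 * r + 1 = 3 * i + 3 * k + 1 by omega]
  simp only [map_mul, map_pow, map_neg, map_one]
  have h' : φ (Dd (ZMod p)) = -(φ (P1 (ZMod p)) ^ 2 * φ (P2 (ZMod p)) ^ 3) := by rw [h]; ring
  rw [pow_add (φ (Dd (ZMod p))) r k]
  have : φ (Dd (ZMod p)) ^ k = (-1) ^ k * (φ (P1 (ZMod p)) ^ 2 * φ (P2 (ZMod p)) ^ 3) ^ k := by
    rw [h', neg_pow]
  rw [this]; ring

lemma mk_rel : (Ideal.Quotient.mk (Ideal.span {P3 (ZMod p) * Uq (ZMod p)})) (P1 (ZMod p)) ^ 2 *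
    (Ideal.Quotient.mk (Ideal.span {P3 (ZMod p) * Uq (ZMod p)})) (P2 (ZMod p)) ^ 3 =
    - (Ideal.Quotient.mk (Ideal.span {P3 (ZMod p) * Uq (ZMod p)})) (Dd (ZMod p)) := by
  rw [← map_pow, ← map_pow, ← map_mul, ← map_neg, Ideal.Quotient.mk_eq_mk_iff_sub_mem,
    Ideal.mem_span_singleton, sub_neg_eq_add, ← belyi]
  exact ⟨Uq (ZMod p), by ring⟩

lemma dvd_Dh (r : ℕ) : P3 (ZMod p) * Uq (ZMod p) ∣ Dh p r - C (sPos p r) * Dd (ZMod p) ^ r := by
  rw [← Ideal.mem_span_singleton, ← Ideal.Quotient.mk_eq_mk_iff_sub_mem]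
  exact hom_Dh _ mk_rel r

lemma dvd_Ineg (r : ℕ) : P3 (ZMod p) * Uq (ZMod p) ∣ Ineg p r -
    C (sNeg p r) * ((P1 (ZMod p) * P2 (ZMod p)) ^ (6 * r + 1) * Dd (ZMod p) ^ r) := by
  rw [← Ideal.mem_span_singleton, ← Ideal.Quotient.mk_eq_mk_iff_sub_mem]
  exact hom_Ineg _ mk_rel r

lemma isCoprime_of_const {a b u v : (ZMod p)[X]} {c : ZMod p} (hc : c ≠ 0)
    (h : u * a + v * b = C c) : IsCoprime a b := by
  refine ⟨C c⁻¹ * u, C c⁻¹ * v, ?_⟩
  rw [mul_assoc, mul_assoc, ← mul_add, h, ← C_mul, inv_mul_cancel₀ hc, C_1]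

lemma squarefree_M (h5 : 5 < p) : Squarefree (P3 (ZMod p) * Uq (ZMod p)) := by
  have h3 := three_ne_zero' h5
  have h5' := five_ne_zero' h5
  apply Polynomial.Separable.squarefree
  refine Polynomial.Separable.mul ?_ ?_ ?_
  · unfold Polynomial.Separable; rw [dP3]; exact isCoprime_one_right
  · unfold Polynomial.Separable; rw [dUq]
    refine isCoprime_of_const (c := 3 ^ 3 * 5 ^ 3) (u := 432) (v := -(216 * X - 9))
      (by positivity) ?_
    unfold Uq; simp [map_ofNat]; ring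
  · refine isCoprime_of_const (c := 5 ^ 3) (u := -(108 * X - 117)) (v := 1) (by positivity) ?_
    unfold Uq P3; simp [map_ofNat]; ring

lemma coprime_M_X (h5 : 5 < p) : IsCoprime (P3 (ZMod p) * Uq (ZMod p)) X := by
  have h2 := two_ne_zero' h5
  refine isCoprime_of_const (c := 2 ^ 3) (u := 1) (v := -(108 * X ^ 2 + 99 * X - 1))
    (by positivity) ?_
  unfold Uq P3; simp [map_ofNat]; ring

lemma natDegree_M (h5 : 5 < p) : (P3 (ZMod p) * Uq (ZMod p)).natDegree = 3 := by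
  have h2 := two_ne_zero' h5
  have h3 := three_ne_zero' h5
  have : P3 (ZMod p) * Uq (ZMod p) = C (2 ^ 2 * 3 ^ 3) * X ^ 3 + C 99 * X ^ 2 + C (-1) * X + C 8 := by
    unfold Uq P3; simp [map_ofNat]; ring
  rw [this]
  exact natDegree_cubic (by positivity)

end Pool.Agent.P.MP_7d0087_nt
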