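import Pool.Agent.P.MP_7d0087_nt.Star

/-! The fundamental identity modulo `p` and its consequences. -/

namespace Pool.Agent.P.MP_7d0087_nt

open Polynomial Finset

variable {p : ℕ} [hp : Fact p.Prime]

/-- the combination whose `th`-derivative vanishes -/
noncomputable def Eh (p : ℕ) [Fact p.Prime] (r : ℕ) (Δ : (ZMod p)[X]) : (ZMod p)[X] :=
  (P1 (ZMod p) * P2 (ZMod p)) ^ p * Dh p r + Ineg p r +
    C (((3 * r).choose (2 * r) : ZMod p) * 3125 ^ r) * (X ^ (2 * r) * Δ) - Uq (ZMod p) ^ p * Ih p r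

lemma th_Eh {r : ℕ} (hr : p = 6 * r + 1) (h5 : 5 < p) (Δ : (ZMod p)[X])
    (hΔ : X * derivative Δ = (P1 (ZMod p) * P2 (ZMod p)) ^ (p - 1) * Uq (ZMod p) - Uq (ZMod p) ^ p) :
    coeff (Wp (ZMod p) (3 * r) (2 * r)) (2 * r) = ((3 * r).choose (2 * r) : ZMod p) * 3125 ^ r ∧
      th (2 * r) (Eh p r Δ) = 0 := by
  have h : th (2 * r) (Eh p r Δ) = C (coeff (Wp (ZMod p) (3 * r) (2 * r)) (2 * r) -
      ((3 * r).choose (2 * r) : ZMod p) * 3125 ^ r) * (X ^ (2 * r) * Uq (ZMod p) ^ p) := by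
    unfold Eh
    rw [th_sub, th_add, th_add, th_pow_mul, th_pow_mul, th_C_mul, th_X_pow_mul, th_Dh hr,
      th_Ineg hr, th_Ih hr, hΔ]
    have hd := decomp (ZMod p) r
    rw [← hr, Dd_pow, show 6 * r = p - 1 by omega] at hd
    simp only [map_sub, map_mul] at hd ⊢
    linear_combination -hd
  have h2 := congrArg (fun q => coeff q (2 * r + 0 * p)) h
  simp only [coeff_th_mp, coeff_C_mul] at h2
  rw [← ZMod.expand_card, coeff_mul_expand (by omega) _ _ (by rw [natDegree_X_pow]; omega),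
    Uq_c0, coeff_X_pow_self] at h2
  have h8 : (1 * 8 : ZMod p) ≠ 0 := by
    have := two_ne_zero' h5
    rw [show (1 * 8 : ZMod p) = 2 ^ 3 by norm_num]; exact pow_ne_zero _ this
  have h3 := (mul_eq_zero.mp h2.symm).resolve_right h8
  refine ⟨sub_eq_zero.mp h3, ?_⟩
  rw [h, h3, C_0, zero_mul]

lemma natDegree_Eh {r : ℕ} (hr : p = 6 * r + 1) (Δ : (ZMod p)[X]) (hd : Δ.natDegree ≤ 2 * p) :
    (Eh p r Δ).natDegree < 2 * r + 3 * p := by
  unfold Eh
  have h1 : ((P1 (ZMod p) * P2 (ZMod p)) ^ p * Dh p r).natDegree ≤ p * 2 + 5 * r :=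
    natDegree_mul_le.trans (add_le_add (natDegree_pow_le.trans
      (Nat.mul_le_mul_left _ (natDegree_Q _))) (natDegree_Dh r))
  have h2 := natDegree_Ineg (p := p) r
  have h3 : (C (((3 * r).choose (2 * r) : ZMod p) * 3125 ^ r) * (X ^ (2 * r) * Δ)).natDegree ≤
      2 * r + 2 * p :=
    (natDegree_C_mul_le _ _).trans (natDegree_mul_le.trans (add_le_add (natDegree_X_pow_le _) hd))
  have h4 : (Uq (ZMod p) ^ p * Ih p r).natDegree ≤ p * 2 + 5 * r :=
    natDegree_mul_le.trans (add_le_add (natDegree_pow_le.trans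
      (Nat.mul_le_mul_left _ (natDegree_Uq _))) (natDegree_Ih r))
  have h5 := natDegree_sub_le ((P1 (ZMod p) * P2 (ZMod p)) ^ p * Dh p r + Ineg p r +
    C (((3 * r).choose (2 * r) : ZMod p) * 3125 ^ r) * (X ^ (2 * r) * Δ)) (Uq (ZMod p) ^ p * Ih p r)
  have h6 := natDegree_add_le ((P1 (ZMod p) * P2 (ZMod p)) ^ p * Dh p r + Ineg p r)
    (C (((3 * r).choose (2 * r) : ZMod p) * 3125 ^ r) * (X ^ (2 * r) * Δ))
  have h7 := natDegree_add_le ((P1 (ZMod p) * P2 (ZMod p)) ^ p * Dh p r) (Ineg p r)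
  omega

/-- the fundamental identity -/
lemma star {r : ℕ} (hr : p = 6 * r + 1) (h5 : 5 < p) (Δ : (ZMod p)[X])
    (hΔ : X * derivative Δ = (P1 (ZMod p) * P2 (ZMod p)) ^ (p - 1) * Uq (ZMod p) - Uq (ZMod p) ^ p)
    (hd : Δ.natDegree ≤ 2 * p) (hdvd : P3 (ZMod p) * Uq (ZMod p) ∣ Δ) :
    Eh p r Δ = X ^ (2 * r) * (C (3125 ^ r * (sPos p r + sNeg p r)) * (P1 (ZMod p) * P2 (ZMod p)) ^ p
      - C (eval (-1) (Ih p r)) * Uq (ZMod p) ^ p) := by
  have hE := eq_of_th_eq_zero (by omega) _ (th_Eh hr h5 Δ hΔ).2 (natDegree_Eh hr Δ hd)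
  set e := C (coeff (Eh p r Δ) (2 * r)) + C (coeff (Eh p r Δ) (2 * r + p)) * X +
    C (coeff (Eh p r Δ) (2 * r + 2 * p)) * X ^ 2 with he
  set c := 3125 ^ r * (sPos p r + sNeg p r) with hc
  set ι := eval (-1) (Ih p r) with hι
  set N := e - C c * (P1 (ZMod p) * P2 (ZMod p)) + C ι * Uq (ZMod p) with hN
  have hNp : N ^ p = e ^ p - C c * (P1 (ZMod p) * P2 (ZMod p)) ^ p + C ι * Uq (ZMod p) ^ p := by
    rw [hN, add_pow_char, sub_pow_char, mul_pow (C c), mul_pow (C ι), ← C_pow, ← C_pow,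
      ZMod.pow_card, ZMod.pow_card]
  have hp0 := hp.out.pos
  have hI : P3 (ZMod p) ∣ Ih p r - C ι * X ^ (2 * r) := by
    have : P3 (ZMod p) = X - C (-1) := by unfold P3; simp
    rw [this, dvd_iff_isRoot]
    simp [hι, pow_mul]
  have hdiv : P3 (ZMod p) * Uq (ZMod p) ∣ X ^ (2 * r) * N ^ p := by
    have h1 := dvd_Dh (p := p) r
    have h2 := dvd_Ineg (p := p) r
    rw [← hr] at h2
    rw [Dd_pow] at h1 h2
    have h3 : P3 (ZMod p) * Uq (ZMod p) ∣ (Ih p r - C ι * X ^ (2 * r)) * Uq (ZMod p) ^ p :=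
      mul_dvd_mul hI (dvd_pow_self _ hp0.ne')
    have h4 : X ^ (2 * r) * N ^ p = (P1 (ZMod p) * P2 (ZMod p)) ^ p *
        (Dh p r - C (sPos p r) * (C (3125 ^ r) * X ^ (2 * r))) +
        (Ineg p r - C (sNeg p r) * ((P1 (ZMod p) * P2 (ZMod p)) ^ p * (C (3125 ^ r) * X ^ (2 * r))))
        + C (((3 * r).choose (2 * r) : ZMod p) * 3125 ^ r) * X ^ (2 * r) * Δ
        - (Ih p r - C ι * X ^ (2 * r)) * Uq (ZMod p) ^ p := by
      rw [hNp, mul_add, mul_sub, ← hE, hc]
      unfold Eh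
      simp only [map_mul, map_add]
      ring
    rw [h4]
    exact dvd_sub (dvd_add (dvd_add (h1.mul_left _) h2) (hdvd.mul_left _)) h3
  have hdiv2 : P3 (ZMod p) * Uq (ZMod p) ∣ N ^ p :=
    ((coprime_M_X h5).pow_right (n := 2 * r)).dvd_of_dvd_mul_left hdiv
  have hdiv3 : P3 (ZMod p) * Uq (ZMod p) ∣ N := (squarefree_M h5).isRadical p N hdiv2
  have hNd : N.natDegree ≤ 2 := by
    have h1 : e.natDegree ≤ 2 := by rw [he]; compute_degree
    have h2 := (natDegree_C_mul_le c _).trans (natDegree_Q (ZMod p))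
    have h3 := (natDegree_C_mul_le ι _).trans (natDegree_Uq (ZMod p))
    have h4 := natDegree_add_le (e - C c * (P1 (ZMod p) * P2 (ZMod p))) (C ι * Uq (ZMod p))
    have h5 := natDegree_sub_le e (C c * (P1 (ZMod p) * P2 (ZMod p)))
    rw [hN]
    omega
  have hN0 : N = 0 := by
    by_contra hne
    have := natDegree_le_of_dvd hdiv3 hne
    rw [natDegree_M h5] at this
    omega
  rw [hN0, zero_pow hp0.ne'] at hNp
  rw [hE]
  congr 1
  linear_combination -hNp

lemma coeff_pow_mul {m : ℕ} (H Y : (ZMod p)[X]) (hm : m < p) (hY : Y.natDegree < m + p) (k : ℕ) :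
    coeff (H ^ p * Y) (m + k * p) = coeff Y m * coeff H k := by
  rw [← ZMod.expand_card, mul_comm, coeff_mul_expand hm _ _ hY]

section consequences
variable {r : ℕ} (hr : p = 6 * r + 1) (h5 : 5 < p) (Δ : (ZMod p)[X]) (hd : Δ.natDegree ≤ 2 * p)
  (c ι : ZMod p)
  (hE : Eh p r Δ = X ^ (2 * r) * (C c * (P1 (ZMod p) * P2 (ZMod p)) ^ p
      - C ι * Uq (ZMod p) ^ p))
include hr h5 hE

lemma Dh_low (i : ℕ) (hi : i < 2 * r) : coeff (Dh p r) i = -2 * coeff (Ih p r) i := by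
  have h := congrArg (fun q => coeff q (i + 0 * p)) hE
  have h1 := natDegree_Dh (p := p) r
  have h2 := natDegree_Ih (p := p) r
  unfold Eh at h
  simp only [coeff_sub, coeff_add, coeff_C_mul] at h
  rw [coeff_pow_mul _ _ (by omega) (by omega),
    coeff_pow_mul _ _ (by omega) (by omega), coeff_Ineg_low _ _ (by omega),
    coeff_X_pow_mul', coeff_X_pow_mul', if_neg (by omega), if_neg (by omega), Q_c0, Uq_c0] at h
  have h4 : (4 : ZMod p) ≠ 0 := by
    have := two_ne_zero' h5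
    rw [show (4 : ZMod p) = 2 ^ 2 by norm_num]; exact pow_ne_zero _ this
  apply mul_left_cancel₀ h4
  linear_combination -h

include hd in
lemma Dh_high (i : ℕ) (hi : 2 * r < i) : coeff (Dh p r) i = 3 * coeff (Ih p r) i := by
  have h1 := natDegree_Dh (p := p) r
  have h2 := natDegree_Ih (p := p) r
  by_cases hi2 : 5 * r < i
  · rw [coeff_eq_zero_of_natDegree_lt (by omega), coeff_eq_zero_of_natDegree_lt (by omega), mul_zero]
  have h := congrArg (fun q => coeff q (i + 2 * p)) hE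
  have h3 := natDegree_Ineg (p := p) r
  unfold Eh at h
  simp only [coeff_sub, coeff_add, coeff_C_mul] at h
  have h4 : (C c * (P1 (ZMod p) * P2 (ZMod p)) ^ p - C ι * Uq (ZMod p) ^ p).natDegree ≤ p * 2 :=
    (natDegree_sub_le _ _).trans (max_le
      ((natDegree_C_mul_le _ _).trans (natDegree_pow_le.trans
        (Nat.mul_le_mul_left _ (natDegree_Q _))))
      ((natDegree_C_mul_le _ _).trans (natDegree_pow_le.trans
        (Nat.mul_le_mul_left _ (natDegree_Uq _)))))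
  rw [coeff_pow_mul _ _ (by omega) (by omega),
    coeff_pow_mul _ _ (by omega) (by omega),
    coeff_eq_zero_of_natDegree_lt (p := Ineg p r) (by omega),
    coeff_X_pow_mul', coeff_X_pow_mul', if_pos (by omega), if_pos (by omega), Q_c2, Uq_c2,
    coeff_eq_zero_of_natDegree_lt (p := Δ) (by omega),
    coeff_eq_zero_of_natDegree_lt (n := i + 2 * p - 2 * r) (by omega)] at h
  have h36 : (36 : ZMod p) ≠ 0 := by
    have := two_ne_zero' h5
    have := three_ne_zero' h5
    rw [show (36 : ZMod p) = 2 ^ 2 * 3 ^ 2 by norm_num]; positivity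
  apply mul_left_cancel₀ h36
  linear_combination h

lemma rel_zero : -4 * coeff (Dh p r) (2 * r) +
    ((3 * r).choose (2 * r) : ZMod p) * 3125 ^ r * coeff Δ 0 = -4 * c - 8 * ι := by
  have h := congrArg (fun q => coeff q (2 * r + 0 * p)) hE
  have h1 := natDegree_Dh (p := p) r
  have h2 := natDegree_Ih (p := p) r
  unfold Eh at h
  simp only [coeff_sub, coeff_add, coeff_C_mul] at h
  rw [coeff_pow_mul _ _ (by omega) (by omega),
    coeff_pow_mul _ _ (by omega) (by omega), coeff_Ineg_low _ _ (by omega),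
    coeff_Ih_mid, add_comm (2 * r) (0 * p), coeff_X_pow_mul, coeff_X_pow_mul, coeff_sub,
    coeff_C_mul, coeff_C_mul, ← ZMod.expand_card, ← ZMod.expand_card,
    coeff_expand_mul hp.out.pos, coeff_expand_mul hp.out.pos, Q_c0, Uq_c0, zero_mul p] at h
  linear_combination h

lemma rel_top : 36 * coeff (Dh p r) (2 * r) +
    ((3 * r).choose (2 * r) : ZMod p) * 3125 ^ r * coeff Δ (2 * p) = 36 * c - 108 * ι := by
  have h := congrArg (fun q => coeff q (2 * r + 2 * p)) hE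
  have h1 := natDegree_Dh (p := p) r
  have h2 := natDegree_Ih (p := p) r
  have h3 := natDegree_Ineg (p := p) r
  unfold Eh at h
  simp only [coeff_sub, coeff_add, coeff_C_mul] at h
  rw [coeff_pow_mul _ _ (by omega) (by omega),
    coeff_pow_mul _ _ (by omega) (by omega),
    coeff_eq_zero_of_natDegree_lt (p := Ineg p r) (by omega),
    coeff_Ih_mid, add_comm (2 * r) (2 * p), coeff_X_pow_mul, coeff_X_pow_mul, coeff_sub,
    coeff_C_mul, coeff_C_mul, ← ZMod.expand_card, ← ZMod.expand_card,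
    coeff_expand_mul hp.out.pos, coeff_expand_mul hp.out.pos, Q_c2, Uq_c2] at h
  linear_combination h

omit hr in
lemma rel_quarter (w : ZMod p) (hw : 4 * w = 1) :
    2 * (((3 * r).choose (2 * r) : ZMod p) * 3125 ^ r * eval w Δ) -
      25 * (4 ^ (2 * r) * eval w (Ih p r)) = -25 * ι := by
  have h := congrArg (eval w) hE
  have hP1 : eval w (P1 (ZMod p)) = 0 := by unfold P1; simp [hw]
  have hU : 2 * eval w (Uq (ZMod p)) = 25 := by
    unfold Uq; simp
    have h2 := two_ne_zero' h5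
    have : (8 : ZMod p) ≠ 0 := by
      rw [show (8 : ZMod p) = 2 ^ 3 by norm_num]; exact pow_ne_zero _ h2
    apply mul_left_cancel₀ this
    linear_combination (432 * w + 72) * hw
  have hI : eval w (Ineg p r) = 0 := by
    obtain ⟨g, hg⟩ := P1_dvd_Ineg (p := p) r
    rw [hg, eval_mul, hP1, zero_mul]
  unfold Eh at h
  simp only [eval_sub, eval_add, eval_mul, eval_pow, eval_C, eval_X, hP1, hI, ZMod.pow_card] at h
  have hw2 : 4 ^ (2 * r) * w ^ (2 * r) = 1 := by rw [← mul_pow, hw, one_pow]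
  linear_combination (2 * 4 ^ (2 * r)) * h +
    (4 ^ (2 * r) * eval w (Ih p r) - ι) * hU -
    (2 * (((3 * r).choose (2 * r) : ZMod p) * 3125 ^ r * eval w Δ) +
      2 * ι * eval w (Uq (ZMod p))) * hw2

end consequences

end Pool.Agent.P.MP_7d0087_nt
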