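import Pool.Agent.P.MP_7d0087_nt.UnitRoot

/-! The truncated hypergeometric sum modulo `p^2`. -/

namespace Pool.Agent.P.MP_7d0087_nt

open Polynomial Finset

lemma coeff_Wp_diag {R : Type*} [CommRing R] {v : R} (hv : 4 * v = 1) (n m N : ℕ)
    (hN : n < N ∨ m < N) :
    coeff (Wp R n m) m = 4 ^ m * ∑ k ∈ range N, (n.choose k : R) * m.choose k * (-v) ^ k := by
  have h1 : ∀ j, coeff (P1 R ^ m) j = (-1) ^ m * ((-1) ^ j * m.choose j * 4 ^ j) := by
    intro j
    have : P1 R ^ m = C ((-1 : R) ^ m) * ((1 - X : R[X]) ^ m).comp (C 4 * X) := by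
      unfold P1
      simp only [map_pow, map_neg, map_one, pow_comp, sub_comp, one_comp, X_comp, ← mul_pow,
        map_ofNat]
      congr 1; ring
    rw [this, coeff_C_mul, comp_C_mul_X_coeff, coeff_one_sub_X_pow]
  have h2 : coeff (Wp R n m) m =
      4 ^ m * ∑ k ∈ range (m + 1), (n.choose k : R) * m.choose k * (-v) ^ k := by
    unfold Wp P3
    rw [coeff_mul, Finset.Nat.sum_antidiagonal_eq_sum_range_succ
      (fun i j => coeff ((X + 1 : R[X]) ^ n) i * coeff (P1 R ^ m) j), mul_sum]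
    refine sum_congr rfl fun k hk => ?_
    rw [mem_range] at hk
    obtain ⟨j, rfl⟩ : ∃ j, m = k + j := ⟨m - k, by omega⟩
    rw [coeff_X_add_one_pow, h1, Nat.add_sub_cancel_left, Nat.choose_symm_add]
    have h3 : (4 : R) ^ k * v ^ k = 1 := by rw [← mul_pow, hv, one_pow]
    have h4 : (-1 : R) ^ j * (-1) ^ j = 1 := by rw [← mul_pow]; simp
    rw [neg_pow v, pow_add, pow_add]
    linear_combination (n.choose k : R) * ((k + j).choose j) * 4 ^ j * (-1) ^ k * (h4 - h3)
  have h3 : ∀ M, min n m < M → ∑ k ∈ range M, (n.choose k : R) * m.choose k * (-v) ^ k =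
      ∑ k ∈ range (min n m + 1), (n.choose k : R) * m.choose k * (-v) ^ k := by
    intro M hM
    symm
    refine sum_subset (by intro k hk; rw [mem_range] at hk ⊢; omega) fun k _ hk => ?_
    rw [mem_range] at hk
    by_cases h : n < k
    · rw [Nat.choose_eq_zero_of_lt h]; simp
    · rw [Nat.choose_eq_zero_of_lt (show m < k by omega)]; simp
  rw [h2, h3 _ (by omega), h3 N (by omega)]

variable {p : ℕ} [hp : Fact p.Prime]

/-- generalized binomial coefficient modulo `p^2` -/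
noncomputable def bA (a : ZA p) (k : ℕ) : ZA p :=
  (∏ j ∈ range k, (a - j)) * Ring.inverse (k.factorial : ZA p)

lemma isUnit_int {d : ℤ} (hd : ¬ (p : ℤ) ∣ d) : IsUnit (d : ZA p) := by
  apply isUnit_of_red_ne_zero
  rwa [map_intCast, Ne, ZMod.intCast_zmod_eq_zero_iff_dvd]

lemma not_dvd_factorial {k : ℕ} (hk : k < p) : ¬ (p : ℤ) ∣ (k.factorial : ℤ) := by
  rw [Int.natCast_dvd_natCast, hp.out.dvd_factorial]; omega

lemma bA_mul (a : ZA p) {k : ℕ} (hk : k < p) :
    bA a k * k.factorial = ∏ j ∈ range k, (a - j) := by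
  have := isUnit_int (not_dvd_factorial hk)
  push_cast at this
  unfold bA
  rw [mul_assoc, Ring.inverse_mul_cancel _ this, mul_one]

lemma bA_eq (n : ℕ) (y : ZA p) {k : ℕ} (hk : k < p) :
    bA ((n : ZA p) + (p : ZA p) * y) k =
      (n.choose k : ZA p) + y * (((n + p).choose k : ZA p) - (n.choose k : ZA p)) ∧
      ∃ z : ZA p, (((n + p).choose k : ZA p) - n.choose k) = p * z := by
  have hu := isUnit_int (not_dvd_factorial hk)
  push_cast at hu
  have e : ∀ y : ZA p, (descPochhammer (ZA p) k).eval (n + p * y) =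
      (descPochhammer (ZA p) k).eval (n : ZA p) +
        (derivative (descPochhammer (ZA p) k)).eval (n : ZA p) * (p * y) := by
    intro y
    have := Polynomial.aeval_add_of_sq_eq_zero (R := ZA p) (descPochhammer (ZA p) k) (n : ZA p)
      ((p : ZA p) * y) (by linear_combination y ^ 2 * p_mul_p (p := p))
    simpa using this
  have e0 := descPochhammer_eval_eq_descFactorial (ZA p) n k
  have e1 := descPochhammer_eval_eq_descFactorial (ZA p) (n + p) k
  have e2 := e 1
  rw [Nat.descFactorial_eq_factorial_mul_choose] at e0 e1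
  push_cast at e0 e1
  rw [mul_one, e1, e0] at e2
  constructor
  · apply hu.mul_right_cancel
    rw [bA_mul _ hk, ← descPochhammer_eval_eq_prod_range, e y, e0]
    linear_combination (-y) * e2
  · obtain ⟨w, hw⟩ := hu.exists_left_inv
    refine ⟨w * (derivative (descPochhammer (ZA p) k)).eval (n : ZA p), ?_⟩
    linear_combination w * e2 - (((n + p).choose k : ZA p) - n.choose k) * hw

/-- the sum modulo `p^2` -/
noncomputable def SA (v t : ZA p) : ZA p :=
  ∑ k ∈ range p, bA (-(2 * v)) k * bA (-t) k * (-v) ^ k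

lemma red_SA_eq_zero {r : ℕ} (hr : p = 6 * r + 5) (h5 : 5 < p) {v t : ZA p} (hv : 4 * v = 1)
    (ht : 3 * t = 1) : red p (SA v t) = 0 := by
  have hp' : (p : ZA p) = 6 * r + 5 := by rw [hr]; push_cast; ring
  have a1 : -(2 * v) = ((3 * r + 2 : ℕ) : ZA p) + p * (-(2 * v)) := by
    push_cast; rw [hp']; linear_combination (3 * r + 2) * hv
  have a2 : -t = ((4 * r + 3 : ℕ) : ZA p) + p * (-(2 * t)) := by
    push_cast; rw [hp']; linear_combination (4 * r + 3) * ht
  have hv' : 4 * red p v = 1 := by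
    have := congrArg (red p) hv
    rwa [map_mul, map_ofNat, map_one] at this
  have h := coeff_Wp_diag hv' (3 * r + 2) (4 * r + 3) p (by omega)
  rw [coeff_Wp_eq_zero r hr h5] at h
  have h4 : (4 : ZMod p) ^ (4 * r + 3) ≠ 0 := by
    apply pow_ne_zero; intro h0; rw [h0, zero_mul] at hv'; exact zero_ne_one hv'
  rw [← (mul_eq_zero.mp h.symm).resolve_left h4]
  unfold SA
  rw [map_sum]
  refine sum_congr rfl fun k hk => ?_
  rw [mem_range] at hk
  obtain ⟨b1, z1, c1⟩ := bA_eq (3 * r + 2) (-(2 * v)) hk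
  obtain ⟨b2, z2, c2⟩ := bA_eq (4 * r + 3) (-(2 * t)) hk
  rw [← a1, c1] at b1
  rw [← a2, c2] at b2
  rw [b1, b2]
  simp

lemma SA_eq {r : ℕ} (hr : p = 6 * r + 1) (h5 : 5 < p) {v t : ZA p} (hv : 4 * v = 1)
    (ht : 3 * t = 1) : SA v t = tau p 5 ^ (3 * r) * (tau p 10 ^ (2 * r) *
      - ∑ x : ZMod p, tau p x ^ (4 * r) * tau p (1 - x) ^ (3 * r)) := by
  have n2 := two_ne_zero' h5
  have n3 := three_ne_zero' h5
  have n5 := five_ne_zero' h5
  have hp' : (p : ZA p) = 6 * r + 1 := by rw [hr]; push_cast; ring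
  have hrr : (6 * r + 1 : ZMod p) = 0 := by
    have : ((6 * r + 1 : ℕ) : ZMod p) = 0 := by rw [← hr]; simp
    exact_mod_cast this
  have a1 : -(2 * v) = ((3 * r : ℕ) : ZA p) + p * (-(2 * v)) := by
    push_cast; rw [hp']; linear_combination (3 * r) * hv
  have a2 : -t = ((2 * r : ℕ) : ZA p) + p * (-t) := by
    push_cast; rw [hp']; linear_combination (2 * r) * ht
  obtain ⟨d1, h1⟩ := exists_delta p (P1 ℤ)
  obtain ⟨d3, h3⟩ := exists_delta p (P3 ℤ)
  obtain ⟨q2', hq2'⟩ := exists_fermat (p := p) 2 (by exact_mod_cast n2)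
  obtain ⟨q5', hq5'⟩ := exists_fermat (p := p) 5 (by exact_mod_cast n5)
  have hq2 := fermat_A hq2'
  have hq5 := fermat_A hq5'
  generalize (q2' : ZMod p) = q2 at hq2
  generalize (q5' : ZMod p) = q5 at hq5
  push_cast at hq2 hq5
  have hc := core hr h5 h1 h3 hq2 hq5
  rw [jac_sum hr h5, neg_neg]
  -- expansion of the sum
  have s0 := coeff_Wp_diag hv (3 * r) (2 * r) p (by omega)
  have s1 := coeff_Wp_diag hv (3 * r + p) (2 * r) p (by omega)
  have s2 := coeff_Wp_diag hv (3 * r) (2 * r + p) p (by omega)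
  have hS : SA v t = (1 + 2 * v + t) *
      ∑ k ∈ range p, ((3 * r).choose k : ZA p) * (2 * r).choose k * (-v) ^ k -
      2 * v * ∑ k ∈ range p, ((3 * r + p).choose k : ZA p) * (2 * r).choose k * (-v) ^ k -
      t * ∑ k ∈ range p, ((3 * r).choose k : ZA p) * (2 * r + p).choose k * (-v) ^ k := by
    unfold SA
    rw [mul_sum, mul_sum, mul_sum, ← sum_sub_distrib, ← sum_sub_distrib]
    refine sum_congr rfl fun k hk => ?_
    rw [mem_range] at hk
    obtain ⟨b1, z1, c1⟩ := bA_eq (3 * r) (-(2 * v)) hk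
    obtain ⟨b2, z2, c2⟩ := bA_eq (2 * r) (-t) hk
    rw [← a1] at b1
    rw [← a2] at b2
    have c3 : (((3 * r + p).choose k : ZA p) - (3 * r).choose k) *
        (((2 * r + p).choose k : ZA p) - (2 * r).choose k) = 0 := by
      rw [c1, c2]; linear_combination z1 * z2 * p_mul_p (p := p)
    rw [b1, b2]
    linear_combination (2 * v * t * (-v) ^ k) * c3
  have dW := natDegree_Wp ℤ (3 * r) (2 * r)
  have w0 : ∀ n m k, coeff (Wp (ZA p) n m) k = ((coeff (Wp ℤ n m) k : ℤ) : ZA p) := by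
    intro n m k
    rw [← map_Wp (Int.castRingHom (ZA p)), coeff_map, eq_intCast]
  have w1 := coeff_delta_int h3 (m := 2 * r) (by omega) (Wp ℤ (3 * r) (2 * r)) (by omega) 0
  have w2 := coeff_delta_int h1 (m := 2 * r) (by omega) (Wp ℤ (3 * r) (2 * r)) (by omega) 1
  have w3 : P3 ℤ ^ p * Wp ℤ (3 * r) (2 * r) = Wp ℤ (3 * r + p) (2 * r) := by unfold Wp; ring
  have w4 : P1 ℤ ^ p * Wp ℤ (3 * r) (2 * r) = Wp ℤ (3 * r) (2 * r + p) := by unfold Wp; ring
  rw [w3, P3_c0] at w1
  rw [w4, P1_c1] at w2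
  simp only [zero_mul, add_zero, one_mul, rd, map_Wp] at w1 w2 hc
  rw [w0] at s0 s1 s2
  rw [w1] at s1
  rw [w2] at s2
  have hWr : red p ((coeff (Wp ℤ (3 * r) (2 * r)) (2 * r) : ℤ) : ZA p) =
      coeff (Wp (ZMod p) (3 * r) (2 * r)) (2 * r) := by
    rw [map_intCast, ← map_Wp (Int.castRingHom (ZMod p)), coeff_map, eq_intCast]
  generalize ((coeff (Wp ℤ (3 * r) (2 * r)) (2 * r) : ℤ) : ZA p) = W at *
  generalize coeff (Polynomial.map (Int.castRingHom (ZMod p)) d3 * Wp (ZMod p) (3 * r) (2 * r))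
    (2 * r) = x3 at *
  generalize coeff (Polynomial.map (Int.castRingHom (ZMod p)) d1 * Wp (ZMod p) (3 * r) (2 * r))
    (2 * r + p) = x1 at *
  rw [← hWr] at hc
  generalize ∑ k ∈ range p, ((3 * r).choose k : ZA p) * (2 * r).choose k * (-v) ^ k = T0 at *
  generalize ∑ k ∈ range p, ((3 * r + p).choose k : ZA p) * (2 * r).choose k * (-v) ^ k = T1 at *
  generalize ∑ k ∈ range p, ((3 * r).choose k : ZA p) * (2 * r + p).choose k * (-v) ^ k = T2 at *
  push_cast at s1 s2
  have f4 : (4 : ZA p) ^ p = 4 * (1 + pm p (2 * q2)) := by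
    have := fermat_pow hq2 2
    push_cast at this
    rw [← this, show (2 : ZA p) ^ 2 = 4 by norm_num, ← pow_succ', Nat.sub_add_cancel hp.out.pos]
  have rv : red p v = (2 ^ 2)⁻¹ := by
    have := congrArg (red p) hv
    rw [map_mul, map_ofNat, map_one] at this
    field_simp; linear_combination this
  have rt : red p t = 3⁻¹ := by
    have := congrArg (red p) ht
    rw [map_mul, map_ofNat, map_one] at this
    field_simp; linear_combination this
  -- left side
  have hL : 4 ^ (2 * r) * SA v t = W + pm p (-x3 / 2 + 2 * q2 * red p W / 3 - x1 / 12) := by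
    have u1 : 4 ^ (2 * r) * T2 = W - pm p (2 * q2 * red p W) + pm p (x1 / 4) := by
      have e1 : pm p (2 * q2 * red p W) = W * pm p (2 * q2) := by rw [mul_pm, mul_comm]
      have e2 : pm p (x1 / 4) = v * pm p x1 := by
        rw [mul_pm, rv, div_eq_inv_mul]; congr 3; norm_num
      rw [pow_add, f4] at s2
      rw [e1, e2]
      linear_combination (-(v * (1 - pm p (2 * q2)))) * s2 +
        (W * (1 - pm p (2 * q2)) - 4 ^ (2 * r) * T2) * hv +
        (4 * v * 4 ^ (2 * r) * T2) * pm_mul_pm (2 * q2) (2 * q2) - v * pm_mul_pm (2 * q2) x1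
    have e3 : pm p (-x3 / 2 + 2 * q2 * red p W / 3 - x1 / 12) =
        -(2 * v) * pm p x3 + t * pm p (2 * q2 * red p W) - t * pm p (x1 / 4) := by
      rw [mul_pm, mul_pm, mul_pm, ← pm_add, ← pm_sub, map_neg, map_mul, map_ofNat, rv, rt]
      congr 1
      have n4 : (4 : ZMod p) ≠ 0 := by
        rw [show (4 : ZMod p) = 2 ^ 2 by norm_num]; positivity
      have n12 : (12 : ZMod p) ≠ 0 := by
        rw [show (12 : ZMod p) = 2 ^ 2 * 3 by norm_num]; positivity
      field_simp; ring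
    rw [hS, e3]
    linear_combination -(1 + 2 * v + t) * s0 + 2 * v * s1 - t * u1
  -- right side
  have hu4 : IsUnit ((4 : ZA p) ^ (2 * r)) :=
    (IsUnit.of_mul_eq_one v hv).pow _
  apply hu4.mul_left_cancel
  rw [hL, hc]
  have t5 : tau p 5 = 5 * (1 + pm p q5) := by
    have := tau_red (p := p) 5
    rw [map_ofNat] at this
    rw [this, ← hq5, ← pow_succ', Nat.sub_add_cancel hp.out.pos]
  have t2 : tau p 2 = 2 * (1 + pm p q2) := by
    have := tau_red (p := p) 2
    rw [map_ofNat] at this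
    rw [this, ← hq2, ← pow_succ', Nat.sub_add_cancel hp.out.pos]
  have t10 : tau p 10 = 2 * (1 + pm p q2) * (5 * (1 + pm p q5)) := by
    rw [← t2, ← t5, ← map_mul]; norm_num
  have f2 : (4 : ZA p) ^ (2 * r) * 2 ^ (2 * r) = 1 + pm p q2 := by
    rw [← hq2, show p - 1 = 2 * (2 * r) + 2 * r by omega, pow_add, pow_mul (2 : ZA p) 2 (2 * r)]
    norm_num
  have f5 : (5 : ZA p) ^ (3 * r) * 5 ^ (2 * r) = 3125 ^ r := by
    rw [← pow_add, show 3 * r + 2 * r = 5 * r by ring, pow_mul]; norm_num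
  have key : 4 ^ (2 * r) * (tau p 5 ^ (3 * r) * tau p 10 ^ (2 * r)) =
      3125 ^ r * (1 + pm p (2 * q2 / 3 - 5 * q5 / 6)) := by
    rw [t5, t10]
    simp only [mul_pow]
    have e1 : (1 + pm p q2) * (1 + pm p q2) ^ (2 * r) * ((1 + pm p q5) ^ (3 * r) *
        (1 + pm p q5) ^ (2 * r)) = 1 + pm p (2 * q2 / 3 - 5 * q5 / 6) := by
      rw [← pow_succ', ← pow_add, one_add_pm_pow, one_add_pm_pow]
      have e2 : 2 * q2 / 3 - 5 * q5 / 6 =
          ((2 * r + 1 : ℕ) : ZMod p) * q2 + ((3 * r + 2 * r : ℕ) : ZMod p) * q5 := by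
        have n6 : (6 : ZMod p) ≠ 0 := by
          rw [show (6 : ZMod p) = 2 * 3 by norm_num]; positivity
        push_cast
        field_simp
        linear_combination (-6 * q2 - 15 * q5) * hrr
      rw [e2, pm_add]
      linear_combination pm_mul_pm (((2 * r + 1 : ℕ) : ZMod p) * q2)
        (((3 * r + 2 * r : ℕ) : ZMod p) * q5)
    rw [← e1, ← f2, ← f5]; ring
  have e3 := mul_pm ((3125 : ZA p) ^ r) (sPos p r / 3 - sNeg p r / 6)
  have e4 := mul_pm (((3 * r).choose (2 * r) : ZA p) * 3125 ^ r) (2 * q2 / 3 - 5 * q5 / 6)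
  simp only [map_mul, map_pow, map_ofNat, map_natCast] at e3 e4
  rw [pm_add, ← e3, ← e4]
  linear_combination (-(((3 * r).choose (2 * r) : ZA p) + pm p (sPos p r / 3 - sNeg p r / 6))) * key
    - 3125 ^ r * pm_mul_pm (2 * q2 / 3 - 5 * q5 / 6) (sPos p r / 3 - sNeg p r / 6)

lemma red_jac_ne_zero {r : ℕ} (hr : p = 6 * r + 1) (h5 : 5 < p) :
    red p (tau p 10 ^ (2 * r) *
      - ∑ x : ZMod p, tau p x ^ (4 * r) * tau p (1 - x) ^ (3 * r)) ≠ 0 := by
  rw [jac_sum hr h5, neg_neg, map_mul, map_add, red_pm, add_zero, map_pow, red_tau, map_natCast]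
  have := two_ne_zero' h5
  have := five_ne_zero' h5
  refine mul_ne_zero (pow_ne_zero _ ?_) ?_
  · rw [show (10 : ZMod p) = 2 * 5 by norm_num]; positivity
  · rw [Ne, ZMod.natCast_eq_zero_iff]
    intro h
    have h2 : p ∣ (3 * r).factorial := by
      rw [← Nat.choose_mul_factorial_mul_factorial (show 2 * r ≤ 3 * r by omega), mul_assoc]
      exact h.mul_right _
    rw [hp.out.dvd_factorial] at h2
    omega

lemma tau_five {r : ℕ} (hr : p = 6 * r + 1) (h5 : 5 < p) :
    tau p 5 ^ (3 * r) = (jacobiSym p 5 : ZA p) := by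
  have h1 : jacobiSym (p : ℤ) 5 = legendreSym p 5 := by
    rw [jacobiSym.legendreSym.to_jacobiSym]
    exact (jacobiSym.quadratic_reciprocity_one_mod_four (a := 5) (by norm_num)
      (hp.out.odd_of_ne_two (by omega))).symm
  have h2 := legendreSym.eq_pow p 5
  rw [show p / 2 = 3 * r by omega] at h2
  push_cast at h2
  rw [h1, ← map_pow, ← h2]
  rcases legendreSym.eq_one_or_neg_one p (a := 5) (by exact_mod_cast five_ne_zero' h5) with h | h
    <;> rw [h]
  · simp
  · have := tau_red (p := p) (-1)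
    rw [map_neg, map_one, (hp.out.odd_of_ne_two (by omega)).neg_one_pow] at this
    push_cast; exact this

end Pool.Agent.P.MP_7d0087_nt
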