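import Pool.Agent.P.MP_7d0087_nt.Jac
import Pool.Agent.P.MP_7d0087_nt.Recip

/-! Identification of the unit root. -/

namespace Pool.Agent.P.MP_7d0087_nt

open Finset MulChar

lemma rep_unique {p : ℕ} (hp : p.Prime) {A B A' B' : ℤ} (h : (p : ℤ) = A ^ 2 + 3 * B ^ 2)
    (h' : (p : ℤ) = A' ^ 2 + 3 * B' ^ 2) : B ^ 2 = B' ^ 2 := by
  have hpi : Prime (p : ℤ) := Nat.prime_iff_prime_int.mp hp
  have hp0 : (0 : ℤ) < p := by exact_mod_cast hp.pos
  have key : ∀ B' : ℤ, (p : ℤ) = A' ^ 2 + 3 * B' ^ 2 → (p : ℤ) ∣ A * B' - A' * B →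
      B ^ 2 = B' ^ 2 := by
    intro B' h' ⟨k, hk⟩
    have h1 : (p : ℤ) ^ 2 = (A * A' + 3 * B * B') ^ 2 + 3 * (A * B' - A' * B) ^ 2 := by
      rw [sq (p : ℤ)]; nth_rewrite 1 [h]; rw [h']; ring
    have hk0 : k = 0 := by
      by_contra hk0
      have : 1 ≤ k ^ 2 := by
        have := sq_pos_of_ne_zero hk0
        omega
      rw [hk] at h1
      nlinarith [sq_nonneg (A * A' + 3 * B * B'), sq_pos_of_pos hp0]
    rw [hk0, mul_zero] at hk
    apply mul_left_cancel₀ hp0.ne'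
    linear_combination B ^ 2 * h' - B' ^ 2 * h - (A * B' + A' * B) * hk
  have h2 : (p : ℤ) ∣ (A * B' - A' * B) * (A * (-B') - A' * B) :=
    ⟨B ^ 2 - B' ^ 2, by linear_combination B' ^ 2 * h - B ^ 2 * h'⟩
  rcases hpi.dvd_or_dvd h2 with h3 | h3
  · exact key B' h' h3
  · have := key (-B') (by rw [h']; ring) h3
    rw [this]; ring

lemma F25_cases : ∀ (a b : ZMod 5) (j : Fin 3),
    (⟨-(a + b), -(2 * b)⟩ : F25) ^ 8 = (⟨0, 1⟩ : F25) ^ (j : ℕ) →
      (a * b = 0 → j = 0) ∧ ((a = -b ∨ a = -2 * b) → j = 2) ∧ ((a = b ∨ a = 2 * b) → j = 1) := by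
  decide +kernel

variable {p : ℕ} [hp : Fact p.Prime]

theorem unit_eq {r : ℕ} (hr : p = 6 * r + 1) (h5 : 5 < p) (A B : ℤ)
    (hAB : (p : ℤ) = A ^ 2 + 3 * B ^ 2) (hA : A ≡ 1 [ZMOD 3]) (u : ZA p)
    (hu : u = tau p 10 ^ (2 * r) *
      - ∑ x : ZMod p, tau p x ^ (4 * r) * tau p (1 - x) ^ (3 * r)) :
    (5 ∣ A * B → u ^ 2 - 2 * A * u + p = 0) ∧
      ((A ≡ -B [ZMOD 5] ∨ A ≡ -2 * B [ZMOD 5]) → u ^ 2 + (A + 3 * B) * u + p = 0) := by
  have hr0 : 0 < r := by omega
  obtain ⟨g, hg⟩ := IsCyclic.exists_generator (α := (ZMod p)ˣ)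
  have hord : orderOf g = 6 * r := by
    rw [orderOf_eq_card_of_forall_mem_zpowers hg, Nat.card_eq_fintype_card, ZMod.card_units]; omega
  let wu : Eisˣ := ⟨wE, wE ^ 2, by decide, by decide⟩
  have hwu : wu ∈ rootsOfUnity (Fintype.card (ZMod p)ˣ) Eis := by
    rw [mem_rootsOfUnity, ZMod.card_units, show p - 1 = 3 * (2 * r) by omega, pow_mul]
    have : wu ^ 3 = 1 := by ext1; exact wE_pow_three
    rw [this, one_pow]
  set χ := MulChar.ofRootOfUnity hwu hg with hχdef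
  have hχ : χ g = wE := MulChar.ofRootOfUnity_spec hwu hg
  set ζ : ZA p := tau p g ^ (4 * r) with hζ
  have hζ3 : ζ ^ 3 = 1 := by
    rw [hζ, ← pow_mul, show 4 * r * 3 = (p - 1) * 2 by omega, pow_mul, ← map_pow,
      ZMod.pow_card_sub_one_eq_one g.ne_zero, map_one, one_pow]
  have hζu : IsUnit (ζ - 1) := by
    apply isUnit_of_red_ne_zero
    rw [map_sub, hζ, map_pow, red_tau, map_one, sub_ne_zero]
    intro h
    have h1 : g ^ (4 * r) = 1 := by ext; simpa using h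
    rw [← orderOf_dvd_iff_pow_eq_one, hord] at h1
    have := Nat.le_of_dvd (by omega) h1
    omega
  have h : ζ * ζ = -1 - ζ := by
    apply hζu.mul_left_cancel
    linear_combination hζ3
  have hev : ∀ x : ZMod p, evE ζ h (χ x) = tau p x ^ (4 * r) := by
    intro x
    by_cases hx : x = 0
    · rw [hx, MulChar.map_zero, map_zero, tau_zero, zero_pow (by omega)]
    · obtain ⟨k, hk1, hk2⟩ := chi_val hg χ hχ hx
      rw [hk2, map_pow, evE_w, hk1, map_pow, hζ, ← pow_mul, ← pow_mul, mul_comm]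
  have hF : ringChar (ZMod p) ≠ 2 := by rw [ZMod.ringChar_zmod_n]; omega
  have hq : ∀ y : ZMod p, qc (ZMod p) (ZA p) y = tau p y ^ (3 * r) := by
    intro y
    by_cases hy : y = 0
    · rw [hy, MulChar.map_zero, tau_zero, zero_pow (by omega)]
    · have h1 := quadraticChar_eq_pow_of_char_ne_two' hF y
      rw [ZMod.card, show p / 2 = 3 * r by omega] at h1
      rw [← map_pow, ← h1, qc_apply]
      rcases quadraticChar_dichotomy hy with h2 | h2 <;> rw [h2]
      · simp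
      · have := tau_red (p := p) (-1)
        rw [map_neg, map_one, (hp.out.odd_of_ne_two (by omega)).neg_one_pow] at this
        push_cast; exact this.symm
  have hJ : ∑ x : ZMod p, tau p x ^ (4 * r) * tau p (1 - x) ^ (3 * r) =
      evE ζ h (jacobiSum χ (qc (ZMod p) Eis)) := by
    rw [← jacobiSum_ringHomComp, qc_comp, jacobiSum]
    refine sum_congr rfl fun x _ => ?_
    rw [MulChar.ringHomComp_apply, hev, hq]
  have hN := jac_norm hg χ hχ h5
  have h3 := jac_mod_three hg χ hχ h5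
  obtain ⟨b, hb⟩ := jac_mod_two χ hχ
  obtain ⟨j, hj3, hj, hrec⟩ := jac_recip hg χ hχ h5
  have h10 : tau p 10 ^ (2 * r) = ζ ^ (2 * j) := by
    have h1 := hev 10
    rw [hj, map_pow, evE_w] at h1
    have h10 : (10 : ZMod p) ≠ 0 := by
      have := two_ne_zero' h5
      have := five_ne_zero' h5
      rw [show (10 : ZMod p) = 2 * 5 by norm_num]; positivity
    rw [mul_comm 2 j, pow_mul ζ, h1, ← pow_mul, show 4 * r * 2 = (p - 1) + 2 * r by omega, pow_add,
      ← map_pow (tau p) 10 (p - 1), ZMod.pow_card_sub_one_eq_one h10, map_one, one_mul]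
  rw [hJ, evE_apply, h10] at hu
  generalize (jacobiSum χ (qc (ZMod p) Eis)).re = x at *
  generalize (jacobiSum χ (qc (ZMod p) Eis)).im = y at *
  obtain ⟨B', rfl⟩ : ∃ B', b = -B' := ⟨-b, by ring⟩
  obtain ⟨A', rfl⟩ : ∃ A', x = -(A' + B') := ⟨-x - B', by ring⟩
  subst hb
  have hAB' : (p : ℤ) = A' ^ 2 + 3 * B' ^ 2 := by rw [← hN]; ring
  have hB := rep_unique hp.out hAB hAB'
  have hA2 : A ^ 2 = A' ^ 2 := by linear_combination hAB' - hAB - 3 * hB
  have hAA : A = A' := by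
    rcases sq_eq_sq_iff_eq_or_eq_neg.mp hA2 with h1 | h1
    · exact h1
    · exfalso
      have := hA.dvd
      omega
  subst hAA
  have hc := F25_cases (A : ZMod 5) (B' : ZMod 5) ⟨j, hj3⟩ (by
    rw [← hrec]; congr 1; ext <;> simp)
  simp only [Fin.ext_iff] at hc
  have hpz : (p : ZA p) = A ^ 2 + 3 * B' ^ 2 := by
    exact_mod_cast congrArg (Int.cast : ℤ → ZA p) hAB'
  push_cast at hu
  have c5 : ∀ s t : ℤ, s ≡ t [ZMOD 5] → (s : ZMod 5) = t := fun s t hst =>
    (ZMod.intCast_eq_intCast_iff s t 5).mpr hst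
  constructor
  · intro h5AB
    have h6 : ((A * B : ℤ) : ZMod 5) = 0 := (ZMod.intCast_zmod_eq_zero_iff_dvd _ 5).mpr h5AB
    have h7 : (A : ZMod 5) * B' = 0 := by
      push_cast at h6
      rcases sq_eq_sq_iff_eq_or_eq_neg.mp hB with h1 | h1
      · rw [← h1]; exact h6
      · rw [h1] at h6; push_cast at h6; linear_combination -h6
    have hj0 : j = 0 := hc.1 h7
    subst hj0
    rw [hu, hpz]
    linear_combination (4 * (B' : ZA p) ^ 2) * h
  · intro h5AB
    rcases sq_eq_sq_iff_eq_or_eq_neg.mp hB with h1 | h1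
    · subst h1
      have hj2 : j = 2 := hc.2.1 (h5AB.imp (fun h2 => by simpa using c5 _ _ h2)
        (fun h2 => by simpa using c5 _ _ h2))
      subst hj2
      have h4 : ζ ^ (2 * 2) = ζ := by linear_combination ζ * hζ3
      rw [hu, hpz, h4]
      linear_combination (((A : ZA p) + B) ^ 2 + 2 * B * (A + 3 * B) +
        4 * B * (A + B) * (ζ - 1) + 4 * B ^ 2 * (ζ ^ 2 - ζ)) * h
    · subst h1
      have hj1 : j = 1 := hc.2.2 (h5AB.imp (fun h2 => by simpa using c5 _ _ h2)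
        (fun h2 => by simpa using c5 _ _ h2))
      subst hj1
      have h4 : ζ ^ (2 * 1) = -1 - ζ := by linear_combination h
      rw [hu, hpz, h4]
      push_cast
      linear_combination (4 * (B' : ZA p) ^ 2 * (ζ ^ 2 + ζ + 1) +
        4 * B' * ((A - B') + (A + B') * ζ) + (A + B') ^ 2 - (A - 3 * B') * (2 * B')) * h

end Pool.Agent.P.MP_7d0087_nt
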